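import Pool.Agent.Lib.MP_d8bd92_nt.As.Defs

set_option autoImplicit false

/-!
ROW as-A1a. The sum of the lengths over the `a` in a residue class.

PROOF. l(t) = L 1 t = (√(t⁴+256) - √(max(t⁴-256) 0))/64 (t >= 0), L X a = √X l(a X^(-1/4)), l even.
l is increasing on [0,4], decreasing on [4,∞) (there l(t) = 8/(√(t⁴+256)+√(t⁴-256))), 0 <= l <= l(4) <= 1/2, l(t) <= 8/t².
So l = f1 - f2 on [0,∞), f1(t) = l(min t 4), f2(t) = l(4) - l(max t 4), both monotone with values in [0,1/2].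
For a monotone g with values in [0,B], h > 0, s >= 0, n: |h ∑_{k<n} g(s+hk) - ∫_s^{s+hn} g| <= h B
(`MonotoneOn.sum_le_integral`, `MonotoneOn.integral_le_sum` for x ↦ g(s+hx)).
The a >= 0 in the class are s0 + M k (0 <= s0 < M, k < n), the a < 0 likewise for the class of -α (l even); step h = M X^(-1/4),
A = 2 ∫_0^∞ l. The tail beyond √(65X) X^(-1/4) = √65 X^(1/4): ∫ <= 8/(√65 X^(1/4)) <= X^(-1/4); the pieces [0,s], and the last one
of length <= h: <= h/2. Multiply by √X / h = X^(3/4)/M: error <= C X^(1/2).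
-/

namespace Pool.Agent.Lib.MP_d8bd92_nt

namespace As

open Finset Filter Topology Pool.Agent.Lib.Szpiro

/-- Riemann sums of a monotone function -/
theorem A1a_mono {g : ℝ → ℝ} {B h s : ℝ} (hg : MonotoneOn g (Set.Ici 0))
    (hB : ∀ t, 0 ≤ t → 0 ≤ g t ∧ g t ≤ B) (hh : 0 < h) (hs : 0 ≤ s) (n : ℕ) :
    0 ≤ (∫ t in s..(s + h * n), g t) - h * ∑ k ∈ range n, g (s + h * k) ∧
      (∫ t in s..(s + h * n), g t) - h * ∑ k ∈ range n, g (s + h * k) ≤ h * B := by
  have hψ : MonotoneOn (fun x : ℝ => g (s + h * x)) (Set.Icc 0 (0 + (n : ℝ))) := by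
    intro x hx y hy hxy
    have hx0 := hx.1
    have hy0 := hy.1
    exact hg (Set.mem_Ici.2 (by positivity)) (Set.mem_Ici.2 (by positivity))
      (by nlinarith)
  have h1 := hψ.sum_le_integral
  have h2 := hψ.integral_le_sum
  simp only [zero_add] at h1 h2
  rw [intervalIntegral.integral_comp_add_mul g hh.ne' s] at h1 h2
  rw [mul_zero, add_zero, smul_eq_mul] at h1 h2
  have h3 : ∑ i ∈ range n, g (s + h * ((i + 1 : ℕ) : ℝ)) =
      ∑ i ∈ range n, g (s + h * (i : ℝ)) + g (s + h * n) - g s := by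
    have h4 := Finset.sum_range_succ (fun i : ℕ => g (s + h * (i : ℝ))) n
    have h5 := Finset.sum_range_succ' (fun i : ℕ => g (s + h * (i : ℝ))) n
    rw [h4] at h5
    simp only [Nat.cast_zero, mul_zero, add_zero] at h5
    linarith
  rw [h3] at h2
  have hn : 0 ≤ s + h * n := by positivity
  have hb1 := (hB _ hn).2
  have hb2 := (hB s hs).1
  obtain ⟨I, hI⟩ : ∃ I : ℝ, I = ∫ t in s..(s + h * n), g t := ⟨_, rfl⟩
  obtain ⟨S, hS⟩ : ∃ S : ℝ, S = ∑ k ∈ range n, g (s + h * k) := ⟨_, rfl⟩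
  rw [← hI, ← hS] at h1 h2 ⊢
  have h6 : h * (h⁻¹ * I) = I := by
    rw [← mul_assoc, mul_inv_cancel₀ hh.ne', one_mul]
  constructor
  · have := mul_le_mul_of_nonneg_left h1 hh.le
    rw [h6] at this
    linarith
  · have := mul_le_mul_of_nonneg_left h2 hh.le
    rw [h6] at this
    nlinarith

noncomputable def A1a_l (t : ℝ) : ℝ := (√(t ^ 4 + 256) - √(max (t ^ 4 - 256) 0)) / 64

noncomputable def A1a_f (t : ℝ) : ℝ := √(min t 4 ^ 4 + 256) / 64

noncomputable def A1a_g (t : ℝ) : ℝ :=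
  √512 / 64 - 8 / (√(max t 4 ^ 4 + 256) + √(max t 4 ^ 4 - 256))

theorem A1a_sqrt : √512 / 64 ≤ 1 / 2 := by
  have h : √512 ≤ 32 := by
    rw [Real.sqrt_le_left (by norm_num)]
    norm_num
  linarith

theorem A1a_big {t : ℝ} (ht : 4 ≤ t) : A1a_l t = 8 / (√(t ^ 4 + 256) + √(t ^ 4 - 256)) := by
  have h4 : (4 : ℝ) ^ 4 ≤ t ^ 4 := pow_le_pow_left₀ (by norm_num) ht 4
  have h5 : 0 ≤ t ^ 4 - 256 := by norm_num at h4; linarith
  have h6 : 0 < √(t ^ 4 + 256) := Real.sqrt_pos.2 (by positivity)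
  have h7 : 0 ≤ √(t ^ 4 - 256) := Real.sqrt_nonneg _
  rw [A1a_l, max_eq_left h5, eq_div_iff (by positivity)]
  have h8 : √(t ^ 4 + 256) ^ 2 = t ^ 4 + 256 := Real.sq_sqrt (by positivity)
  have h9 : √(t ^ 4 - 256) ^ 2 = t ^ 4 - 256 := Real.sq_sqrt h5
  nlinarith

theorem A1a_small {t : ℝ} (h0 : 0 ≤ t) (ht : t ≤ 4) : A1a_l t = √(t ^ 4 + 256) / 64 := by
  have h4 : t ^ 4 ≤ (4 : ℝ) ^ 4 := pow_le_pow_left₀ h0 ht 4
  have h5 : t ^ 4 - 256 ≤ 0 := by norm_num at h4; linarith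
  rw [A1a_l, max_eq_right h5, Real.sqrt_zero, sub_zero]

theorem A1a_split {t : ℝ} (h0 : 0 ≤ t) : A1a_l t = A1a_f t - A1a_g t := by
  rcases le_total t 4 with h | h
  · rw [A1a_small h0 h, A1a_f, A1a_g, min_eq_left h, max_eq_right h]
    have e : (8 : ℝ) / (√(4 ^ 4 + 256) + √(4 ^ 4 - 256)) = √512 / 64 := by
      have e1 : (4 : ℝ) ^ 4 + 256 = 512 := by norm_num
      have e2 : (4 : ℝ) ^ 4 - 256 = 0 := by norm_num
      rw [e1, e2, Real.sqrt_zero, add_zero]
      have h6 : 0 < √(512 : ℝ) := Real.sqrt_pos.2 (by norm_num)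
      rw [div_eq_div_iff h6.ne' (by norm_num)]
      have h8 : √(512 : ℝ) * √512 = 512 := Real.mul_self_sqrt (by norm_num)
      rw [h8]
      norm_num
    rw [e]
    ring
  · rw [A1a_big h, A1a_f, A1a_g, min_eq_right h, max_eq_left h]
    have e1 : (4 : ℝ) ^ 4 + 256 = 512 := by norm_num
    rw [e1]
    ring

theorem A1a_fmono : MonotoneOn A1a_f (Set.Ici 0) := by
  intro x hx y hy hxy
  have hx0 : 0 ≤ x := hx
  have h1 : 0 ≤ min x 4 := le_min hx0 (by norm_num)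
  have h2 : min x 4 ^ 4 ≤ min y 4 ^ 4 := pow_le_pow_left₀ h1 (min_le_min_right 4 hxy) 4
  unfold A1a_f
  exact div_le_div_of_nonneg_right (Real.sqrt_le_sqrt (by linarith)) (by norm_num)

theorem A1a_gmono : MonotoneOn A1a_g (Set.Ici 0) := by
  intro x hx y hy hxy
  have h1 : (4 : ℝ) ≤ max x 4 := le_max_right _ _
  have h2 : max x 4 ^ 4 ≤ max y 4 ^ 4 :=
    pow_le_pow_left₀ (by linarith) (max_le_max_right 4 hxy) 4
  have h6 : 0 < √(max x 4 ^ 4 + 256) := Real.sqrt_pos.2 (by positivity)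
  have h7 : 0 ≤ √(max x 4 ^ 4 - 256) := Real.sqrt_nonneg _
  have h3 : √(max x 4 ^ 4 + 256) ≤ √(max y 4 ^ 4 + 256) := Real.sqrt_le_sqrt (by linarith)
  have h4 : √(max x 4 ^ 4 - 256) ≤ √(max y 4 ^ 4 - 256) := Real.sqrt_le_sqrt (by linarith)
  have h5 : 8 / (√(max y 4 ^ 4 + 256) + √(max y 4 ^ 4 - 256)) ≤
      8 / (√(max x 4 ^ 4 + 256) + √(max x 4 ^ 4 - 256)) :=
    div_le_div_of_nonneg_left (by norm_num) (by positivity) (by linarith)
  unfold A1a_g
  linarith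

theorem A1a_fbd (t : ℝ) (h0 : 0 ≤ t) : 0 ≤ A1a_f t ∧ A1a_f t ≤ 1 / 2 := by
  unfold A1a_f
  refine ⟨by positivity, le_trans ?_ A1a_sqrt⟩
  have h1 : min t 4 ^ 4 ≤ (4 : ℝ) ^ 4 :=
    pow_le_pow_left₀ (le_min h0 (by norm_num)) (min_le_right _ _) 4
  have h2 : min t 4 ^ 4 + 256 ≤ 512 := by norm_num at h1; linarith
  exact div_le_div_of_nonneg_right (Real.sqrt_le_sqrt h2) (by norm_num)

theorem A1a_gbd (t : ℝ) (h0 : 0 ≤ t) : 0 ≤ A1a_g t ∧ A1a_g t ≤ 1 / 2 := by
  have h4 : A1a_g 0 = 0 := by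
    have := A1a_split (le_refl (0 : ℝ))
    have e1 : A1a_l 0 = A1a_f 0 := by
      rw [A1a_small (le_refl _) (by norm_num), A1a_f, min_eq_left (by norm_num)]
    linarith
  constructor
  · rw [← h4]
    exact A1a_gmono (Set.mem_Ici.2 (le_refl _)) (Set.mem_Ici.2 h0) h0
  · have : 0 ≤ 8 / (√(max t 4 ^ 4 + 256) + √(max t 4 ^ 4 - 256)) := by positivity
    have h5 := A1a_sqrt
    unfold A1a_g
    linarith

theorem A1a_lnn (t : ℝ) : 0 ≤ A1a_l t := by
  unfold A1a_l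
  have h4 : 0 ≤ t ^ 4 := by positivity
  have : √(max (t ^ 4 - 256) 0) ≤ √(t ^ 4 + 256) :=
    Real.sqrt_le_sqrt (max_le (by linarith) (by linarith))
  exact div_nonneg (by linarith) (by norm_num)

theorem A1a_lhalf {t : ℝ} (h0 : 0 ≤ t) : A1a_l t ≤ 1 / 2 := by
  rw [A1a_split h0]
  linarith [(A1a_fbd t h0).2, (A1a_gbd t h0).1]

theorem A1a_lsq {t : ℝ} (h0 : 0 < t) : A1a_l t ≤ 8 * t ^ (-2 : ℝ) := by
  have e : t ^ (-2 : ℝ) = 1 / t ^ 2 := by
    rw [Real.rpow_neg h0.le]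
    norm_cast
    rw [one_div]
  rw [e]
  have ht2 : 0 < t ^ 2 := by positivity
  rcases le_total t 4 with h | h
  · have h1 : (1 : ℝ) / 2 ≤ 8 * (1 / t ^ 2) := by
      have : t ^ 2 ≤ 16 := by nlinarith
      rw [mul_one_div, div_le_div_iff₀ (by norm_num) ht2]
      linarith
    exact (A1a_lhalf h0.le).trans h1
  · rw [A1a_big h, mul_one_div]
    apply div_le_div_of_nonneg_left (by norm_num) ht2
    have h1 : t ^ 2 = √(t ^ 4) := by
      rw [show t ^ 4 = (t ^ 2) ^ 2 by ring, Real.sqrt_sq ht2.le]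
    have h2 : √(t ^ 4) ≤ √(t ^ 4 + 256) := Real.sqrt_le_sqrt (by linarith)
    have h3 := Real.sqrt_nonneg (t ^ 4 - 256)
    linarith

theorem A1a_cont : Continuous A1a_l := by
  unfold A1a_l
  fun_prop

theorem A1a_int {c : ℝ} (hc : 0 ≤ c) : MeasureTheory.IntegrableOn A1a_l (Set.Ioi c) := by
  have h1 : MeasureTheory.IntegrableOn A1a_l (Set.Ioi 1) := by
    have h2 : MeasureTheory.IntegrableOn (fun t : ℝ => 8 * t ^ (-2 : ℝ)) (Set.Ioi 1) :=
      (integrableOn_Ioi_rpow_of_lt (by norm_num) one_pos).const_mul 8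
    refine MeasureTheory.Integrable.mono' h2 A1a_cont.aestronglyMeasurable ?_
    refine (MeasureTheory.ae_restrict_iff' measurableSet_Ioi).2 (Filter.Eventually.of_forall ?_)
    intro t ht
    have ht1 : (1 : ℝ) < t := ht
    rw [Real.norm_eq_abs, abs_of_nonneg (A1a_lnn t)]
    exact A1a_lsq (by linarith)
  have h3 : MeasureTheory.IntegrableOn A1a_l (Set.Icc 0 1) :=
    A1a_cont.continuousOn.integrableOn_compact isCompact_Icc
  refine (h3.union h1).mono_set ?_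
  intro t ht
  have ht1 : c < t := ht
  rcases le_total t 1 with h | h
  · exact Or.inl ⟨by linarith, h⟩
  · rcases h.eq_or_lt with h | h
    · exact Or.inl ⟨by linarith, h.symm.le⟩
    · exact Or.inr h

theorem A1a_tail {T : ℝ} (hT : 0 < T) : 0 ≤ ∫ t in Set.Ioi T, A1a_l t ∧
    ∫ t in Set.Ioi T, A1a_l t ≤ 8 / T := by
  constructor
  · exact MeasureTheory.setIntegral_nonneg measurableSet_Ioi fun t _ => A1a_lnn t
  · have h2 : MeasureTheory.IntegrableOn (fun t : ℝ => 8 * t ^ (-2 : ℝ)) (Set.Ioi T) :=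
      (integrableOn_Ioi_rpow_of_lt (by norm_num) hT).const_mul 8
    have h3 := MeasureTheory.setIntegral_mono_on (A1a_int hT.le) h2 measurableSet_Ioi
      (fun t ht => A1a_lsq (lt_trans hT ht))
    refine h3.trans (le_of_eq ?_)
    rw [MeasureTheory.integral_const_mul, integral_Ioi_rpow_of_lt (by norm_num) hT]
    have e : (-2 : ℝ) + 1 = -1 := by norm_num
    rw [e, Real.rpow_neg_one]
    field_simp

/-- the Riemann sum of `l` -/
theorem A1a_riemann {h s T : ℝ} (hh : 0 < h) (hs : 0 ≤ s) (hsh : s ≤ h) (n : ℕ)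
    (hT : s + h * n = T) (hT0 : 0 < T) :
    |h * ∑ k ∈ range n, A1a_l (s + h * k) - ∫ t in Set.Ioi 0, A1a_l t| ≤ h + h / 2 + 8 / T := by
  have hf := A1a_mono A1a_fmono A1a_fbd hh hs n
  have hg := A1a_mono A1a_gmono A1a_gbd hh hs n
  have hsT : s ≤ T := by rw [← hT]; have : 0 ≤ h * (n : ℝ) := by positivity
                         linarith
  rw [hT] at hf hg
  have e1 : ∫ t in s..T, A1a_l t = (∫ t in s..T, A1a_f t) - ∫ t in s..T, A1a_g t := by
    rw [← intervalIntegral.integral_sub]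
    · apply intervalIntegral.integral_congr
      intro t ht
      rw [Set.uIcc_of_le hsT] at ht
      exact A1a_split (hs.trans ht.1)
    · apply MonotoneOn.intervalIntegrable
      rw [Set.uIcc_of_le hsT]
      exact A1a_fmono.mono fun t ht => Set.mem_Ici.2 (hs.trans ht.1)
    · apply MonotoneOn.intervalIntegrable
      rw [Set.uIcc_of_le hsT]
      exact A1a_gmono.mono fun t ht => Set.mem_Ici.2 (hs.trans ht.1)
  have e2 : ∑ k ∈ range n, A1a_l (s + h * k) =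
      ∑ k ∈ range n, A1a_f (s + h * k) - ∑ k ∈ range n, A1a_g (s + h * k) := by
    rw [← Finset.sum_sub_distrib]
    apply Finset.sum_congr rfl
    intro k _
    exact A1a_split (by positivity)
  have e3 : (∫ t in (0 : ℝ)..T, A1a_l t) + ∫ t in Set.Ioi T, A1a_l t =
      ∫ t in Set.Ioi 0, A1a_l t :=
    intervalIntegral.integral_interval_add_Ioi (A1a_int (le_refl _)) (A1a_int hT0.le)
  have e4 : (∫ t in (0 : ℝ)..s, A1a_l t) + ∫ t in s..T, A1a_l t = ∫ t in (0 : ℝ)..T, A1a_l t :=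
    intervalIntegral.integral_add_adjacent_intervals (A1a_cont.intervalIntegrable _ _)
      (A1a_cont.intervalIntegrable _ _)
  have e5 : 0 ≤ ∫ t in (0 : ℝ)..s, A1a_l t :=
    intervalIntegral.integral_nonneg hs fun t _ => A1a_lnn t
  have e6 : ∫ t in (0 : ℝ)..s, A1a_l t ≤ h / 2 := by
    have h1 : ∫ t in (0 : ℝ)..s, A1a_l t ≤ ∫ t in (0 : ℝ)..s, (1 / 2 : ℝ) :=
      intervalIntegral.integral_mono_on hs (A1a_cont.intervalIntegrable _ _)
        (continuous_const.intervalIntegrable _ _) fun t ht => A1a_lhalf ht.1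
    rw [intervalIntegral.integral_const, smul_eq_mul] at h1
    linarith
  obtain ⟨e7, e8⟩ := A1a_tail hT0
  rw [e2, abs_le]
  obtain ⟨f1, f2⟩ := hf
  obtain ⟨g1, g2⟩ := hg
  rw [mul_sub]
  constructor <;> linarith

/-- scaling -/
theorem A1a_scale {X : ℝ} (hX : 1 ≤ X) (a : ℝ) :
    L X a = √X * A1a_l (a * X ^ (-(1 / 4) : ℝ)) := by
  have hX0 : 0 < X := by linarith
  have e : (X ^ (-(1 / 4) : ℝ)) ^ 4 = X⁻¹ := by
    rw [← Real.rpow_natCast, ← Real.rpow_mul hX0.le]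
    have : (-(1 / 4) : ℝ) * ((4 : ℕ) : ℝ) = -1 := by norm_num
    rw [this, Real.rpow_neg_one]
  have e1 : (a * X ^ (-(1 / 4) : ℝ)) ^ 4 = a ^ 4 * X⁻¹ := by rw [mul_pow, e]
  rw [L, A1a_l, e1, mul_div_assoc', mul_sub, ← Real.sqrt_mul hX0.le, ← Real.sqrt_mul hX0.le]
  have e2 : X * (a ^ 4 * X⁻¹ + 256) = a ^ 4 + 256 * X := by field_simp
  have e3 : X * max (a ^ 4 * X⁻¹ - 256) 0 = max (a ^ 4 - 256 * X) 0 := by
    rw [mul_max_of_nonneg _ _ hX0.le, mul_zero]
    congr 1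
    field_simp
  rw [e2, e3]

/-- one side -/
theorem A1a_side {X : ℝ} (hX : 1 ≤ X) {M N s : ℕ} (hM : 0 < M) (hs : s ≤ M)
    (hN : √(65 * X) < N + 1) :
    |∑ k ∈ range ((N + M - s) / M), L X ((s : ℝ) + M * k) -
      (∫ t in Set.Ioi 0, A1a_l t) / M * X ^ (3 / 4 : ℝ)| ≤ 4 * √X := by
  have hX0 : 0 < X := by linarith
  have hM0 : (0 : ℝ) < M := by exact_mod_cast hM
  have hM1 : (1 : ℝ) ≤ M := by exact_mod_cast hM
  obtain ⟨n, hn⟩ : ∃ n : ℕ, n = (N + M - s) / M := ⟨_, rfl⟩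
  rw [← hn]
  obtain ⟨r, hr⟩ : ∃ r : ℝ, r = X ^ (-(1 / 4) : ℝ) := ⟨_, rfl⟩
  have hr0 : 0 < r := by rw [hr]; positivity
  have hsX : √X = X ^ (1 / 2 : ℝ) := Real.sqrt_eq_rpow X
  have hsX0 : 0 < √X := Real.sqrt_pos.2 hX0
  have hsr : √X = X ^ (3 / 4 : ℝ) * r := by
    rw [hsX, hr, ← Real.rpow_add hX0]
    norm_num
  have hN7 : 7 * √X ≤ N := by
    have h1 : 8 * √X ≤ √(65 * X) := by
      apply Real.le_sqrt_of_sq_le
      rw [mul_pow, Real.sq_sqrt hX0.le]
      linarith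
    have h2 : 1 ≤ √X := by
      rw [Real.one_le_sqrt]
      exact hX
    linarith
  have hnN : (N : ℝ) < s + M * n := by
    have h1 : N + M - s < M * ((N + M - s) / M + 1) := Nat.lt_mul_div_succ _ hM
    rw [← hn] at h1
    have h2 : N < s + M * n := by
      have h3 : M * (n + 1) = M * n + M := by ring
      omega
    exact_mod_cast h2
  have hTr : 7 / (r ^ 1) ≤ ((s : ℝ) + M * n) * r ∨ True := Or.inr trivial
  have hrX : √X * r = 1 / r := by
    rw [eq_div_iff hr0.ne', hsX, hr, mul_assoc, ← Real.rpow_add hX0, ← Real.rpow_add hX0]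
    norm_num
  have hT : 7 / r ≤ ((s : ℝ) + M * n) * r := by
    have h1 : 7 * √X * r ≤ ((s : ℝ) + M * n) * r :=
      mul_le_mul_of_nonneg_right (by linarith) hr0.le
    have h2 : 7 * √X * r = 7 / r := by rw [mul_assoc, hrX]; ring
    linarith
  have hT0 : 0 < ((s : ℝ) + M * n) * r := lt_of_lt_of_le (by positivity) hT
  have key := A1a_riemann (h := M * r) (s := s * r) (T := ((s : ℝ) + M * n) * r) (by positivity)
    (by positivity) (mul_le_mul_of_nonneg_right (by exact_mod_cast hs) hr0.le) n (by ring) hT0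
  have h8 : 8 / (((s : ℝ) + M * n) * r) ≤ 2 * r := by
    rw [div_le_iff₀ hT0]
    have h1 : 2 * r * (7 / r) ≤ 2 * r * (((s : ℝ) + M * n) * r) :=
      mul_le_mul_of_nonneg_left hT (by positivity)
    have h2 : 2 * r * (7 / r) = 14 := by field_simp; norm_num
    linarith
  have h9 : (M : ℝ) * r + M * r / 2 + 8 / (((s : ℝ) + M * n) * r) ≤ 4 * (M * r) := by
    have h1 : r ≤ M * r := by nlinarith
    linarith
  have e1 : ∑ k ∈ range n, L X ((s : ℝ) + M * k) =
      √X * ∑ k ∈ range n, A1a_l (s * r + M * r * k) := by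
    rw [Finset.mul_sum]
    apply Finset.sum_congr rfl
    intro k _
    rw [A1a_scale hX, ← hr]
    congr 2
    ring
  obtain ⟨S, hS⟩ : ∃ S : ℝ, S = ∑ k ∈ range n, A1a_l (s * r + M * r * k) := ⟨_, rfl⟩
  obtain ⟨I, hI⟩ : ∃ I : ℝ, I = ∫ t in Set.Ioi 0, A1a_l t := ⟨_, rfl⟩
  rw [e1, ← hS, ← hI]
  rw [← hS, ← hI] at key
  have e2 : √X * S - I / M * X ^ (3 / 4 : ℝ) = (√X / (M * r)) * (M * r * S - I) := by
    have e3 : X ^ (3 / 4 : ℝ) = √X / r := by rw [hsr]; field_simp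
    rw [e3]
    field_simp
  rw [e2, abs_mul, abs_of_pos (by positivity : 0 < √X / (M * r))]
  calc √X / (M * r) * |M * r * S - I| ≤ √X / (M * r) * (4 * (M * r)) :=
        mul_le_mul_of_nonneg_left (key.trans h9) (by positivity)
    _ = 4 * √X := by field_simp

/-- the residue class as a union of two progressions -/
theorem A1a_class {M N : ℕ} (hM : 0 < M) (α : ℤ) (F : ℤ → ℝ) : ∃ s : ℕ, s < M ∧
    ∑ a ∈ (Icc (-(N : ℤ)) N).filter (fun a : ℤ => a ≡ α [ZMOD M]), F a =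
      ∑ k ∈ range ((N + M - s) / M), F ((s : ℤ) + M * k) +
      ∑ k ∈ range ((N + M - (M - s)) / M), F (-(((M - s : ℕ) : ℤ) + M * k)) := by
  classical
  have hMz : (0 : ℤ) < M := by exact_mod_cast hM
  obtain ⟨s, hs⟩ : ∃ s : ℕ, α % M = (s : ℤ) :=
    Int.eq_ofNat_of_zero_le (Int.emod_nonneg α hMz.ne')
  have hsM : s < M := by
    have := Int.emod_lt_of_pos α hMz
    rw [hs] at this
    exact_mod_cast this
  refine ⟨s, hsM, ?_⟩
  have hmod : ∀ a : ℤ, a ≡ α [ZMOD M] ↔ ∃ j : ℤ, a = s + M * j := by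
    intro a
    constructor
    · intro h
      refine ⟨a / M, ?_⟩
      have h1 : a % M = (s : ℤ) := by
        have : a % M = α % M := h
        rw [this, hs]
      have h2 := Int.emod_add_mul_ediv a M
      rw [h1] at h2
      exact h2.symm
    · rintro ⟨j, rfl⟩
      have h1 : (α : ℤ) ≡ s [ZMOD M] := by
        rw [← hs]
        exact (Int.mod_modEq α M).symm
      refine Int.ModEq.trans ?_ h1.symm
      exact Int.modEq_iff_dvd.2 ⟨-j, by ring⟩
  have hset : (Icc (-(N : ℤ)) N).filter (fun a : ℤ => a ≡ α [ZMOD M]) =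
      ((range ((N + M - s) / M)).image fun k : ℕ => ((s : ℤ) + M * k)) ∪
      ((range ((N + M - (M - s)) / M)).image fun k : ℕ => (-(((M - s : ℕ) : ℤ) + M * k))) := by
    ext a
    simp only [Finset.mem_filter, Finset.mem_Icc, Finset.mem_union, Finset.mem_image,
      Finset.mem_range]
    rw [hmod]
    constructor
    · rintro ⟨⟨h1, h2⟩, j, rfl⟩
      rcases le_or_gt 0 j with hj | hj
      · left
        obtain ⟨k, rfl⟩ := Int.eq_ofNat_of_zero_le hj
        refine ⟨k, ?_, rfl⟩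
        rw [Nat.lt_iff_add_one_le, Nat.le_div_iff_mul_le hM]
        have h3 : s + M * k ≤ N := by exact_mod_cast h2
        have h4 : (k + 1) * M = M * k + M := by ring
        omega
      · right
        obtain ⟨k, hk⟩ := Int.eq_ofNat_of_zero_le (show (0 : ℤ) ≤ -j - 1 by omega)
        have hj' : j = -(k : ℤ) - 1 := by omega
        subst hj'
        refine ⟨k, ?_, ?_⟩
        · rw [Nat.lt_iff_add_one_le, Nat.le_div_iff_mul_le hM]
          have h3 : (M : ℤ) * (k + 1) ≤ N + s := by linarith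
          have h4 : M * (k + 1) ≤ N + s := by exact_mod_cast h3
          have h5 : (k + 1) * M = M * (k + 1) := by ring
          omega
        · push_cast [Nat.cast_sub hsM.le]
          ring
    · rintro (⟨k, hk, rfl⟩ | ⟨k, hk, rfl⟩)
      · rw [Nat.lt_iff_add_one_le, Nat.le_div_iff_mul_le hM] at hk
        have h4 : (k + 1) * M = M * k + M := by ring
        have h3 : s + M * k ≤ N := by omega
        have h5 : (s : ℤ) + M * k ≤ N := by exact_mod_cast h3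
        refine ⟨⟨?_, h5⟩, k, rfl⟩
        have h6 : (0 : ℤ) ≤ (s : ℤ) + M * k := by positivity
        have h7 : (0 : ℤ) ≤ (N : ℤ) := by positivity
        linarith
      · rw [Nat.lt_iff_add_one_le, Nat.le_div_iff_mul_le hM] at hk
        have h5 : (k + 1) * M = M * (k + 1) := by ring
        have h4 : M * (k + 1) ≤ N + s := by omega
        have h3 : (M : ℤ) * (k + 1) ≤ N + s := by exact_mod_cast h4
        have h6 : (((M - s : ℕ) : ℤ)) = M - s := by push_cast [Nat.cast_sub hsM.le]; ring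
        rw [h6]
        have h7 : (0 : ℤ) ≤ (N : ℤ) := by positivity
        have h8 : (0 : ℤ) ≤ (M : ℤ) * k := by positivity
        have h9 : (s : ℤ) < M := by exact_mod_cast hsM
        refine ⟨⟨by linarith, by linarith⟩, -(k : ℤ) - 1, by ring⟩
  rw [hset, Finset.sum_union, Finset.sum_image, Finset.sum_image]
  · intro x _ y _ hxy
    have h1 : (M : ℤ) * x = M * y := by
      have : (-((((M - s : ℕ) : ℤ)) + M * x)) = (-((((M - s : ℕ) : ℤ)) + M * y)) := hxy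
      linarith
    have := mul_left_cancel₀ hMz.ne' h1
    exact_mod_cast this
  · intro x _ y _ hxy
    have h1 : (M : ℤ) * x = M * y := by
      have : ((s : ℤ) + M * x) = (s + M * y) := hxy
      linarith
    have := mul_left_cancel₀ hMz.ne' h1
    exact_mod_cast this
  · rw [Finset.disjoint_left]
    intro a h1 h2
    simp only [Finset.mem_image, Finset.mem_range] at h1 h2
    obtain ⟨k, _, rfl⟩ := h1
    obtain ⟨j, _, hj⟩ := h2
    have h6 : (((M - s : ℕ) : ℤ)) = M - s := by push_cast [Nat.cast_sub hsM.le]; ring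
    rw [h6] at hj
    have h7 : (0 : ℤ) ≤ (M : ℤ) * k := by positivity
    have h8 : (0 : ℤ) ≤ (M : ℤ) * j := by positivity
    have h9 : (s : ℤ) < M := by exact_mod_cast hsM
    have h10 : (0 : ℤ) ≤ (s : ℤ) := by positivity
    linarith

theorem sum_L : ∃ A : ℝ, ∀ M : ℕ, 0 < M → ∃ C : ℝ, 0 < C ∧ ∀ (α : ℤ) (X : ℝ), 1 ≤ X →
    |∑ a ∈ (Icc (-⌊√(65 * X)⌋) ⌊√(65 * X)⌋).filter (fun a : ℤ => a ≡ α [ZMOD M]), L X (a : ℝ) -
      A / M * X ^ (3 / 4 : ℝ)| ≤ C * X ^ (1 / 2 : ℝ) := by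
  refine ⟨2 * ∫ t in Set.Ioi 0, A1a_l t, fun M hM => ⟨8, by norm_num, fun α X hX => ?_⟩⟩
  obtain ⟨N, hN⟩ : ∃ N : ℕ, ⌊√(65 * X)⌋ = (N : ℤ) :=
    Int.eq_ofNat_of_zero_le (Int.floor_nonneg.2 (Real.sqrt_nonneg _))
  have hN1 : √(65 * X) < N + 1 := by
    have := Int.lt_floor_add_one (√(65 * X))
    rw [hN] at this
    exact_mod_cast this
  rw [hN]
  obtain ⟨s, hs, hsum⟩ := A1a_class (N := N) hM α (fun a => L X (a : ℝ))
  rw [hsum]
  have h1 := A1a_side hX hM hs.le hN1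
  have h2 := A1a_side hX hM (s := M - s) (Nat.sub_le _ _) hN1
  have e1 : ∑ k ∈ range ((N + M - s) / M), L X ((((s : ℤ) + M * k : ℤ)) : ℝ) =
      ∑ k ∈ range ((N + M - s) / M), L X ((s : ℝ) + M * k) := by
    apply Finset.sum_congr rfl
    intro k _
    push_cast
    rfl
  have e2 : ∑ k ∈ range ((N + M - (M - s)) / M), L X (((-(((M - s : ℕ) : ℤ) + M * k) : ℤ)) : ℝ) =
      ∑ k ∈ range ((N + M - (M - s)) / M), L X (((M - s : ℕ) : ℝ) + M * k) := by
    apply Finset.sum_congr rfl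
    intro k _
    have : (((-(((M - s : ℕ) : ℤ) + M * k) : ℤ)) : ℝ) = -(((M - s : ℕ) : ℝ) + M * k) := by
      push_cast
      ring
    rw [this, L, L]
    congr 3
    · ring
    · ring_nf
  rw [e1, e2]
  rw [← Real.sqrt_eq_rpow]
  obtain ⟨I, hI⟩ : ∃ I : ℝ, I = ∫ t in Set.Ioi 0, A1a_l t := ⟨_, rfl⟩
  rw [← hI] at h1 h2 ⊢
  have e3 : 2 * I / M * X ^ (3 / 4 : ℝ) = I / M * X ^ (3 / 4 : ℝ) + I / M * X ^ (3 / 4 : ℝ) := by
    ring
  rw [e3]
  rw [abs_le] at h1 h2 ⊢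
  constructor <;> linarith [h1.1, h1.2, h2.1, h2.2]

end As

end Pool.Agent.Lib.MP_d8bd92_nt
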