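import Pool.Agent.Lib.MP_d8bd92_nt.As.Defs

set_option autoImplicit false

/-!
ROW as-A1b. For fixed `a`: the `b` in a residue class with `0 < |b (a² - 64 b)| ≤ X`.

PROOF. U = √(a⁴+256X), V = √(max(a⁴-256X) 0). |b(a²-64b)| <= X iff 64b²-a²b-X <= 0 and 64b²-a²b+X >= 0 iff
r1 <= b <= r2 and (b <= s1 or b >= s2), r1 = (a²-U)/128, r2 = (a²+U)/128, s1 = (a²-V)/128, s2 = (a²+V)/128
(if a⁴ < 256X the second inequality is always true and V = 0, s1 = s2; the union [r1,s1] ∪ [s2,r2] is [r1,r2]).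
Total length (s1-r1)+(r2-s2) = (U-V)/64 = L X a. The number of integers in the class in [u,v] (u <= v) is (v-u)/M + θ, |θ| <= 1
(Mathlib: `Int.Ioc_filter_modEq_card`, or write b = β + M k, k in [(u-β)/M,(v-β)/M]: floor - ceil + 1).
At most one b is in both intervals; b = 0 and 64 b = a² are excluded: at most two. Error <= 5.
-/

namespace Pool.Agent.Lib.MP_d8bd92_nt

namespace As

open Finset Filter Topology Pool.Agent.Lib.Szpiro

/-- the integers of a residue class in a real interval -/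
theorem A1b_interval (M : ℕ) (hM : 0 < M) (β : ℤ) (u v : ℝ) (huv : u ≤ v) :
    {b : ℤ | (u ≤ (b : ℝ) ∧ (b : ℝ) ≤ v) ∧ b ≡ β [ZMOD M]}.Finite ∧
      |(({b : ℤ | (u ≤ (b : ℝ) ∧ (b : ℝ) ≤ v) ∧ b ≡ β [ZMOD M]}.ncard : ℕ) : ℝ) - (v - u) / M| ≤ 1 := by
  have hM' : (0 : ℝ) < M := by exact_mod_cast hM
  have e : {b : ℤ | (u ≤ (b : ℝ) ∧ (b : ℝ) ≤ v) ∧ b ≡ β [ZMOD M]} =
      (fun k : ℤ => β + M * k) '' ((Finset.Icc ⌈(u - β) / M⌉ ⌊(v - β) / M⌋ : Finset ℤ) : Set ℤ) := by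
    ext b
    simp only [Set.mem_ofPred_eq, Set.mem_image, Finset.coe_Icc, Set.mem_Icc]
    constructor
    · rintro ⟨⟨h1, h2⟩, h3⟩
      obtain ⟨k, hk⟩ := h3.symm.dvd
      have hb : b = β + M * k := by linarith
      refine ⟨k, ⟨?_, ?_⟩, hb.symm⟩
      · rw [Int.ceil_le, div_le_iff₀ hM']
        rw [hb] at h1
        push_cast at h1
        linarith
      · rw [Int.le_floor, le_div_iff₀ hM']
        rw [hb] at h2
        push_cast at h2
        linarith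
    · rintro ⟨k, ⟨h1, h2⟩, rfl⟩
      rw [Int.ceil_le, div_le_iff₀ hM'] at h1
      rw [Int.le_floor, le_div_iff₀ hM'] at h2
      push_cast
      refine ⟨⟨by linarith, by linarith⟩, ?_⟩
      exact (Int.modEq_iff_dvd.2 ⟨k, by ring⟩ : β ≡ β + M * k [ZMOD M]).symm
  have hinj : Function.Injective (fun k : ℤ => β + M * k) := by
    intro k l h
    have h1 : (M : ℤ) * k = M * l := by simpa using h
    exact mul_left_cancel₀ (by exact_mod_cast hM.ne') h1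
  constructor
  · rw [e]
    exact (Finset.finite_toSet _).image _
  · rw [e, Set.ncard_image_of_injective _ hinj, Set.ncard_coe_finset, Int.card_Icc]
    have h1 : (u - β) / M ≤ (v - β) / M := by gcongr
    have h2 := Int.ceil_lt_add_one ((u - β) / (M : ℝ))
    have h3 := Int.lt_floor_add_one ((v - β) / (M : ℝ))
    have h4 := Int.le_ceil ((u - β) / (M : ℝ))
    have h5 := Int.floor_le ((v - β) / (M : ℝ))
    set c := ⌈(u - β) / (M : ℝ)⌉ with hc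
    set f := ⌊(v - β) / (M : ℝ)⌋ with hf
    have h6 : 0 ≤ f + 1 - c := by
      have : (c : ℝ) < f + 2 := by linarith
      have h7 : c < f + 2 := by exact_mod_cast this
      omega
    have h7 : (((f + 1 - c).toNat : ℕ) : ℝ) = ((f + 1 - c : ℤ) : ℝ) := by
      have := Int.toNat_of_nonneg h6
      exact_mod_cast this
    have h8 : (v - u) / M = (v - β) / M - (u - β) / M := by ring
    rw [h7, h8, abs_le]
    push_cast
    constructor <;> linarith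

/-- `|b (a ^ 2 - 64 b)| ≤ X` -/
theorem A1b_cond (A b X : ℝ) (hX : 0 ≤ X) : |b * (A ^ 2 - 64 * b)| ≤ X ↔
    √(max (A ^ 4 - 256 * X) 0) ≤ |128 * b - A ^ 2| ∧ |128 * b - A ^ 2| ≤ √(A ^ 4 + 256 * X) := by
  have h0 : 0 ≤ A ^ 4 + 256 * X := by positivity
  rw [Real.sqrt_le_iff, Real.le_sqrt (abs_nonneg _) h0, sq_abs, abs_le]
  constructor
  · rintro ⟨h1, h2⟩
    refine ⟨⟨abs_nonneg _, max_le ?_ (sq_nonneg _)⟩, ?_⟩
    · nlinarith
    · nlinarith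
  · rintro ⟨⟨-, h1⟩, h2⟩
    have h3 := (le_max_left _ _).trans h1
    constructor
    · nlinarith
    · nlinarith

theorem fiber_count (M : ℕ) (hM : 0 < M) (a β : ℤ) (X : ℝ) (hX : 0 ≤ X) :
    |(({b : ℤ | (a, b) ∈ Rg X ∧ b ≡ β [ZMOD M]}.ncard : ℕ) : ℝ) - L X (a : ℝ) / M| ≤ 8 := by
  have hM' : (0 : ℝ) < M := by exact_mod_cast hM
  set A : ℝ := (a : ℝ) with hA
  set U : ℝ := √(A ^ 4 + 256 * X) with hU
  set V : ℝ := √(max (A ^ 4 - 256 * X) 0) with hV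
  have hV0 : 0 ≤ V := Real.sqrt_nonneg _
  have hVU : V ≤ U := by
    apply Real.sqrt_le_sqrt
    refine max_le (by linarith) ?_
    positivity
  set T : Set ℤ := {b : ℤ | (a, b) ∈ Rg X ∧ b ≡ β [ZMOD M]} with hT
  obtain ⟨f1, c1⟩ := A1b_interval M hM β ((A ^ 2 - U) / 128) ((A ^ 2 - V) / 128) (by linarith)
  obtain ⟨f2, c2⟩ := A1b_interval M hM β ((A ^ 2 + V) / 128) ((A ^ 2 + U) / 128) (by linarith)
  set T1 : Set ℤ := {b : ℤ | ((A ^ 2 - U) / 128 ≤ (b : ℝ) ∧ (b : ℝ) ≤ (A ^ 2 - V) / 128) ∧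
    b ≡ β [ZMOD M]} with hT1
  set T2 : Set ℤ := {b : ℤ | ((A ^ 2 + V) / 128 ≤ (b : ℝ) ∧ (b : ℝ) ≤ (A ^ 2 + U) / 128) ∧
    b ≡ β [ZMOD M]} with hT2
  -- the region
  have hnn : ∀ b : ℤ, ((nn (a, b) : ℕ) : ℝ) = |(b : ℝ) * (A ^ 2 - 64 * b)| := by
    intro b
    rw [nn, cc, Nat.cast_natAbs, Int.cast_abs]
    push_cast
    rfl
  have hcond : ∀ b : ℤ, ((nn (a, b) : ℕ) : ℝ) ≤ X ↔
      ((A ^ 2 - U) / 128 ≤ (b : ℝ) ∧ (b : ℝ) ≤ (A ^ 2 - V) / 128) ∨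
        ((A ^ 2 + V) / 128 ≤ (b : ℝ) ∧ (b : ℝ) ≤ (A ^ 2 + U) / 128) := by
    intro b
    rw [hnn, A1b_cond A b X hX, ← hU, ← hV, abs_le, le_abs]
    constructor
    · rintro ⟨h1 | h1, h2, h3⟩
      · right
        constructor <;> linarith
      · left
        constructor <;> linarith
    · rintro (⟨h1, h2⟩ | ⟨h1, h2⟩)
      · exact ⟨Or.inr (by linarith), by linarith, by linarith⟩
      · exact ⟨Or.inl (by linarith), by linarith, by linarith⟩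
  have hsub1 : T ⊆ T1 ∪ T2 := by
    rintro b ⟨⟨-, -, hb⟩, hb'⟩
    rcases (hcond b).1 hb with h | h
    · exact Or.inl ⟨h, hb'⟩
    · exact Or.inr ⟨h, hb'⟩
  have hsub2 : T1 ∪ T2 ⊆ T ∪ {0, a ^ 2 / 64} := by
    intro b hb
    have h1 : ((nn (a, b) : ℕ) : ℝ) ≤ X ∧ b ≡ β [ZMOD M] := by
      rcases hb with h | h
      · exact ⟨(hcond b).2 (Or.inl h.1), h.2⟩
      · exact ⟨(hcond b).2 (Or.inr h.1), h.2⟩
    by_cases h0 : b = 0
    · exact Or.inr (Or.inl h0)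
    by_cases h2 : cc (a, b) = 0
    · right
      right
      rw [Set.mem_singleton_iff]
      have h3 : a ^ 2 - 64 * b = 0 := h2
      omega
    · exact Or.inl ⟨⟨h0, h2, h1.1⟩, h1.2⟩
  have hfin : (T1 ∪ T2).Finite := f1.union f2
  have hTfin : T.Finite := hfin.subset hsub1
  have k1 : T.ncard ≤ (T1 ∪ T2).ncard := Set.ncard_le_ncard hsub1 hfin
  have k2 : (T1 ∪ T2).ncard ≤ T.ncard + 2 := by
    have h1 : (T1 ∪ T2).ncard ≤ (T ∪ {0, a ^ 2 / 64}).ncard :=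
      Set.ncard_le_ncard hsub2 (hTfin.union (Set.toFinite _))
    have h2 := Set.ncard_union_le T ({0, a ^ 2 / 64} : Set ℤ)
    have h3 : ({0, a ^ 2 / 64} : Set ℤ).ncard ≤ 2 := by
      have h4 := Set.ncard_insert_le (0 : ℤ) ({a ^ 2 / 64} : Set ℤ)
      rw [Set.ncard_singleton] at h4
      exact h4
    omega
  have k3 : (T1 ∪ T2).ncard + (T1 ∩ T2).ncard = T1.ncard + T2.ncard :=
    Set.ncard_union_add_ncard_inter T1 T2 f1 f2
  have k4 : (T1 ∩ T2).ncard ≤ 1 := by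
    rw [Set.ncard_le_one (f1.inter_of_left _)]
    rintro b ⟨⟨⟨-, hb1⟩, -⟩, ⟨⟨hb2, -⟩, -⟩⟩ c ⟨⟨⟨-, hc1⟩, -⟩, ⟨⟨hc2, -⟩, -⟩⟩
    have h1 : (b : ℝ) = c := by
      apply le_antisymm <;> linarith
    exact_mod_cast h1
  have hL : L X A / M = ((A ^ 2 - V) / 128 - (A ^ 2 - U) / 128) / M +
      ((A ^ 2 + U) / 128 - (A ^ 2 + V) / 128) / M := by
    unfold L
    rw [← hU, ← hV]
    ring
  rw [hL]
  have q1 : (T.ncard : ℝ) ≤ (T1.ncard : ℝ) + T2.ncard := by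
    have : T.ncard ≤ T1.ncard + T2.ncard := by omega
    exact_mod_cast this
  have q2 : (T1.ncard : ℝ) + T2.ncard ≤ (T.ncard : ℝ) + 3 := by
    have : T1.ncard + T2.ncard ≤ T.ncard + 3 := by omega
    exact_mod_cast this
  rw [abs_le] at c1 c2 ⊢
  constructor <;> linarith [c1.1, c1.2, c2.1, c2.2]

end As

end Pool.Agent.Lib.MP_d8bd92_nt
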