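import Pool.Agent.Lib.MP_d8bd92_nt.As.A1a
import Pool.Agent.Lib.MP_d8bd92_nt.As.A1b

set_option autoImplicit false

/-!
ROW as-A1c. Lattice points of the region in a residue class, in a periodic set, and an upper bound with two divisors.

PROOF of class_count: sum `fiber_count` over the a = α mod M with |a| <= √(65X) (`Rg_bound`; at most 2√(65X)+1 of them) and use `sum_L`.
periodic_limit: Ω ∩ Rg X is the disjoint union over the classes (α,β) in [0,M)² with (α,β) in Ω.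
upper_div: fix a, |a| <= √(65X). If s1 | b and s2 | a² - 64 b then b is in one class mod s1 s2 (s2 odd, s1 and s2 coprime;
`Int` Chinese remainder: `Nat.chineseRemainder` or Bezout), or there is no b; `fiber_count` with M = s1 s2 gives
<= L X a/(s1 s2) + 8; sum over a with `sum_L` (M = 1): <= C X^(3/4)/(s1 s2) + C X^(1/2).
-/

namespace Pool.Agent.Lib.MP_d8bd92_nt

namespace As

open Finset Filter Topology Pool.Agent.Lib.Szpiro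

theorem A1c_ncard_fiber {ι κ : Type} [DecidableEq κ] (S : Set ι) (hS : S.Finite) (f : ι → κ) (t : Finset κ)
    (h : ∀ w ∈ S, f w ∈ t) : S.ncard = ∑ b ∈ t, {w | w ∈ S ∧ f w = b}.ncard := by
  classical
  rw [Set.ncard_eq_toFinset_card S hS,
    Finset.card_eq_sum_card_fiberwise (f := f) (t := t) (fun x hx => h x (by simpa using hx))]
  refine Finset.sum_congr rfl fun b _ => ?_
  have h1 : {w | w ∈ S ∧ f w = b} = ((hS.toFinset.filter (fun w => f w = b) : Finset ι) : Set ι) := by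
    ext w
    simp
  rw [h1, Set.ncard_coe_finset]

theorem A1c_ncard_row (S : Set (ℤ × ℤ)) (a : ℤ) : {w | w ∈ S ∧ w.1 = a}.ncard = {b : ℤ | (a, b) ∈ S}.ncard := by
  have h1 : {w | w ∈ S ∧ w.1 = a} = (fun b : ℤ => (a, b)) '' {b : ℤ | (a, b) ∈ S} := by
    ext ⟨x, y⟩
    simp only [Set.mem_ofPred_eq, Set.mem_image, Prod.mk.injEq]
    constructor
    · rintro ⟨h1, rfl⟩
      exact ⟨y, h1, rfl, rfl⟩
    · rintro ⟨b, hb, rfl, rfl⟩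
      exact ⟨hb, rfl⟩
  rw [h1]
  exact Set.ncard_image_of_injective _ (fun x y hxy => (Prod.mk.inj hxy).2)

theorem A1c_mem_Icc {X : ℝ} {w : ℤ × ℤ} (hw : w ∈ Rg X) : w.1 ∈ Icc (-⌊√(65 * X)⌋) ⌊√(65 * X)⌋ := by
  have h1 := (Rg_bound X w hw).2.2
  have h2 : |(w.1 : ℝ)| ≤ √(65 * X) := Real.abs_le_sqrt h1
  rw [Finset.mem_Icc]
  rw [abs_le] at h2
  constructor
  · have h3 : -w.1 ≤ ⌊√(65 * X)⌋ := by
      rw [Int.le_floor]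
      push_cast
      linarith [h2.1]
    omega
  · rw [Int.le_floor]
    exact h2.2

theorem A1c_sqrt_le {X : ℝ} (hX : 1 ≤ X) : √(65 * X) ≤ 8.5 * X ^ (1 / 2 : ℝ) := by
  rw [← Real.sqrt_eq_rpow]
  have h0 : (0 : ℝ) ≤ X := by linarith
  apply Real.sqrt_le_iff.2
  refine ⟨by positivity, ?_⟩
  rw [mul_pow, Real.sq_sqrt h0]
  nlinarith

theorem A1c_card_Icc {X : ℝ} (hX : 1 ≤ X) :
    (((Icc (-⌊√(65 * X)⌋) ⌊√(65 * X)⌋).card : ℕ) : ℝ) ≤ 18 * X ^ (1 / 2 : ℝ) := by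
  rw [Int.card_Icc]
  have h0 : 0 ≤ ⌊√(65 * X)⌋ := Int.floor_nonneg.2 (Real.sqrt_nonneg _)
  have h1 : (((⌊√(65 * X)⌋ + 1 - -⌊√(65 * X)⌋).toNat : ℕ) : ℝ) = 2 * (⌊√(65 * X)⌋ : ℝ) + 1 := by
    have h2 : (((⌊√(65 * X)⌋ + 1 - -⌊√(65 * X)⌋).toNat : ℕ) : ℤ) = 2 * ⌊√(65 * X)⌋ + 1 := by
      rw [Int.toNat_of_nonneg (by omega)]
      ring
    have h3 : ((((⌊√(65 * X)⌋ + 1 - -⌊√(65 * X)⌋).toNat : ℕ) : ℤ) : ℝ) = ((2 * ⌊√(65 * X)⌋ + 1 : ℤ) : ℝ) :=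
      congrArg _ h2
    rw [Int.cast_natCast] at h3
    rw [h3]
    push_cast
    ring
  rw [h1]
  have h2 : (⌊√(65 * X)⌋ : ℝ) ≤ √(65 * X) := Int.floor_le _
  have h3 := A1c_sqrt_le hX
  have h4 : (1 : ℝ) ≤ X ^ (1 / 2 : ℝ) := Real.one_le_rpow hX (by norm_num)
  linarith

theorem A1c_L_nonneg {X : ℝ} (hX : 0 ≤ X) (a : ℝ) : 0 ≤ L X a := by
  unfold L
  apply div_nonneg _ (by norm_num)
  rw [sub_nonneg]
  apply Real.sqrt_le_sqrt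
  apply max_le
  · linarith
  · positivity

theorem A1c_rpow_div {X : ℝ} (hX : 1 ≤ X) : X ^ (1 / 2 : ℝ) / X ^ (3 / 4 : ℝ) = X ^ (-(1 / 4) : ℝ) := by
  rw [← Real.rpow_sub (by linarith)]
  norm_num

theorem class_count : ∃ A : ℝ, ∀ M : ℕ, 0 < M → ∃ C : ℝ, 0 < C ∧ ∀ (α β : ℤ) (X : ℝ), 1 ≤ X →
    |(({w ∈ Rg X | w.1 ≡ α [ZMOD M] ∧ w.2 ≡ β [ZMOD M]}.ncard : ℕ) : ℝ) -
      A / (M : ℝ) ^ 2 * X ^ (3 / 4 : ℝ)| ≤ C * X ^ (1 / 2 : ℝ) := by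
  obtain ⟨A, hA⟩ := sum_L
  refine ⟨A, fun M hM => ?_⟩
  obtain ⟨C, hC, hC'⟩ := hA M hM
  refine ⟨144 + C, by linarith, fun α β X hX => ?_⟩
  have hM1 : (1 : ℝ) ≤ M := by exact_mod_cast hM
  have hM0 : (0 : ℝ) < M := by linarith
  have hX0 : (0 : ℝ) ≤ X := by linarith
  obtain ⟨I, hI⟩ : ∃ I, I = (Icc (-⌊√(65 * X)⌋) ⌊√(65 * X)⌋).filter (fun a : ℤ => a ≡ α [ZMOD M]) := ⟨_, rfl⟩
  obtain ⟨S, hS⟩ : ∃ S, S = {w ∈ Rg X | w.1 ≡ α [ZMOD M] ∧ w.2 ≡ β [ZMOD M]} := ⟨_, rfl⟩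
  have hSf : S.Finite := by
    rw [hS]
    exact (Rg_finite X).subset fun w hw => hw.1
  have hSI : ∀ w ∈ S, w.1 ∈ I := by
    intro w hw
    rw [hS] at hw
    rw [hI, Finset.mem_filter]
    exact ⟨A1c_mem_Icc hw.1, hw.2.1⟩
  have hsum : ((S.ncard : ℕ) : ℝ) =
      ∑ a ∈ I, (({b : ℤ | (a, b) ∈ Rg X ∧ b ≡ β [ZMOD M]}.ncard : ℕ) : ℝ) := by
    rw [A1c_ncard_fiber S hSf Prod.fst I hSI, Nat.cast_sum]
    refine Finset.sum_congr rfl fun a ha => ?_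
    rw [A1c_ncard_row]
    have ha' : a ≡ α [ZMOD M] := by
      rw [hI, Finset.mem_filter] at ha
      exact ha.2
    congr 2
    ext b
    rw [hS]
    simp only [Set.mem_ofPred_eq]
    exact ⟨fun h => ⟨h.1, h.2.2⟩, fun h => ⟨h.1, ha', h.2⟩⟩
  have h1 := hC' α X hX
  rw [← hI] at h1
  rw [← hS, hsum]
  have h2 : |∑ a ∈ I, ((({b : ℤ | (a, b) ∈ Rg X ∧ b ≡ β [ZMOD M]}.ncard : ℕ) : ℝ) - L X (a : ℝ) / M)| ≤
      144 * X ^ (1 / 2 : ℝ) := by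
    refine (Finset.abs_sum_le_sum_abs _ _).trans ?_
    refine (Finset.sum_le_sum fun a _ => fiber_count M hM a β X hX0).trans ?_
    rw [Finset.sum_const, nsmul_eq_mul]
    have h3 : ((I.card : ℕ) : ℝ) ≤ 18 * X ^ (1 / 2 : ℝ) := by
      refine le_trans ?_ (A1c_card_Icc hX)
      rw [hI]
      exact_mod_cast Finset.card_filter_le _ _
    linarith
  have h3 : ∑ a ∈ I, (({b : ℤ | (a, b) ∈ Rg X ∧ b ≡ β [ZMOD M]}.ncard : ℕ) : ℝ) - A / (M : ℝ) ^ 2 * X ^ (3 / 4 : ℝ) =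
      ∑ a ∈ I, ((({b : ℤ | (a, b) ∈ Rg X ∧ b ≡ β [ZMOD M]}.ncard : ℕ) : ℝ) - L X (a : ℝ) / M) +
        (∑ a ∈ I, L X (a : ℝ) - A / M * X ^ (3 / 4 : ℝ)) / M := by
    rw [Finset.sum_sub_distrib, ← Finset.sum_div]
    field_simp
    ring
  rw [h3]
  refine (abs_add_le _ _).trans ?_
  rw [add_mul]
  refine add_le_add h2 ?_
  rw [abs_div, abs_of_pos hM0]
  exact (div_le_self (abs_nonneg _) hM1).trans h1

theorem periodic_limit (M : ℕ) (hM : 0 < M) (Ω : Set (ℤ × ℤ))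
    (hΩ : ∀ w v : ℤ × ℤ, w.1 ≡ v.1 [ZMOD M] → w.2 ≡ v.2 [ZMOD M] → w ∈ Ω → v ∈ Ω) :
    ∃ r : ℝ, Tendsto (fun X : ℝ => (((Rg X ∩ Ω).ncard : ℕ) : ℝ) / X ^ (3 / 4 : ℝ)) atTop (𝓝 r) := by
  classical
  obtain ⟨A, hA⟩ := class_count
  obtain ⟨C, hC, hC'⟩ := hA M hM
  obtain ⟨t, ht⟩ : ∃ t, t = ((Finset.Ico (0 : ℤ) M) ×ˢ (Finset.Ico (0 : ℤ) M)).filter (fun w => w ∈ Ω) := ⟨_, rfl⟩
  have hM' : (0 : ℤ) < M := by exact_mod_cast hM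
  have hsum : ∀ X : ℝ, (((Rg X ∩ Ω).ncard : ℕ) : ℝ) =
      ∑ v ∈ t, (({w ∈ Rg X | w.1 ≡ v.1 [ZMOD M] ∧ w.2 ≡ v.2 [ZMOD M]}.ncard : ℕ) : ℝ) := by
    intro X
    have h1 : (Rg X ∩ Ω).Finite := (Rg_finite X).subset fun w hw => hw.1
    have h2 : ∀ w ∈ Rg X ∩ Ω, (w.1 % (M : ℤ), w.2 % (M : ℤ)) ∈ t := by
      intro w hw
      rw [ht, Finset.mem_filter, Finset.mem_product, Finset.mem_Ico, Finset.mem_Ico]
      refine ⟨⟨⟨Int.emod_nonneg _ hM'.ne', Int.emod_lt_of_pos _ hM'⟩, ⟨Int.emod_nonneg _ hM'.ne', Int.emod_lt_of_pos _ hM'⟩⟩, ?_⟩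
      exact hΩ w _ (Int.mod_modEq _ _).symm (Int.mod_modEq _ _).symm hw.2
    rw [A1c_ncard_fiber (Rg X ∩ Ω) h1 (fun w => (w.1 % (M : ℤ), w.2 % (M : ℤ))) t h2, Nat.cast_sum]
    refine Finset.sum_congr rfl fun v hv => ?_
    congr 2
    ext w
    rw [ht, Finset.mem_filter, Finset.mem_product, Finset.mem_Ico, Finset.mem_Ico] at hv
    simp only [Set.mem_ofPred_eq, Set.mem_inter_iff]
    constructor
    · rintro ⟨⟨h3, h4⟩, h5⟩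
      rw [← h5]
      exact ⟨h3, (Int.mod_modEq _ _).symm, (Int.mod_modEq _ _).symm⟩
    · rintro ⟨h3, h4, h5⟩
      refine ⟨⟨h3, hΩ v w h4.symm h5.symm hv.2⟩, ?_⟩
      have e1 : w.1 % (M : ℤ) = v.1 := by
        rw [h4]
        exact Int.emod_eq_of_lt hv.1.1.1 hv.1.1.2
      have e2 : w.2 % (M : ℤ) = v.2 := by
        rw [h5]
        exact Int.emod_eq_of_lt hv.1.2.1 hv.1.2.2
      rw [e1, e2]
  refine ⟨∑ v ∈ t, A / (M : ℝ) ^ 2, ?_⟩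
  have h1 : (fun X : ℝ => (((Rg X ∩ Ω).ncard : ℕ) : ℝ) / X ^ (3 / 4 : ℝ)) = fun X : ℝ =>
      ∑ v ∈ t, (({w ∈ Rg X | w.1 ≡ v.1 [ZMOD M] ∧ w.2 ≡ v.2 [ZMOD M]}.ncard : ℕ) : ℝ) / X ^ (3 / 4 : ℝ) := by
    funext X
    rw [hsum, Finset.sum_div]
  rw [h1]
  refine tendsto_finsetSum t fun v _ => ?_
  rw [tendsto_iff_dist_tendsto_zero]
  have h2 : Tendsto (fun X : ℝ => C * X ^ (-(1 / 4) : ℝ)) atTop (𝓝 0) := by
    have h3 := (tendsto_rpow_neg_atTop (show (0 : ℝ) < 1 / 4 by norm_num)).const_mul C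
    rwa [mul_zero] at h3
  refine squeeze_zero' (Filter.Eventually.of_forall fun X => dist_nonneg) ?_ h2
  filter_upwards [eventually_ge_atTop (1 : ℝ)] with X hX
  have hX0 : (0 : ℝ) < X := by linarith
  have hp : 0 < X ^ (3 / 4 : ℝ) := Real.rpow_pos_of_pos hX0 _
  have h3 := hC' v.1 v.2 X hX
  rw [Real.dist_eq, ← A1c_rpow_div hX, ← mul_div_assoc, le_div_iff₀ hp, ← abs_of_pos hp, ← abs_mul, sub_mul,
    abs_of_pos hp, div_mul_cancel₀ _ hp.ne']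
  exact h3

theorem upper_div : ∃ C : ℝ, 0 < C ∧ ∀ (s1 s2 : ℕ) (X : ℝ), 1 ≤ X → 0 < s1 → 0 < s2 → Nat.Coprime s1 s2 →
    Odd s2 → (({w ∈ Rg X | (s1 : ℤ) ∣ w.2 ∧ (s2 : ℤ) ∣ cc w}.ncard : ℕ) : ℝ) ≤
      C * (X ^ (3 / 4 : ℝ) / (s1 * s2 : ℝ) + X ^ (1 / 2 : ℝ)) := by
  obtain ⟨A, hA⟩ := sum_L
  obtain ⟨C, hC, hC'⟩ := hA 1 one_pos
  refine ⟨|A| + C + 144, by positivity, fun s1 s2 X hX h1 h2 hco hodd => ?_⟩
  have hX0 : (0 : ℝ) ≤ X := by linarith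
  obtain ⟨I, hI⟩ : ∃ I, I = Icc (-⌊√(65 * X)⌋) ⌊√(65 * X)⌋ := ⟨_, rfl⟩
  obtain ⟨S, hS⟩ : ∃ S, S = {w ∈ Rg X | (s1 : ℤ) ∣ w.2 ∧ (s2 : ℤ) ∣ cc w} := ⟨_, rfl⟩
  have hSf : S.Finite := by
    rw [hS]
    exact (Rg_finite X).subset fun w hw => hw.1
  have hSI : ∀ w ∈ S, w.1 ∈ I := by
    intro w hw
    rw [hS] at hw
    rw [hI]
    exact A1c_mem_Icc hw.1
  have hs : 0 < s1 * s2 := Nat.mul_pos h1 h2
  have hs1 : (1 : ℝ) ≤ ((s1 * s2 : ℕ) : ℝ) := by exact_mod_cast hs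
  have hs0 : (0 : ℝ) < ((s1 * s2 : ℕ) : ℝ) := by linarith
  have hfib : ∀ a ∈ I, ((({w | w ∈ S ∧ w.1 = a}.ncard : ℕ)) : ℝ) ≤ L X (a : ℝ) / ((s1 * s2 : ℕ) : ℝ) + 8 := by
    intro a _
    rw [A1c_ncard_row]
    rcases Set.eq_empty_or_nonempty {b : ℤ | (a, b) ∈ S} with h3 | ⟨β, hβ⟩
    · rw [h3, Set.ncard_empty, Nat.cast_zero]
      have h4 : 0 ≤ L X (a : ℝ) / ((s1 * s2 : ℕ) : ℝ) := div_nonneg (A1c_L_nonneg hX0 _) hs0.le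
      linarith
    · have h4 : {b : ℤ | (a, b) ∈ S} ⊆ {b : ℤ | (a, b) ∈ Rg X ∧ b ≡ β [ZMOD ((s1 * s2 : ℕ) : ℤ)]} := by
        intro b hb
        rw [Set.mem_ofPred_eq, hS] at hb hβ
        refine ⟨hb.1, ?_⟩
        have e1 : (s1 : ℤ) ∣ β - b := dvd_sub hβ.2.1 hb.2.1
        have e2 : (s2 : ℤ) ∣ β - b := by
          have e3 : (s2 : ℤ) ∣ 64 * (β - b) := by
            have e4 := dvd_sub hb.2.2 hβ.2.2
            have e5 : cc (a, b) - cc (a, β) = 64 * (β - b) := by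
              unfold cc
              ring
            rwa [e5] at e4
          have e6 : IsCoprime (s2 : ℤ) 64 := by
            have e7 : Nat.Coprime s2 64 := by
              have e8 : Nat.Coprime s2 (2 ^ 6) := (Nat.Coprime.pow_right 6 (Nat.coprime_two_right.2 hodd))
              exact e8
            exact_mod_cast Nat.isCoprime_iff_coprime.2 e7
          exact e6.dvd_of_dvd_mul_left e3
        have e4 : IsCoprime (s1 : ℤ) (s2 : ℤ) := Nat.isCoprime_iff_coprime.2 hco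
        rw [Int.modEq_iff_dvd]
        push_cast
        exact e4.mul_dvd e1 e2
      have h5 : {b : ℤ | (a, b) ∈ Rg X ∧ b ≡ β [ZMOD ((s1 * s2 : ℕ) : ℤ)]}.Finite := by
        have h6 : {b : ℤ | (a, b) ∈ Rg X}.Finite :=
          (Rg_finite X).preimage (fun x _ y _ hxy => (Prod.mk.inj hxy).2)
        exact h6.subset fun b hb => hb.1
      have h6 := fiber_count (s1 * s2) hs a β X hX0
      have h7 : (({b : ℤ | (a, b) ∈ S}.ncard : ℕ) : ℝ) ≤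
          (({b : ℤ | (a, b) ∈ Rg X ∧ b ≡ β [ZMOD ((s1 * s2 : ℕ) : ℤ)]}.ncard : ℕ) : ℝ) := by
        exact_mod_cast Set.ncard_le_ncard h4 h5
      linarith [(abs_le.1 h6).2]
  have h3 := hC' 0 X hX
  have h4 : (Icc (-⌊√(65 * X)⌋) ⌊√(65 * X)⌋).filter (fun a : ℤ => a ≡ 0 [ZMOD ((1 : ℕ) : ℤ)]) = I := by
    rw [hI]
    refine Finset.filter_true_of_mem fun a _ => ?_
    rw [Nat.cast_one]
    exact Int.modEq_one
  rw [h4, Nat.cast_one, div_one] at h3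
  have h5 : ∑ a ∈ I, L X (a : ℝ) ≤ |A| * X ^ (3 / 4 : ℝ) + C * X ^ (1 / 2 : ℝ) := by
    have h6 : A * X ^ (3 / 4 : ℝ) ≤ |A| * X ^ (3 / 4 : ℝ) :=
      mul_le_mul_of_nonneg_right (le_abs_self A) (Real.rpow_nonneg hX0 _)
    linarith [(abs_le.1 h3).2]
  have h6 : ((I.card : ℕ) : ℝ) ≤ 18 * X ^ (1 / 2 : ℝ) := by
    rw [hI]
    exact A1c_card_Icc hX
  have h7 : ((S.ncard : ℕ) : ℝ) ≤ (∑ a ∈ I, L X (a : ℝ)) / ((s1 * s2 : ℕ) : ℝ) + 144 * X ^ (1 / 2 : ℝ) := by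
    rw [A1c_ncard_fiber S hSf Prod.fst I hSI, Nat.cast_sum]
    refine (Finset.sum_le_sum hfib).trans ?_
    rw [Finset.sum_add_distrib, ← Finset.sum_div, Finset.sum_const, nsmul_eq_mul]
    linarith
  rw [← hS]
  refine h7.trans ?_
  have p1 : 0 ≤ X ^ (1 / 2 : ℝ) := Real.rpow_nonneg hX0 _
  have p2 : 0 ≤ X ^ (3 / 4 : ℝ) := Real.rpow_nonneg hX0 _
  have h8 : (∑ a ∈ I, L X (a : ℝ)) / ((s1 * s2 : ℕ) : ℝ) ≤
      |A| * (X ^ (3 / 4 : ℝ) / ((s1 * s2 : ℕ) : ℝ)) + C * X ^ (1 / 2 : ℝ) := by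
    have h9 : (∑ a ∈ I, L X (a : ℝ)) / ((s1 * s2 : ℕ) : ℝ) ≤
        (|A| * X ^ (3 / 4 : ℝ) + C * X ^ (1 / 2 : ℝ)) / ((s1 * s2 : ℕ) : ℝ) :=
      div_le_div_of_nonneg_right h5 hs0.le
    rw [add_div] at h9
    have h10 : C * X ^ (1 / 2 : ℝ) / ((s1 * s2 : ℕ) : ℝ) ≤ C * X ^ (1 / 2 : ℝ) := div_le_self (by positivity) hs1
    rw [mul_div_assoc] at h9
    linarith
  have e : ((s1 * s2 : ℕ) : ℝ) = (s1 : ℝ) * (s2 : ℝ) := by push_cast; ring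
  rw [e] at h8 h7
  have p3 : 0 ≤ X ^ (3 / 4 : ℝ) / ((s1 : ℝ) * (s2 : ℝ)) := by positivity
  have p4 : 0 ≤ |A| := abs_nonneg A
  rw [e]
  nlinarith [mul_nonneg p4 p1, mul_nonneg hC.le p3]

end As

end Pool.Agent.Lib.MP_d8bd92_nt
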