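import Pool.Agent.Lib.MP_d8bd92_nt.As.Defs

set_option autoImplicit false

/-!
ROW as-B1. Few points of the region with a large square divisor of `b` or of `c`.

PROOF of pair_sq (t = (x,g), y = g² - x, x + y = g²). x != 0, y != 0, |x y| <= X.
(1) |x| <= X^(1/2): g² <= |x| + X/|x| <= 2X/|x|, at most 2√(2X/|x|)+1 <= 4√(X/|x|)... values of g for each x; x = ± d² x':
sum over d > z, x' >= 1, d² x' <= X^(1/2) of C √X/(d √x') <= C √X X^(1/4) ∑ 1/d² <= C X^(3/4)/z.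
(2) X^(1/2) < |x| <= X^(3/4): x > 0 (x < 0 gives y = g² + |x| >= |x|, |xy| > X) and |g² - x| <= X/x, so
| |g| - √x | <= X/x^(3/2): at most 2(1 + 2X/x^(3/2)) values of g. x = d² x': ∑ 2 <= 2 X^(3/4) ∑_{d>z} 1/d² and
∑ 4X/(d³ x'^(3/2)) over x' >= max(1, X^(1/2)/d²) <= C X^(3/4)/d² in both cases (d <= X^(1/4): tail <= C (X^(1/2)/d²)^(-1/2);
d > X^(1/4): <= C X/d³ <= C X^(3/4)/d²).
(3) |x| > X^(3/4): |y| <= X^(1/4), g² <= 2X/|y|, x = g² - y: at most ∑_{1<=|y|<=X^(1/4)} (2√(2X/|y|)+1) <= C X^(5/8) points.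
tail_sq: w ↦ (64 b, a) and w ↦ (c, a) are injective into the set of pair_sq for 64 X.
(∑_{d>z} 1/d² <= 2/z for z >= 1.)
-/

namespace Pool.Agent.Lib.MP_d8bd92_nt

namespace As

open Finset Filter Topology Pool.Agent.Lib.Szpiro

/-- a set covered by finitely many finite sets -/
theorem B1_cover {α ι : Type} (S : Set α) (I : Finset ι) (F : ι → Set α) (b : ι → ℝ)
    (hF : ∀ i ∈ I, (F i).Finite ∧ ((F i).ncard : ℝ) ≤ b i) (hS : ∀ x ∈ S, ∃ i ∈ I, x ∈ F i) :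
    S.Finite ∧ (S.ncard : ℝ) ≤ ∑ i ∈ I, b i := by
  classical
  let G : ι → Finset α := fun i => if h : (F i).Finite then h.toFinset else ∅
  have hG : ∀ i ∈ I, ∀ x, x ∈ F i → x ∈ G i := by
    intro i hi x hx
    simp only [G, dif_pos (hF i hi).1]
    exact (Set.Finite.mem_toFinset _).2 hx
  have hc : ∀ i ∈ I, ((G i).card : ℝ) ≤ b i := by
    intro i hi
    simp only [G, dif_pos (hF i hi).1]
    rw [← Set.ncard_eq_toFinset_card _ (hF i hi).1]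
    exact (hF i hi).2
  have hsub : S ⊆ ((I.biUnion G : Finset α) : Set α) := by
    intro x hx
    obtain ⟨i, hi, hxi⟩ := hS x hx
    exact Finset.mem_coe.2 (Finset.mem_biUnion.2 ⟨i, hi, hG i hi x hxi⟩)
  refine ⟨(Finset.finite_toSet _).subset hsub, ?_⟩
  have h1 : S.ncard ≤ (I.biUnion G).card := by
    rw [← Set.ncard_coe_finset]
    exact Set.ncard_le_ncard hsub (Finset.finite_toSet _)
  calc (S.ncard : ℝ) ≤ ((I.biUnion G).card : ℝ) := by exact_mod_cast h1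
    _ ≤ ((∑ i ∈ I, (G i).card : ℕ) : ℝ) := by exact_mod_cast Finset.card_biUnion_le
    _ = ∑ i ∈ I, ((G i).card : ℝ) := by push_cast; rfl
    _ ≤ ∑ i ∈ I, b i := Finset.sum_le_sum hc

/-- integers in a real ball -/
theorem B1_ball (u r : ℝ) (hr : 0 ≤ r) :
    {k : ℤ | |(k : ℝ) - u| ≤ r}.Finite ∧ (({k : ℤ | |(k : ℝ) - u| ≤ r}.ncard : ℕ) : ℝ) ≤ 2 * r + 1 := by
  have e : {k : ℤ | |(k : ℝ) - u| ≤ r} = ((Finset.Icc ⌈u - r⌉ ⌊u + r⌋ : Finset ℤ) : Set ℤ) := by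
    ext k
    rw [Set.mem_ofPred_eq, Finset.mem_coe, Finset.mem_Icc, Int.ceil_le, Int.le_floor, abs_le]
    constructor
    · rintro ⟨h1, h2⟩; constructor <;> linarith
    · rintro ⟨h1, h2⟩; constructor <;> linarith
  rw [e]
  refine ⟨Finset.finite_toSet _, ?_⟩
  rw [Set.ncard_coe_finset, Int.card_Icc]
  have h1 : (⌊u + r⌋ : ℝ) ≤ u + r := Int.floor_le _
  have h2 : u - r ≤ (⌈u - r⌉ : ℝ) := Int.le_ceil _
  rcases le_or_gt 0 (⌊u + r⌋ + 1 - ⌈u - r⌉) with h | h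
  · have h3 : (((⌊u + r⌋ + 1 - ⌈u - r⌉).toNat : ℕ) : ℝ) = ((⌊u + r⌋ + 1 - ⌈u - r⌉ : ℤ) : ℝ) := by
      have := Int.toNat_of_nonneg h
      exact_mod_cast this
    rw [h3]
    push_cast
    linarith
  · rw [Int.toNat_of_nonpos h.le]
    push_cast
    linarith

/-- nonzero integers in a real ball around 0 -/
theorem B1_ball0 (r : ℝ) (hr : 0 ≤ r) :
    {k : ℤ | k ≠ 0 ∧ |(k : ℝ)| ≤ r}.Finite ∧ (({k : ℤ | k ≠ 0 ∧ |(k : ℝ)| ≤ r}.ncard : ℕ) : ℝ) ≤ 2 * r := by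
  classical
  have h0 := B1_ball 0 r hr
  have e : {k : ℤ | k ≠ 0 ∧ |(k : ℝ)| ≤ r} = {k : ℤ | |(k : ℝ) - 0| ≤ r} \ {0} := by
    ext k
    simp only [Set.mem_ofPred_eq, Set.mem_sdiff, Set.mem_singleton_iff, sub_zero]
    tauto
  have hm : (0 : ℤ) ∈ {k : ℤ | |(k : ℝ) - 0| ≤ r} := by simp [hr]
  rw [e]
  refine ⟨h0.1.sdiff, ?_⟩
  have h1 := Set.ncard_sdiff_singleton_add_one hm h0.1
  have h2 : (({k : ℤ | |(k : ℝ) - 0| ≤ r} \ {0}).ncard : ℝ) + 1 =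
      ({k : ℤ | |(k : ℝ) - 0| ≤ r}.ncard : ℝ) := by exact_mod_cast h1
  linarith [h0.2]

/-- tail of the sum of the inverse squares -/
theorem B1_tail (z : ℝ) (hz : 0 < z) (N : ℕ) :
    ∑ d ∈ Finset.Ioc ⌊z⌋₊ N, ((d : ℝ) ^ 2)⁻¹ ≤ 2 / z := by
  have h1 : Finset.Ioc ⌊z⌋₊ N ⊆ Finset.Ioo ⌊z⌋₊ (N + 1) := by
    intro d hd
    rw [Finset.mem_Ioc] at hd
    rw [Finset.mem_Ioo]
    omega
  have h2 := Finset.sum_le_sum_of_subset_of_nonneg (f := fun d : ℕ => ((d : ℝ) ^ 2)⁻¹) h1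
    (fun i _ _ => by positivity)
  refine h2.trans ((sum_Ioo_inv_sq_le (α := ℝ) _ _).trans ?_)
  apply div_le_div_of_nonneg_left (by norm_num) hz
  exact (Nat.lt_floor_add_one z).le

/-- the multiples of squares in a ball around 0 -/
theorem B1_M (B z : ℝ) (hB : 0 ≤ B) (hz : 0 < z) :
    {x : ℤ | x ≠ 0 ∧ |(x : ℝ)| ≤ B ∧ ∃ d : ℕ, z < d ∧ (d : ℤ) ^ 2 ∣ x}.Finite ∧
    (({x : ℤ | x ≠ 0 ∧ |(x : ℝ)| ≤ B ∧ ∃ d : ℕ, z < d ∧ (d : ℤ) ^ 2 ∣ x}.ncard : ℕ) : ℝ) ≤ 4 * B / z := by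
  have key := B1_cover {x : ℤ | x ≠ 0 ∧ |(x : ℝ)| ≤ B ∧ ∃ d : ℕ, z < d ∧ (d : ℤ) ^ 2 ∣ x}
    (Finset.Ioc ⌊z⌋₊ ⌊B⌋₊) (fun d => (fun k : ℤ => (d : ℤ) ^ 2 * k) '' {k : ℤ | k ≠ 0 ∧ |(k : ℝ)| ≤ B / (d : ℝ) ^ 2})
    (fun d => 2 * (B / (d : ℝ) ^ 2)) ?_ ?_
  · refine ⟨key.1, key.2.trans ?_⟩
    have h := B1_tail z hz ⌊B⌋₊
    have e : ∑ d ∈ Finset.Ioc ⌊z⌋₊ ⌊B⌋₊, 2 * (B / (d : ℝ) ^ 2) =
        2 * B * ∑ d ∈ Finset.Ioc ⌊z⌋₊ ⌊B⌋₊, ((d : ℝ) ^ 2)⁻¹ := by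
      rw [Finset.mul_sum]
      exact Finset.sum_congr rfl fun d _ => by ring
    rw [e]
    calc 2 * B * ∑ d ∈ Finset.Ioc ⌊z⌋₊ ⌊B⌋₊, ((d : ℝ) ^ 2)⁻¹ ≤ 2 * B * (2 / z) :=
          mul_le_mul_of_nonneg_left h (by positivity)
      _ = 4 * B / z := by ring
  · intro d _
    have h := B1_ball0 (B / (d : ℝ) ^ 2) (by positivity)
    refine ⟨h.1.image _, le_trans ?_ h.2⟩
    exact_mod_cast Set.ncard_image_le h.1
  · rintro x ⟨hx, hxB, d, hzd, k, hk⟩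
    have hk0 : k ≠ 0 := by rintro rfl; exact hx (by rw [hk]; ring)
    have hd0 : (0 : ℝ) < d := hz.trans hzd
    have hk1 : (1 : ℝ) ≤ |(k : ℝ)| := by
      have : 1 ≤ |k| := Int.one_le_abs hk0
      exact_mod_cast this
    have hxr : |(x : ℝ)| = (d : ℝ) ^ 2 * |(k : ℝ)| := by
      rw [hk]; push_cast; rw [abs_mul, abs_of_nonneg (by positivity : (0 : ℝ) ≤ (d : ℝ) ^ 2)]
    have hd1 : (1 : ℝ) ≤ d := by
      have : 0 < d := by exact_mod_cast hd0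
      exact_mod_cast this
    refine ⟨d, ?_, k, ⟨hk0, ?_⟩, hk.symm⟩
    · rw [Finset.mem_Ioc]
      constructor
      · exact (Nat.floor_lt hz.le).2 hzd
      · apply Nat.le_floor
        nlinarith [mul_nonneg (sub_nonneg.2 hd1) hd0.le, mul_nonneg (sub_nonneg.2 hk1) (sq_nonneg (d : ℝ))]
    · rw [le_div_iff₀ (by positivity)]
      linarith

/-- the multiples of squares in a ball -/
theorem B1_N (u B z D : ℝ) (hB : 0 ≤ B) (hz : 0 < z) (hD : 0 ≤ D) :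
    {x : ℤ | |(x : ℝ) - u| ≤ B ∧ ∃ d : ℕ, z < d ∧ (d : ℝ) ≤ D ∧ (d : ℤ) ^ 2 ∣ x}.Finite ∧
    (({x : ℤ | |(x : ℝ) - u| ≤ B ∧ ∃ d : ℕ, z < d ∧ (d : ℝ) ≤ D ∧ (d : ℤ) ^ 2 ∣ x}.ncard : ℕ) : ℝ) ≤
      4 * B / z + D := by
  have key := B1_cover {x : ℤ | |(x : ℝ) - u| ≤ B ∧ ∃ d : ℕ, z < d ∧ (d : ℝ) ≤ D ∧ (d : ℤ) ^ 2 ∣ x}
    (Finset.Ioc ⌊z⌋₊ ⌊D⌋₊) (fun d => (fun k : ℤ => (d : ℤ) ^ 2 * k) '' {k : ℤ | |(k : ℝ) - u / (d : ℝ) ^ 2| ≤ B / (d : ℝ) ^ 2})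
    (fun d => 2 * (B / (d : ℝ) ^ 2) + 1) ?_ ?_
  · refine ⟨key.1, key.2.trans ?_⟩
    have h := B1_tail z hz ⌊D⌋₊
    have e : ∑ d ∈ Finset.Ioc ⌊z⌋₊ ⌊D⌋₊, (2 * (B / (d : ℝ) ^ 2) + 1) =
        2 * B * ∑ d ∈ Finset.Ioc ⌊z⌋₊ ⌊D⌋₊, ((d : ℝ) ^ 2)⁻¹ + ((Finset.Ioc ⌊z⌋₊ ⌊D⌋₊).card : ℝ) := by
      rw [Finset.sum_add_distrib, Finset.mul_sum]
      congr 1
      · exact Finset.sum_congr rfl fun d _ => by ring
      · simp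
    rw [e]
    have h2 : ((Finset.Ioc ⌊z⌋₊ ⌊D⌋₊).card : ℝ) ≤ D := by
      rw [Nat.card_Ioc]
      refine le_trans ?_ (Nat.floor_le hD)
      exact_mod_cast Nat.sub_le _ _
    have h3 : 2 * B * ∑ d ∈ Finset.Ioc ⌊z⌋₊ ⌊D⌋₊, ((d : ℝ) ^ 2)⁻¹ ≤ 2 * B * (2 / z) :=
          mul_le_mul_of_nonneg_left h (by positivity)
    have e4 : 2 * B * (2 / z) = 4 * B / z := by ring
    linarith
  · intro d _
    have h := B1_ball (u / (d : ℝ) ^ 2) (B / (d : ℝ) ^ 2) (by positivity)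
    refine ⟨h.1.image _, le_trans ?_ h.2⟩
    exact_mod_cast Set.ncard_image_le h.1
  · rintro x ⟨hxB, d, hzd, hdD, k, hk⟩
    have hd0 : (0 : ℝ) < d := hz.trans hzd
    refine ⟨d, ?_, k, ?_, hk.symm⟩
    · rw [Finset.mem_Ioc]
      exact ⟨(Nat.floor_lt hz.le).2 hzd, Nat.le_floor hdD⟩
    · rw [Set.mem_ofPred_eq]
      have hd2 : (0 : ℝ) < (d : ℝ) ^ 2 := by positivity
      have e : (k : ℝ) - u / (d : ℝ) ^ 2 = ((x : ℝ) - u) / (d : ℝ) ^ 2 := by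
        rw [hk]; push_cast; field_simp
      rw [e, abs_div, abs_of_pos hd2]
      exact div_le_div_of_nonneg_right hxB hd2.le

theorem B1_pm (n : ℕ) : ({(n : ℤ), -(n : ℤ)} : Set ℤ).Finite ∧ ({(n : ℤ), -(n : ℤ)} : Set ℤ).ncard ≤ 2 :=
  ⟨Set.toFinite _, (Set.ncard_insert_le _ _).trans (by rw [Set.ncard_singleton])⟩

/-- the product with a set of two elements -/
theorem B1_prod (A : Set ℤ) (n : ℕ) (b : ℝ) (hA : A.Finite ∧ (A.ncard : ℝ) ≤ b) (_hb : 0 ≤ b) :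
    (A ×ˢ ({(n : ℤ), -(n : ℤ)} : Set ℤ)).Finite ∧
      ((A ×ˢ ({(n : ℤ), -(n : ℤ)} : Set ℤ)).ncard : ℝ) ≤ 2 * b := by
  obtain ⟨h1, h2⟩ := B1_pm n
  refine ⟨hA.1.prod h1, ?_⟩
  rw [Set.ncard_prod]
  push_cast
  have h3 : (({(n : ℤ), -(n : ℤ)} : Set ℤ).ncard : ℝ) ≤ 2 := by exact_mod_cast h2
  have h4 : (0 : ℝ) ≤ (A.ncard : ℝ) := Nat.cast_nonneg _
  nlinarith [hA.2]

theorem B1_union {α : Type} (S A B : Set α) (a b : ℝ) (hA : A.Finite ∧ (A.ncard : ℝ) ≤ a)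
    (hB : B.Finite ∧ (B.ncard : ℝ) ≤ b) (h : ∀ x ∈ S, x ∈ A ∨ x ∈ B) :
    S.Finite ∧ (S.ncard : ℝ) ≤ a + b := by
  have hs : S ⊆ A ∪ B := fun x hx => h x hx
  refine ⟨(hA.1.union hB.1).subset hs, ?_⟩
  have h1 : S.ncard ≤ A.ncard + B.ncard :=
    (Set.ncard_le_ncard hs (hA.1.union hB.1)).trans (Set.ncard_union_le A B)
  have h2 : (S.ncard : ℝ) ≤ A.ncard + B.ncard := by exact_mod_cast h1
  linarith [hA.2, hB.2]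

/-- the set -/
def B1_S (X z : ℝ) : Set (ℤ × ℤ) := {t : ℤ × ℤ | t.1 ≠ 0 ∧ t.2 ^ 2 - t.1 ≠ 0 ∧
  (((t.1 * (t.2 ^ 2 - t.1)).natAbs : ℕ) : ℝ) ≤ X ∧ ∃ d : ℕ, z < d ∧ (d : ℤ) ^ 2 ∣ t.1}

theorem B1_natAbs (m : ℤ) : ((m.natAbs : ℕ) : ℝ) = |(m : ℝ)| := by
  rw [Nat.cast_natAbs, Int.cast_abs]

/-- part A: small g -/
theorem B1_A (q z : ℝ) (hq : 1 ≤ q) (hz : 1 ≤ z) :
    {t ∈ B1_S (q ^ 4) z | |(t.2 : ℝ)| ≤ 2 * q}.Finite ∧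
    (({t ∈ B1_S (q ^ 4) z | |(t.2 : ℝ)| ≤ 2 * q}.ncard : ℕ) : ℝ) ≤ 120 * (q ^ 3 / z) := by
  have hM := B1_M (6 * q ^ 2) z (by positivity) (by linarith)
  have hG := B1_ball 0 (2 * q) (by linarith)
  set M := {x : ℤ | x ≠ 0 ∧ |(x : ℝ)| ≤ 6 * q ^ 2 ∧ ∃ d : ℕ, z < d ∧ (d : ℤ) ^ 2 ∣ x} with hMd
  set G := {k : ℤ | |(k : ℝ) - 0| ≤ 2 * q} with hGd
  have hsub : {t ∈ B1_S (q ^ 4) z | |(t.2 : ℝ)| ≤ 2 * q} ⊆ M ×ˢ G := by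
    rintro ⟨x, g⟩ ⟨⟨hx, hy, hX, hd⟩, hg⟩
    dsimp only at hx hy hX hd hg
    rw [Set.mem_prod]
    refine ⟨⟨hx, ?_, hd⟩, ?_⟩
    · dsimp only
      by_contra hcon
      push Not at hcon
      rw [B1_natAbs] at hX
      push_cast at hX
      rw [abs_mul] at hX
      have hg2 : (g : ℝ) ^ 2 ≤ 4 * q ^ 2 := by
        have := sq_le_sq' (by linarith [abs_nonneg (g : ℝ)] : -(2 * q) ≤ |(g : ℝ)|) hg
        rw [sq_abs] at this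
        nlinarith
      have h1 : 2 * q ^ 2 ≤ |(g : ℝ) ^ 2 - x| := by
        have h2 : |(x : ℝ)| - |(g : ℝ) ^ 2| ≤ |(g : ℝ) ^ 2 - x| := by
          rw [abs_sub_comm]; exact abs_sub_abs_le_abs_sub _ _
        rw [abs_of_nonneg (sq_nonneg (g : ℝ))] at h2
        linarith
      have hq2 : 0 < q ^ 2 := by positivity
      have h3 : 6 * q ^ 2 * (2 * q ^ 2) ≤ |(x : ℝ)| * |(g : ℝ) ^ 2 - x| :=
        mul_le_mul hcon.le h1 (by positivity) (abs_nonneg _)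
      nlinarith [mul_pos hq2 hq2]
    · simpa [hGd] using hg
  refine ⟨(hM.1.prod hG.1).subset hsub, ?_⟩
  have h1 := Set.ncard_le_ncard hsub (hM.1.prod hG.1)
  rw [Set.ncard_prod] at h1
  have h2 : (({t ∈ B1_S (q ^ 4) z | |(t.2 : ℝ)| ≤ 2 * q}.ncard : ℕ) : ℝ) ≤ (M.ncard : ℝ) * (G.ncard : ℝ) := by
    exact_mod_cast h1
  refine h2.trans ?_
  have h3 : (M.ncard : ℝ) * (G.ncard : ℝ) ≤ (4 * (6 * q ^ 2) / z) * (5 * q) :=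
    mul_le_mul hM.2 (hG.2.trans (by linarith)) (Nat.cast_nonneg _) (by positivity)
  refine h3.trans (le_of_eq ?_)
  ring

/-- the dichotomy for large g -/
theorem B1_dich (X x g : ℝ) (hg : 0 < g ^ 2) (h : |x| * |g ^ 2 - x| ≤ X) :
    |x| ≤ 2 * X / g ^ 2 ∨ |x - g ^ 2| ≤ 2 * X / g ^ 2 := by
  rw [le_div_iff₀ hg, le_div_iff₀ hg, abs_sub_comm x]
  have h1 : g ^ 2 ≤ |x| + |g ^ 2 - x| := by
    have := abs_add_le x (g ^ 2 - x)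
    rw [add_sub_cancel, abs_of_pos hg] at this
    exact this
  rcases le_total |x| |g ^ 2 - x| with h2 | h2
  · left
    nlinarith [abs_nonneg x]
  · right
    nlinarith [abs_nonneg (g ^ 2 - x)]

/-- part B1: large g, small x -/
theorem B1_B (q z : ℝ) (hq : 1 ≤ q) (hz : 1 ≤ z) :
    {t ∈ B1_S (q ^ 4) z | 2 * q < |(t.2 : ℝ)| ∧ |(t.1 : ℝ)| ≤ 2 * q ^ 4 / (t.2 : ℝ) ^ 2}.Finite ∧
    (({t ∈ B1_S (q ^ 4) z | 2 * q < |(t.2 : ℝ)| ∧ |(t.1 : ℝ)| ≤ 2 * q ^ 4 / (t.2 : ℝ) ^ 2}.ncard : ℕ) : ℝ) ≤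
      16 * (q ^ 3 / z) := by
  have key := B1_cover {t ∈ B1_S (q ^ 4) z | 2 * q < |(t.2 : ℝ)| ∧ |(t.1 : ℝ)| ≤ 2 * q ^ 4 / (t.2 : ℝ) ^ 2}
    (Finset.Ioc ⌊2 * q⌋₊ ⌊2 * q ^ 4⌋₊)
    (fun n => {x : ℤ | x ≠ 0 ∧ |(x : ℝ)| ≤ 2 * q ^ 4 / (n : ℝ) ^ 2 ∧ ∃ d : ℕ, z < d ∧ (d : ℤ) ^ 2 ∣ x} ×ˢ
      ({(n : ℤ), -(n : ℤ)} : Set ℤ))
    (fun n => 2 * (4 * (2 * q ^ 4 / (n : ℝ) ^ 2) / z)) ?_ ?_
  · refine ⟨key.1, key.2.trans ?_⟩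
    have e : ∑ n ∈ Finset.Ioc ⌊2 * q⌋₊ ⌊2 * q ^ 4⌋₊, 2 * (4 * (2 * q ^ 4 / (n : ℝ) ^ 2) / z) =
        16 * q ^ 4 / z * ∑ n ∈ Finset.Ioc ⌊2 * q⌋₊ ⌊2 * q ^ 4⌋₊, ((n : ℝ) ^ 2)⁻¹ := by
      rw [Finset.mul_sum]
      exact Finset.sum_congr rfl fun d _ => by ring
    rw [e]
    have h := B1_tail (2 * q) (by linarith) ⌊2 * q ^ 4⌋₊
    have hz0 : 0 < z := by linarith
    have hq0 : 0 < q := by linarith
    calc 16 * q ^ 4 / z * ∑ n ∈ Finset.Ioc ⌊2 * q⌋₊ ⌊2 * q ^ 4⌋₊, ((n : ℝ) ^ 2)⁻¹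
        ≤ 16 * q ^ 4 / z * (2 / (2 * q)) := mul_le_mul_of_nonneg_left h (by positivity)
      _ = 16 * (q ^ 3 / z) := by field_simp
  · intro n _
    exact B1_prod _ n _ (B1_M (2 * q ^ 4 / (n : ℝ) ^ 2) z (by positivity) (by linarith)) (by positivity)
  · rintro ⟨x, g⟩ ⟨⟨hx, hy, hX, hd⟩, hg, hxB⟩
    dsimp only at hx hy hX hd hg hxB
    have hgn : ((g.natAbs : ℕ) : ℝ) = |(g : ℝ)| := B1_natAbs g
    have hgsq : ((g.natAbs : ℕ) : ℝ) ^ 2 = (g : ℝ) ^ 2 := by rw [hgn, sq_abs]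
    have hg0 : 0 < |(g : ℝ)| := by linarith
    have hx1 : (1 : ℝ) ≤ |(x : ℝ)| := by
      have : 1 ≤ |x| := Int.one_le_abs hx
      exact_mod_cast this
    have hgp : 0 < (g : ℝ) ^ 2 := by rw [← sq_abs]; positivity
    refine ⟨g.natAbs, ?_, ?_, ?_⟩
    · rw [Finset.mem_Ioc]
      constructor
      · apply (Nat.floor_lt (by linarith)).2
        rw [hgn]; exact hg
      · apply Nat.le_floor
        rw [hgn]
        rw [le_div_iff₀ hgp, ← sq_abs] at hxB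
        nlinarith
    · dsimp only
      refine ⟨hx, ?_, hd⟩
      rw [hgsq]; exact hxB
    · dsimp only
      rcases Int.natAbs_eq g with h | h
      · left; exact h
      · right; exact h

/-- part B3: very large g, x near g^2 -/
theorem B1_C (X p z : ℝ) (hX1 : 1 ≤ X) (hp : 0 < p) :
    {t ∈ B1_S X z | p < |(t.2 : ℝ)| ∧ |(t.1 : ℝ) - (t.2 : ℝ) ^ 2| ≤ 2 * X / (t.2 : ℝ) ^ 2}.Finite ∧
    (({t ∈ B1_S X z | p < |(t.2 : ℝ)| ∧ |(t.1 : ℝ) - (t.2 : ℝ) ^ 2| ≤ 2 * X / (t.2 : ℝ) ^ 2}.ncard : ℕ) : ℝ) ≤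
      16 * (X / p) := by
  have key := B1_cover {t ∈ B1_S X z | p < |(t.2 : ℝ)| ∧ |(t.1 : ℝ) - (t.2 : ℝ) ^ 2| ≤ 2 * X / (t.2 : ℝ) ^ 2}
    (Finset.Ioc ⌊p⌋₊ ⌊2 * X⌋₊)
    (fun n => ((fun k : ℤ => (n : ℤ) ^ 2 + k) '' {k : ℤ | k ≠ 0 ∧ |(k : ℝ)| ≤ 2 * X / (n : ℝ) ^ 2}) ×ˢ
      ({(n : ℤ), -(n : ℤ)} : Set ℤ))
    (fun n => 2 * (2 * (2 * X / (n : ℝ) ^ 2))) ?_ ?_
  · refine ⟨key.1, key.2.trans ?_⟩
    have e : ∑ n ∈ Finset.Ioc ⌊p⌋₊ ⌊2 * X⌋₊, 2 * (2 * (2 * X / (n : ℝ) ^ 2)) =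
        8 * X * ∑ n ∈ Finset.Ioc ⌊p⌋₊ ⌊2 * X⌋₊, ((n : ℝ) ^ 2)⁻¹ := by
      rw [Finset.mul_sum]
      exact Finset.sum_congr rfl fun d _ => by ring
    rw [e]
    have h := B1_tail p hp ⌊2 * X⌋₊
    calc 8 * X * ∑ n ∈ Finset.Ioc ⌊p⌋₊ ⌊2 * X⌋₊, ((n : ℝ) ^ 2)⁻¹
        ≤ 8 * X * (2 / p) := mul_le_mul_of_nonneg_left h (by positivity)
      _ = 16 * (X / p) := by ring
  · intro n _
    have h := B1_ball0 (2 * X / (n : ℝ) ^ 2) (by positivity)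
    refine B1_prod _ n _ ⟨h.1.image _, le_trans ?_ h.2⟩ (by positivity)
    exact_mod_cast Set.ncard_image_le h.1
  · rintro ⟨x, g⟩ ⟨⟨hx, hy, hX, hd⟩, hg, hxB⟩
    dsimp only at hx hy hX hd hg hxB
    have hgn : ((g.natAbs : ℕ) : ℝ) = |(g : ℝ)| := B1_natAbs g
    have hgsq : ((g.natAbs : ℕ) : ℝ) ^ 2 = (g : ℝ) ^ 2 := by rw [hgn, sq_abs]
    have hg0 : 0 < |(g : ℝ)| := by linarith
    have hgp : 0 < (g : ℝ) ^ 2 := by rw [← sq_abs]; positivity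
    have hx1 : (1 : ℝ) ≤ |(x : ℝ) - (g : ℝ) ^ 2| := by
      have h1 : x - g ^ 2 ≠ 0 := by
        intro h0; apply hy; linarith
      have : 1 ≤ |x - g ^ 2| := Int.one_le_abs h1
      exact_mod_cast this
    have hg1 : (1 : ℝ) ≤ |(g : ℝ)| := by
      have h1 : g ≠ 0 := by rintro rfl; simp at hg0
      have : 1 ≤ |g| := Int.one_le_abs h1
      exact_mod_cast this
    refine ⟨g.natAbs, ?_, ?_, ?_⟩
    · rw [Finset.mem_Ioc]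
      constructor
      · apply (Nat.floor_lt hp.le).2
        rw [hgn]; exact hg
      · apply Nat.le_floor
        rw [hgn]
        rw [le_div_iff₀ hgp, ← sq_abs (g : ℝ)] at hxB
        have : |(g : ℝ)| ^ 2 ≤ 2 * X := by
          have h3 : 1 * |(g : ℝ)| ^ 2 ≤ |(x : ℝ) - |(g : ℝ)| ^ 2| * |(g : ℝ)| ^ 2 := by
            apply mul_le_mul_of_nonneg_right _ (by positivity)
            rw [sq_abs]; exact hx1
          linarith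
        nlinarith
    · dsimp only
      refine ⟨x - g ^ 2, ⟨?_, ?_⟩, ?_⟩
      · intro h0; apply hy; linarith
      · rw [hgsq]; push_cast; exact hxB
      · dsimp only
        have : ((g.natAbs : ℕ) : ℤ) ^ 2 = g ^ 2 := Int.natAbs_sq g
        rw [this]; ring
    · dsimp only
      rcases Int.natAbs_eq g with h | h
      · left; exact h
      · right; exact h

/-- part B2: medium g, x near g^2 -/
theorem B1_D (q p z : ℝ) (hq : 1 ≤ q) (hp : 1 ≤ p) (hz : 1 ≤ z) :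
    {t ∈ B1_S (q ^ 4) z | 2 * q < |(t.2 : ℝ)| ∧ |(t.2 : ℝ)| ≤ p ∧
      |(t.1 : ℝ) - (t.2 : ℝ) ^ 2| ≤ 2 * q ^ 4 / (t.2 : ℝ) ^ 2}.Finite ∧
    (({t ∈ B1_S (q ^ 4) z | 2 * q < |(t.2 : ℝ)| ∧ |(t.2 : ℝ)| ≤ p ∧
      |(t.1 : ℝ) - (t.2 : ℝ) ^ 2| ≤ 2 * q ^ 4 / (t.2 : ℝ) ^ 2}.ncard : ℕ) : ℝ) ≤
      16 * (q ^ 3 / z) + 4 * p ^ 2 := by
  have hz0 : 0 < z := by linarith
  have hq0 : 0 < q := by linarith
  have key := B1_cover {t ∈ B1_S (q ^ 4) z | 2 * q < |(t.2 : ℝ)| ∧ |(t.2 : ℝ)| ≤ p ∧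
      |(t.1 : ℝ) - (t.2 : ℝ) ^ 2| ≤ 2 * q ^ 4 / (t.2 : ℝ) ^ 2}
    (Finset.Ioc ⌊2 * q⌋₊ ⌊p⌋₊)
    (fun n => {x : ℤ | |(x : ℝ) - (n : ℝ) ^ 2| ≤ 2 * q ^ 4 / (n : ℝ) ^ 2 ∧ ∃ d : ℕ, z < d ∧ (d : ℝ) ≤ 2 * p ∧ (d : ℤ) ^ 2 ∣ x} ×ˢ
      ({(n : ℤ), -(n : ℤ)} : Set ℤ))
    (fun n => 2 * (4 * (2 * q ^ 4 / (n : ℝ) ^ 2) / z + 2 * p)) ?_ ?_
  · refine ⟨key.1, key.2.trans ?_⟩
    have e : ∑ n ∈ Finset.Ioc ⌊2 * q⌋₊ ⌊p⌋₊, 2 * (4 * (2 * q ^ 4 / (n : ℝ) ^ 2) / z + 2 * p) =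
        16 * q ^ 4 / z * ∑ n ∈ Finset.Ioc ⌊2 * q⌋₊ ⌊p⌋₊, ((n : ℝ) ^ 2)⁻¹ +
          ((Finset.Ioc ⌊2 * q⌋₊ ⌊p⌋₊).card : ℝ) * (4 * p) := by
      rw [Finset.mul_sum, ← nsmul_eq_mul, ← Finset.sum_const, ← Finset.sum_add_distrib]
      exact Finset.sum_congr rfl fun d _ => by ring
    rw [e]
    have h := B1_tail (2 * q) (by linarith) ⌊p⌋₊
    have h2 : ((Finset.Ioc ⌊2 * q⌋₊ ⌊p⌋₊).card : ℝ) ≤ p := by
      rw [Nat.card_Ioc]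
      refine le_trans ?_ (Nat.floor_le (by linarith : 0 ≤ p))
      exact_mod_cast Nat.sub_le _ _
    have h3 : 16 * q ^ 4 / z * ∑ n ∈ Finset.Ioc ⌊2 * q⌋₊ ⌊p⌋₊, ((n : ℝ) ^ 2)⁻¹
        ≤ 16 * q ^ 4 / z * (2 / (2 * q)) := mul_le_mul_of_nonneg_left h (by positivity)
    have e4 : 16 * q ^ 4 / z * (2 / (2 * q)) = 16 * (q ^ 3 / z) := by field_simp
    have h5 : ((Finset.Ioc ⌊2 * q⌋₊ ⌊p⌋₊).card : ℝ) * (4 * p) ≤ p * (4 * p) :=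
      mul_le_mul_of_nonneg_right h2 (by linarith)
    nlinarith
  · intro n _
    exact B1_prod _ n _ (B1_N ((n : ℝ) ^ 2) (2 * q ^ 4 / (n : ℝ) ^ 2) z (2 * p) (by positivity) hz0 (by linarith))
      (by positivity)
  · rintro ⟨x, g⟩ ⟨⟨hx, hy, hX, hd⟩, hg, hgp, hxB⟩
    dsimp only at hx hy hX hd hg hgp hxB
    have hgn : ((g.natAbs : ℕ) : ℝ) = |(g : ℝ)| := B1_natAbs g
    have hgsq : ((g.natAbs : ℕ) : ℝ) ^ 2 = (g : ℝ) ^ 2 := by rw [hgn, sq_abs]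
    have hg0 : 0 < |(g : ℝ)| := by linarith
    have hgpos : 0 < (g : ℝ) ^ 2 := by rw [← sq_abs]; positivity
    refine ⟨g.natAbs, ?_, ?_, ?_⟩
    · rw [Finset.mem_Ioc]
      constructor
      · apply (Nat.floor_lt (by linarith)).2
        rw [hgn]; exact hg
      · apply Nat.le_floor
        rw [hgn]; exact hgp
    · dsimp only
      refine ⟨by rw [hgsq]; exact hxB, ?_⟩
      obtain ⟨d, hzd, hdx⟩ := hd
      refine ⟨d, hzd, ?_, hdx⟩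
      have h1 : ((d : ℝ)) ^ 2 ≤ |(x : ℝ)| := by
        have h2 : (d : ℤ) ^ 2 ≤ |x| := by
          apply Int.le_of_dvd (abs_pos.2 hx)
          exact (dvd_abs _ _).2 hdx
        exact_mod_cast h2
      have h4 : 4 * q ^ 2 ≤ (g : ℝ) ^ 2 := by
        rw [← sq_abs (g : ℝ)]; nlinarith
      have h5 : 2 * q ^ 4 / (g : ℝ) ^ 2 ≤ q ^ 2 := by
        rw [div_le_iff₀ hgpos]
        have hq2 : 0 < q ^ 2 := by positivity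
        nlinarith [mul_pos hq2 hq2]
      have h6 : |(x : ℝ)| ≤ (g : ℝ) ^ 2 + q ^ 2 := by
        have := abs_sub_abs_le_abs_sub (x : ℝ) ((g : ℝ) ^ 2)
        rw [abs_of_pos hgpos] at this
        linarith
      have h7 : (g : ℝ) ^ 2 ≤ p ^ 2 := by
        rw [← sq_abs (g : ℝ)]; nlinarith
      have h8 : (d : ℝ) ^ 2 ≤ (2 * p) ^ 2 := by nlinarith
      exact abs_le_of_sq_le_sq' h8 (by linarith) |>.2
    · dsimp only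
      rcases Int.natAbs_eq g with h | h
      · left; exact h
      · right; exact h

theorem pair_sq : ∃ C : ℝ, 0 < C ∧ ∀ X z : ℝ, 1 ≤ X → 1 ≤ z →
    {t : ℤ × ℤ | t.1 ≠ 0 ∧ t.2 ^ 2 - t.1 ≠ 0 ∧ (((t.1 * (t.2 ^ 2 - t.1)).natAbs : ℕ) : ℝ) ≤ X ∧
      ∃ d : ℕ, z < d ∧ (d : ℤ) ^ 2 ∣ t.1}.Finite ∧
    (({t : ℤ × ℤ | t.1 ≠ 0 ∧ t.2 ^ 2 - t.1 ≠ 0 ∧ (((t.1 * (t.2 ^ 2 - t.1)).natAbs : ℕ) : ℝ) ≤ X ∧
      ∃ d : ℕ, z < d ∧ (d : ℤ) ^ 2 ∣ t.1}.ncard : ℕ) : ℝ) ≤ C * (X ^ (3 / 4 : ℝ) / z + X ^ (2 / 3 : ℝ)) := by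
  refine ⟨152, by norm_num, fun X z hX hz => ?_⟩
  have hX0 : 0 < X := by linarith
  obtain ⟨q, hq1, hq4, hq3⟩ : ∃ q : ℝ, 1 ≤ q ∧ q ^ 4 = X ∧ q ^ 3 = X ^ (3 / 4 : ℝ) := by
    refine ⟨X ^ (1 / 4 : ℝ), Real.one_le_rpow hX (by norm_num), ?_, ?_⟩
    · rw [← Real.rpow_natCast, ← Real.rpow_mul hX0.le]; norm_num
    · rw [← Real.rpow_natCast, ← Real.rpow_mul hX0.le]; norm_num
  obtain ⟨p, hp1, hp3, hp2⟩ : ∃ p : ℝ, 1 ≤ p ∧ p ^ 3 = X ∧ p ^ 2 = X ^ (2 / 3 : ℝ) := by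
    refine ⟨X ^ (1 / 3 : ℝ), Real.one_le_rpow hX (by norm_num), ?_, ?_⟩
    · rw [← Real.rpow_natCast, ← Real.rpow_mul hX0.le]; norm_num
    · rw [← Real.rpow_natCast, ← Real.rpow_mul hX0.le]; norm_num
  rw [← hq3, ← hp2]
  change (B1_S X z).Finite ∧ ((B1_S X z).ncard : ℝ) ≤ _
  have hA := B1_A q z hq1 hz
  have hB := B1_B q z hq1 hz
  have hC := B1_C X p z hX (by linarith)
  have hD := B1_D q p z hq1 hp1 hz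
  rw [hq4] at hA hB hD
  have h1 := B1_union {t ∈ B1_S X z | 2 * q < |(t.2 : ℝ)| ∧ |(t.1 : ℝ) - (t.2 : ℝ) ^ 2| ≤ 2 * X / (t.2 : ℝ) ^ 2}
    _ _ _ _ hC hD (by
      rintro t ⟨ht, h1, h2⟩
      rcases lt_or_ge p |(t.2 : ℝ)| with h | h
      · left; exact ⟨ht, h, h2⟩
      · right; exact ⟨ht, h1, h, h2⟩)
  have h2 := B1_union {t ∈ B1_S X z | 2 * q < |(t.2 : ℝ)|} _ _ _ _ hB h1 (by
      rintro t ⟨ht, h1⟩
      obtain ⟨hx, hy, hX', hd⟩ := ht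
      have hg : 0 < (t.2 : ℝ) ^ 2 := by
        rw [← sq_abs]
        have : 0 < |(t.2 : ℝ)| := by linarith
        positivity
      have hX2 : |(t.1 : ℝ)| * |(t.2 : ℝ) ^ 2 - t.1| ≤ X := by
        rw [B1_natAbs] at hX'
        push_cast at hX'
        rwa [abs_mul] at hX'
      rcases B1_dich X t.1 t.2 hg hX2 with h | h
      · left; exact ⟨⟨hx, hy, hX', hd⟩, h1, h⟩
      · right; exact ⟨⟨hx, hy, hX', hd⟩, h1, h⟩)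
  have h3 := B1_union (B1_S X z) _ _ _ _ hA h2 (by
      intro t ht
      rcases le_or_gt |(t.2 : ℝ)| (2 * q) with h | h
      · left; exact ⟨ht, h⟩
      · right; exact ⟨ht, h⟩)
  refine ⟨h3.1, h3.2.trans ?_⟩
  have e : X / p = p ^ 2 := by rw [← hp3]; field_simp
  rw [e]
  have : 0 ≤ q ^ 3 / z := by positivity
  nlinarith [sq_nonneg p]

theorem tail_sq : ∃ C : ℝ, 0 < C ∧ ∀ X z : ℝ, 1 ≤ X → 1 ≤ z →
    (({w ∈ Rg X | ∃ d : ℕ, z < d ∧ ((d : ℤ) ^ 2 ∣ w.2 ∨ (d : ℤ) ^ 2 ∣ cc w)}.ncard : ℕ) : ℝ) ≤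
      C * (X ^ (3 / 4 : ℝ) / z + X ^ (2 / 3 : ℝ)) := by
  obtain ⟨C, hC, h⟩ := pair_sq
  refine ⟨2 * (C * 64), by positivity, fun X z hX hz => ?_⟩
  have hX0 : 0 < X := by linarith
  obtain ⟨hf, hn⟩ := h (64 * X) z (by linarith) hz
  change (B1_S (64 * X) z).Finite at hf
  change ((B1_S (64 * X) z).ncard : ℝ) ≤ _ at hn
  have hn2 : ((B1_S (64 * X) z).ncard : ℝ) ≤ C * 64 * (X ^ (3 / 4 : ℝ) / z + X ^ (2 / 3 : ℝ)) := by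
    refine hn.trans ?_
    have e1 : (64 * X) ^ (3 / 4 : ℝ) ≤ 64 * X ^ (3 / 4 : ℝ) := by
      rw [Real.mul_rpow (by norm_num) hX0.le]
      apply mul_le_mul_of_nonneg_right _ (by positivity)
      calc (64 : ℝ) ^ (3 / 4 : ℝ) ≤ (64 : ℝ) ^ (1 : ℝ) :=
            Real.rpow_le_rpow_of_exponent_le (by norm_num) (by norm_num)
        _ = 64 := Real.rpow_one _
    have e2 : (64 * X) ^ (2 / 3 : ℝ) ≤ 64 * X ^ (2 / 3 : ℝ) := by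
      rw [Real.mul_rpow (by norm_num) hX0.le]
      apply mul_le_mul_of_nonneg_right _ (by positivity)
      calc (64 : ℝ) ^ (2 / 3 : ℝ) ≤ (64 : ℝ) ^ (1 : ℝ) :=
            Real.rpow_le_rpow_of_exponent_le (by norm_num) (by norm_num)
        _ = 64 := Real.rpow_one _
    have hz0 : 0 < z := by linarith
    have e3 : (64 * X) ^ (3 / 4 : ℝ) / z ≤ 64 * (X ^ (3 / 4 : ℝ) / z) := by
      rw [← mul_div_assoc]
      exact div_le_div_of_nonneg_right e1 hz0.le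
    calc C * ((64 * X) ^ (3 / 4 : ℝ) / z + (64 * X) ^ (2 / 3 : ℝ))
        ≤ C * (64 * (X ^ (3 / 4 : ℝ) / z) + 64 * X ^ (2 / 3 : ℝ)) :=
          mul_le_mul_of_nonneg_left (add_le_add e3 e2) hC.le
      _ = C * 64 * (X ^ (3 / 4 : ℝ) / z + X ^ (2 / 3 : ℝ)) := by ring
  have hcard : ∀ w ∈ Rg X, (((64 * (w.2 * cc w)).natAbs : ℕ) : ℝ) ≤ 64 * X := by
    intro w hw
    rw [Int.natAbs_mul]
    push_cast
    have := hw.2.2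
    rw [nn] at this
    simpa using this
  -- the two parts
  have p1 : {w ∈ Rg X | ∃ d : ℕ, z < d ∧ (d : ℤ) ^ 2 ∣ w.2}.Finite ∧
      (({w ∈ Rg X | ∃ d : ℕ, z < d ∧ (d : ℤ) ^ 2 ∣ w.2}.ncard : ℕ) : ℝ) ≤
        C * 64 * (X ^ (3 / 4 : ℝ) / z + X ^ (2 / 3 : ℝ)) := by
    refine ⟨(Rg_finite X).subset (fun w hw => hw.1), le_trans ?_ hn2⟩
    have : {w ∈ Rg X | ∃ d : ℕ, z < d ∧ (d : ℤ) ^ 2 ∣ w.2}.ncard ≤ (B1_S (64 * X) z).ncard := by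
      refine Set.ncard_le_ncard_of_injOn (fun w => (64 * w.2, w.1)) ?_ ?_ hf
      · rintro w ⟨hw, d, hzd, hd⟩
        have e : w.1 ^ 2 - 64 * w.2 = cc w := rfl
        refine ⟨?_, ?_, ?_, d, hzd, ?_⟩
        · dsimp only
          have := hw.1
          omega
        · dsimp only
          rw [e]; exact hw.2.1
        · dsimp only
          rw [e, mul_assoc]; exact hcard w hw
        · exact Dvd.dvd.mul_left hd _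
      · rintro ⟨a, b⟩ _ ⟨a', b'⟩ _ hh
        simp only [Prod.mk.injEq] at hh ⊢
        omega
    exact_mod_cast this
  have p2 : {w ∈ Rg X | ∃ d : ℕ, z < d ∧ (d : ℤ) ^ 2 ∣ cc w}.Finite ∧
      (({w ∈ Rg X | ∃ d : ℕ, z < d ∧ (d : ℤ) ^ 2 ∣ cc w}.ncard : ℕ) : ℝ) ≤
        C * 64 * (X ^ (3 / 4 : ℝ) / z + X ^ (2 / 3 : ℝ)) := by
    refine ⟨(Rg_finite X).subset (fun w hw => hw.1), le_trans ?_ hn2⟩
    have : {w ∈ Rg X | ∃ d : ℕ, z < d ∧ (d : ℤ) ^ 2 ∣ cc w}.ncard ≤ (B1_S (64 * X) z).ncard := by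
      refine Set.ncard_le_ncard_of_injOn (fun w => (cc w, w.1)) ?_ ?_ hf
      · rintro w ⟨hw, d, hzd, hd⟩
        have e : w.1 ^ 2 - cc w = 64 * w.2 := by rw [cc]; ring
        refine ⟨?_, ?_, ?_, d, hzd, ?_⟩
        · exact hw.2.1
        · dsimp only
          rw [e]
          have := hw.1
          omega
        · dsimp only
          rw [e, show cc w * (64 * w.2) = 64 * (w.2 * cc w) by ring]; exact hcard w hw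
        · exact hd
      · rintro ⟨a, b⟩ _ ⟨a', b'⟩ _ hh
        simp only [Prod.mk.injEq, cc] at hh ⊢
        obtain ⟨h1, h2⟩ := hh
        subst h2
        omega
    exact_mod_cast this
  have h3 := B1_union {w ∈ Rg X | ∃ d : ℕ, z < d ∧ ((d : ℤ) ^ 2 ∣ w.2 ∨ (d : ℤ) ^ 2 ∣ cc w)} _ _ _ _ p1 p2 (by
    rintro w ⟨hw, d, hzd, hd⟩
    rcases hd with hd | hd
    · left; exact ⟨hw, d, hzd, hd⟩
    · right; exact ⟨hw, d, hzd, hd⟩)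
  refine h3.2.trans (le_of_eq ?_)
  ring

end As

end Pool.Agent.Lib.MP_d8bd92_nt
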