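import Pool.Agent.Lib.MP_d8bd92_nt.As.Defs

set_option autoImplicit false

/-!
ROW as-B2. Few points of the region with a large common divisor of `a` and `b`.

PROOF. x = 64 b, y = c, x + y = a², |x y| <= 64 X, d | x, d | y, d | a. By symmetry (two cases) |x| <= |y|, so |x| <= 8 √X and
a² <= 2|y| <= 128 X/|x|. x = ± d x', 1 <= x' <= 8√X/d, a = d a': at most 2√(128 X/(d x'))/d + 1 values of a'. Sum over d > z
(d <= 8√X) and x': C √X d^(-3/2) (8√X/d)^(1/2) + 16 √X/d, i.e. <= C X^(3/4) ∑ 1/d² + 16 √X (1 + log(8√X)) <=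
C (X^(3/4)/z + X^(2/3)). In the case |y| < |x| the same with y in place of x (y = ± d y', a = d a', x = a² - y).
-/

namespace Pool.Agent.Lib.MP_d8bd92_nt

namespace As

open Finset Filter Topology Pool.Agent.Lib.Szpiro

theorem B2_sum_sqrt (M : ℕ) : ∑ y ∈ Finset.Icc 1 M, 1 / √(y : ℝ) ≤ 2 * √(M : ℝ) := by
  induction M with
  | zero => simp
  | succ M ih =>
    rw [← Finset.insert_Icc_right_eq_Icc_add_one (by omega), Finset.sum_insert (by simp)]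
    have h1 : 0 < √((M + 1 : ℕ) : ℝ) := Real.sqrt_pos.2 (by positivity)
    have h2 : √(M : ℝ) ≤ √((M + 1 : ℕ) : ℝ) := Real.sqrt_le_sqrt (by push_cast; linarith)
    have h3 : 0 ≤ √(M : ℝ) := Real.sqrt_nonneg _
    have h4 : √((M + 1 : ℕ) : ℝ) ^ 2 = M + 1 := by
      rw [Real.sq_sqrt (by positivity)]; push_cast; ring
    have h5 : √(M : ℝ) ^ 2 = M := Real.sq_sqrt (by positivity)
    have h6 : 1 / √((M + 1 : ℕ) : ℝ) ≤ 2 * √((M + 1 : ℕ) : ℝ) - 2 * √(M : ℝ) := by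
      rw [div_le_iff₀ h1]
      nlinarith
    linarith

theorem B2_sum_inv (N : ℕ) : ∑ d ∈ Finset.Icc 1 N, 1 / (d : ℝ) ≤ 1 + Real.log N := by
  have h := harmonic_le_one_add_log N
  rw [harmonic_eq_sum_Icc] at h
  push_cast at h
  simpa [one_div] using h

/-- the set of the pairs with a common divisor -/
def B2_P (X z : ℝ) : Set (ℤ × ℤ) := {t | t.2 ≠ 0 ∧ (t.2.natAbs : ℝ) ≤ 8 * √X ∧
  (t.1 : ℝ) ^ 2 * (t.2.natAbs : ℝ) ≤ 128 * X ∧ ∃ d : ℕ, z < d ∧ (d : ℤ) ∣ t.1 ∧ (d : ℤ) ∣ t.2}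

/-- the bound for the first coordinate -/
noncomputable def B2_A (X : ℝ) (d y : ℕ) : ℕ := ⌊√(128 * X / (d * y)) / d⌋₊

/-- a finite set which contains `B2_P` -/
noncomputable def B2_B (X z : ℝ) : Finset (ℤ × ℤ) :=
  (Finset.Ioc ⌊z⌋₊ ⌊8 * √X⌋₊).biUnion fun d =>
    (Finset.Icc 1 (⌊8 * √X⌋₊ / d)).biUnion fun y =>
      ((Finset.Icc (-(B2_A X d y : ℤ)) (B2_A X d y)) ×ˢ ({1, -1} : Finset ℤ)).image
        fun p => ((d : ℤ) * p.1, p.2 * ((d : ℤ) * y))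

theorem B2_sub (X z : ℝ) (hX : 1 ≤ X) (hz : 1 ≤ z) : B2_P X z ⊆ (B2_B X z : Set (ℤ × ℤ)) := by
  rintro ⟨a, y⟩ ⟨hy0, hy1, hy2, d, hd, ⟨a', rfl⟩, ⟨y', rfl⟩⟩
  simp only at hy0 hy1 hy2
  have hd1 : (1 : ℝ) < d := lt_of_le_of_lt hz hd
  have hd0 : (0 : ℝ) < d := by linarith
  have hd0' : 0 < d := by exact_mod_cast hd0
  have hy' : y' ≠ 0 := right_ne_zero_of_mul hy0
  have hyn : 1 ≤ y'.natAbs := Int.natAbs_pos.2 hy'
  have e1 : ((d : ℤ) * y').natAbs = d * y'.natAbs := by rw [Int.natAbs_mul, Int.natAbs_natCast]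
  rw [e1] at hy1 hy2
  push_cast at hy1 hy2
  have hN : d * y'.natAbs ≤ ⌊8 * √X⌋₊ := by
    apply Nat.le_floor
    push_cast
    exact hy1
  have hyr : (1 : ℝ) ≤ (y'.natAbs : ℝ) := by exact_mod_cast hyn
  have hdy : (0 : ℝ) < d * (y'.natAbs : ℝ) := by positivity
  simp only [B2_B, Finset.coe_biUnion, Set.mem_iUnion]
  refine ⟨d, ?_, y'.natAbs, ?_, ?_⟩
  · rw [Finset.mem_coe, Finset.mem_Ioc]
    refine ⟨(Nat.floor_lt (by linarith)).2 hd, le_trans (Nat.le_mul_of_pos_right d hyn) hN⟩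
  · rw [Finset.mem_coe, Finset.mem_Icc]
    refine ⟨hyn, (Nat.le_div_iff_mul_le hd0').2 ?_⟩
    rw [mul_comm]
    exact hN
  · rw [Finset.mem_coe, Finset.mem_image]
    refine ⟨(a', y'.sign), ?_, ?_⟩
    · rw [Finset.mem_product]
      refine ⟨?_, ?_⟩
      · have hA : a'.natAbs ≤ B2_A X d y'.natAbs := by
          apply Nat.le_floor
          rw [le_div_iff₀ hd0]
          apply Real.le_sqrt_of_sq_le
          rw [le_div_iff₀ hdy]
          have e2 : ((a'.natAbs : ℕ) : ℝ) ^ 2 = (a' : ℝ) ^ 2 := by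
            rw [Nat.cast_natAbs, Int.cast_abs, sq_abs]
          rw [mul_pow, e2]
          calc (a' : ℝ) ^ 2 * (d : ℝ) ^ 2 * (d * (y'.natAbs : ℝ))
              = ((d : ℝ) * (a' : ℝ)) ^ 2 * (d * (y'.natAbs : ℝ)) := by ring
            _ ≤ 128 * X := hy2
        rw [Finset.mem_Icc]
        simp only
        omega
      · rcases lt_or_gt_of_ne hy' with h | h
        · simp [Int.sign_eq_neg_one_of_neg h]
        · simp [Int.sign_eq_one_of_pos h]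
    · have e3 : y'.sign * (y'.natAbs : ℤ) = y' := Int.sign_mul_natAbs y'
      simp only [Prod.mk.injEq, true_and]
      linear_combination (d : ℤ) * e3

theorem B2_card (X z : ℝ) (hX : 1 ≤ X) (hz : 1 ≤ z) :
    ((B2_B X z).card : ℝ) ≤ 512 * (X ^ (3 / 4 : ℝ) / z) + 128 * X ^ (2 / 3 : ℝ) := by
  obtain ⟨N, hN⟩ : ∃ N, N = ⌊8 * √X⌋₊ := ⟨_, rfl⟩
  have hsX : 1 ≤ √X := by rw [Real.one_le_sqrt]; exact hX
  have hNle : (N : ℝ) ≤ 8 * √X := by rw [hN]; exact Nat.floor_le (by positivity)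
  have hN1 : 1 ≤ N := by
    rw [hN]
    apply Nat.le_floor
    push_cast
    linarith
  have hN1' : (1 : ℝ) ≤ N := by exact_mod_cast hN1
  have hinner : ∀ d ∈ Finset.Ioc ⌊z⌋₊ N, ((((Finset.Icc 1 (N / d)).biUnion fun y =>
      ((Finset.Icc (-(B2_A X d y : ℤ)) (B2_A X d y)) ×ˢ ({1, -1} : Finset ℤ)).image
        fun p => ((d : ℤ) * p.1, p.2 * ((d : ℤ) * y))).card : ℕ) : ℝ) ≤
        256 * X ^ (3 / 4 : ℝ) * ((d : ℝ) ^ 2)⁻¹ + 2 * (N * (1 / d)) := by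
    intro d hd
    have hd0 : 0 < d := lt_of_le_of_lt (Nat.zero_le _) (Finset.mem_Ioc.1 hd).1
    have hd0' : (0 : ℝ) < d := by exact_mod_cast hd0
    have h1 : ((((Finset.Icc 1 (N / d)).biUnion fun y =>
      ((Finset.Icc (-(B2_A X d y : ℤ)) (B2_A X d y)) ×ˢ ({1, -1} : Finset ℤ)).image
        fun p => ((d : ℤ) * p.1, p.2 * ((d : ℤ) * y))).card : ℕ) : ℝ) ≤
        ∑ y ∈ Finset.Icc 1 (N / d), (4 * (√(128 * X / d) / d) * (1 / √(y : ℝ)) + 2) := by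
      refine le_trans (Nat.cast_le.2 Finset.card_biUnion_le) ?_
      push_cast
      refine Finset.sum_le_sum fun y hy => ?_
      have hy1 : 1 ≤ y := (Finset.mem_Icc.1 hy).1
      have hy0 : (0 : ℝ) < y := by exact_mod_cast hy1
      have h2 : (((Finset.Icc (-(B2_A X d y : ℤ)) (B2_A X d y)) ×ˢ ({1, -1} : Finset ℤ)).image
        fun p => ((d : ℤ) * p.1, p.2 * ((d : ℤ) * y))).card ≤ (2 * B2_A X d y + 1) * 2 := by
        refine le_trans Finset.card_image_le ?_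
        rw [Finset.card_product]
        refine Nat.mul_le_mul (le_of_eq ?_) (Finset.card_le_two)
        rw [Int.card_Icc]
        omega
      refine le_trans (Nat.cast_le.2 h2) ?_
      have h3 : (B2_A X d y : ℝ) ≤ √(128 * X / (d * y)) / d := Nat.floor_le (by positivity)
      have h4 : √(128 * X / (d * y)) = √(128 * X / d) * (1 / √(y : ℝ)) := by
        rw [← div_div, Real.sqrt_div (by positivity) (y : ℝ)]
        ring
      rw [h4] at h3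
      push_cast
      calc (2 * (B2_A X d y : ℝ) + 1) * 2 ≤ (2 * (√(128 * X / d) * (1 / √(y : ℝ)) / d) + 1) * 2 := by
            linarith
        _ = 4 * (√(128 * X / d) / d) * (1 / √(y : ℝ)) + 2 := by ring
    refine le_trans h1 ?_
    rw [Finset.sum_add_distrib, ← Finset.mul_sum, Finset.sum_const, Nat.card_Icc]
    have h5 := B2_sum_sqrt (N / d)
    have h6 : ((N / d : ℕ) : ℝ) ≤ N * (1 / d) := by
      rw [mul_one_div]
      exact Nat.cast_div_le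
    have h7 : √((N / d : ℕ) : ℝ) ≤ √(8 * √X / d) := by
      apply Real.sqrt_le_sqrt
      refine h6.trans ?_
      rw [mul_one_div]
      exact div_le_div_of_nonneg_right hNle hd0'.le
    have h8 : √(128 * X / d) / d * (2 * √(8 * √X / d)) = 64 * X ^ (3 / 4 : ℝ) * ((d : ℝ) ^ 2)⁻¹ := by
      have e1 : √(128 * X / d) * √(8 * √X / d) = 32 * X ^ (3 / 4 : ℝ) / d := by
        rw [← Real.sqrt_mul (by positivity)]
        have e2 : 128 * X / d * (8 * √X / d) = (32 * X ^ (3 / 4 : ℝ) / d) ^ 2 := by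
          have e3 : X * √X = (X ^ (3 / 4 : ℝ)) ^ 2 := by
            rw [Real.sqrt_eq_rpow, ← Real.rpow_natCast (X ^ (3 / 4 : ℝ)) 2, ← Real.rpow_mul (by linarith)]
            nth_rewrite 1 [← Real.rpow_one X]
            rw [← Real.rpow_add (by linarith)]
            norm_num
          rw [div_pow, mul_pow, ← e3]
          field_simp
          ring
        rw [e2, Real.sqrt_sq (by positivity)]
      calc √(128 * X / d) / d * (2 * √(8 * √X / d)) = 2 * (√(128 * X / d) * √(8 * √X / d)) / d := by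
            ring
        _ = 64 * X ^ (3 / 4 : ℝ) * ((d : ℝ) ^ 2)⁻¹ := by
            rw [e1]
            field_simp
            ring
    have h9 : 4 * (√(128 * X / d) / d) * ∑ y ∈ Finset.Icc 1 (N / d), 1 / √(y : ℝ) ≤
        256 * X ^ (3 / 4 : ℝ) * ((d : ℝ) ^ 2)⁻¹ := by
      calc 4 * (√(128 * X / d) / d) * ∑ y ∈ Finset.Icc 1 (N / d), 1 / √(y : ℝ)
          ≤ 4 * (√(128 * X / d) / d) * (2 * √(8 * √X / d)) := by
            apply mul_le_mul_of_nonneg_left _ (by positivity)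
            linarith
        _ = 4 * (√(128 * X / d) / d * (2 * √(8 * √X / d))) := by ring
        _ = 256 * X ^ (3 / 4 : ℝ) * ((d : ℝ) ^ 2)⁻¹ := by rw [h8]; ring
    have h10 : (N / d + 1 - 1) • (2 : ℝ) ≤ 2 * (N * (1 / d)) := by
      rw [Nat.add_sub_cancel, nsmul_eq_mul]
      linarith
    exact add_le_add h9 h10
  have hB : ((B2_B X z).card : ℝ) ≤ ∑ d ∈ Finset.Ioc ⌊z⌋₊ N,
      (256 * X ^ (3 / 4 : ℝ) * ((d : ℝ) ^ 2)⁻¹ + 2 * (N * (1 / d))) := by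
    unfold B2_B
    rw [← hN]
    refine le_trans (Nat.cast_le.2 Finset.card_biUnion_le) ?_
    push_cast
    exact Finset.sum_le_sum hinner
  refine le_trans hB ?_
  rw [Finset.sum_add_distrib, ← Finset.mul_sum, ← Finset.mul_sum, ← Finset.mul_sum]
  have hm1 : 1 ≤ ⌊z⌋₊ := by
    apply Nat.le_floor
    push_cast
    exact hz
  have hm1' : (1 : ℝ) ≤ ⌊z⌋₊ := by exact_mod_cast hm1
  have hX34 : 0 ≤ X ^ (3 / 4 : ℝ) := by positivity
  have s1 : ∑ d ∈ Finset.Ioc ⌊z⌋₊ N, ((d : ℝ) ^ 2)⁻¹ ≤ 2 / z := by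
    have h1 : ∑ d ∈ Finset.Ioc ⌊z⌋₊ N, ((d : ℝ) ^ 2)⁻¹ ≤ (⌊z⌋₊ : ℝ)⁻¹ := by
      rcases le_total ⌊z⌋₊ N with h | h
      · have h2 := sum_Ioc_inv_sq_le_sub (α := ℝ) (show ⌊z⌋₊ ≠ 0 by omega) h
        have h3 : (0 : ℝ) ≤ (N : ℝ)⁻¹ := by positivity
        linarith
      · rw [Finset.Ioc_eq_empty_of_le h, Finset.sum_empty]
        positivity
    refine h1.trans ?_
    have h2 : z < ⌊z⌋₊ + 1 := Nat.lt_floor_add_one z
    rw [inv_le_comm₀ (by linarith) (by positivity), inv_div]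
    linarith
  have s2 : ∑ d ∈ Finset.Ioc ⌊z⌋₊ N, 1 / (d : ℝ) ≤ 1 + Real.log N := by
    refine le_trans ?_ (B2_sum_inv N)
    apply Finset.sum_le_sum_of_subset_of_nonneg
    · intro d hd
      rw [Finset.mem_Ioc] at hd
      rw [Finset.mem_Icc]
      omega
    · intro d _ _
      positivity
  have s3 : (N : ℝ) * (1 + Real.log N) ≤ 64 * X ^ (2 / 3 : ℝ) := by
    have h1 : Real.log N ≤ (N : ℝ) ^ (1 / 3 : ℝ) / (1 / 3) :=
      Real.log_le_rpow_div (by positivity) (by norm_num)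
    have h2 : (1 : ℝ) ≤ (N : ℝ) ^ (1 / 3 : ℝ) := Real.one_le_rpow hN1' (by norm_num)
    have h3 : (N : ℝ) * (N : ℝ) ^ (1 / 3 : ℝ) = (N : ℝ) ^ (4 / 3 : ℝ) := by
      nth_rewrite 1 [← Real.rpow_one (N : ℝ)]
      rw [← Real.rpow_add (by linarith)]
      norm_num
    have h4 : (N : ℝ) ^ (4 / 3 : ℝ) ≤ (8 * √X) ^ (4 / 3 : ℝ) :=
      Real.rpow_le_rpow (by positivity) hNle (by norm_num)
    have h5 : (8 * √X) ^ (4 / 3 : ℝ) = 16 * X ^ (2 / 3 : ℝ) := by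
      rw [Real.mul_rpow (by norm_num) (by positivity), Real.sqrt_eq_rpow, ← Real.rpow_mul (by linarith)]
      have e1 : (8 : ℝ) ^ (4 / 3 : ℝ) = 16 := by
        rw [show (8 : ℝ) = 2 ^ (3 : ℝ) by norm_num, ← Real.rpow_mul (by norm_num)]
        norm_num
      rw [e1]
      norm_num
    calc (N : ℝ) * (1 + Real.log N) ≤ N * (4 * (N : ℝ) ^ (1 / 3 : ℝ)) := by
          apply mul_le_mul_of_nonneg_left _ (by positivity)
          rw [div_div_eq_mul_div, div_one] at h1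
          linarith
      _ = 4 * (N : ℝ) ^ (4 / 3 : ℝ) := by rw [← h3]; ring
      _ ≤ 4 * (16 * X ^ (2 / 3 : ℝ)) := by rw [← h5]; linarith
      _ = 64 * X ^ (2 / 3 : ℝ) := by ring
  have t1 : 256 * X ^ (3 / 4 : ℝ) * ∑ d ∈ Finset.Ioc ⌊z⌋₊ N, ((d : ℝ) ^ 2)⁻¹ ≤
      512 * (X ^ (3 / 4 : ℝ) / z) := by
    calc 256 * X ^ (3 / 4 : ℝ) * ∑ d ∈ Finset.Ioc ⌊z⌋₊ N, ((d : ℝ) ^ 2)⁻¹
        ≤ 256 * X ^ (3 / 4 : ℝ) * (2 / z) := mul_le_mul_of_nonneg_left s1 (by positivity)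
      _ = 512 * (X ^ (3 / 4 : ℝ) / z) := by ring
  have t2 : 2 * ((N : ℝ) * ∑ d ∈ Finset.Ioc ⌊z⌋₊ N, 1 / (d : ℝ)) ≤ 128 * X ^ (2 / 3 : ℝ) := by
    have : (N : ℝ) * ∑ d ∈ Finset.Ioc ⌊z⌋₊ N, 1 / (d : ℝ) ≤ N * (1 + Real.log N) :=
      mul_le_mul_of_nonneg_left s2 (by positivity)
    linarith
  exact add_le_add t1 t2

theorem B2_P_card (X z : ℝ) (hX : 1 ≤ X) (hz : 1 ≤ z) : (B2_P X z).Finite ∧
    (((B2_P X z).ncard : ℕ) : ℝ) ≤ 512 * (X ^ (3 / 4 : ℝ) / z) + 128 * X ^ (2 / 3 : ℝ) := by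
  have hs := B2_sub X z hX hz
  refine ⟨(Finset.finite_toSet _).subset hs, ?_⟩
  refine le_trans ?_ (B2_card X z hX hz)
  rw [Nat.cast_le, ← Set.ncard_coe_finset]
  exact Set.ncard_le_ncard hs (Finset.finite_toSet _)

theorem tail_gcd : ∃ C : ℝ, 0 < C ∧ ∀ X z : ℝ, 1 ≤ X → 1 ≤ z →
    (({w ∈ Rg X | ∃ d : ℕ, z < d ∧ (d : ℤ) ∣ w.1 ∧ (d : ℤ) ∣ w.2}.ncard : ℕ) : ℝ) ≤
      C * (X ^ (3 / 4 : ℝ) / z + X ^ (2 / 3 : ℝ)) := by
  refine ⟨1024, by norm_num, fun X z hX hz => ?_⟩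
  obtain ⟨hfin, hcard⟩ := B2_P_card X z hX hz
  obtain ⟨S, hS⟩ : ∃ S, S = {w ∈ Rg X | ∃ d : ℕ, z < d ∧ (d : ℤ) ∣ w.1 ∧ (d : ℤ) ∣ w.2} := ⟨_, rfl⟩
  rw [← hS]
  have hSfin : S.Finite := by rw [hS]; exact (Rg_finite X).subset (Set.sep_subset _ _)
  have hsX : 0 ≤ √X := Real.sqrt_nonneg _
  have hsX2 : √X ^ 2 = X := Real.sq_sqrt (by linarith)
  -- two cases
  have hsub : S ⊆ {w ∈ S | w ∈ B2_P X z} ∪ {w ∈ S | (w.1, cc w) ∈ B2_P X z} := by
    intro w hw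
    have hw' := hw
    rw [hS] at hw'
    obtain ⟨⟨h2, hc, hn⟩, d, hd, ha, hb⟩ := hw'
    rw [nn_eq] at hn
    push_cast at hn
    have b1 : (1 : ℝ) ≤ (w.2.natAbs : ℝ) := by exact_mod_cast Int.natAbs_pos.2 h2
    have c1 : (1 : ℝ) ≤ ((cc w).natAbs : ℝ) := by exact_mod_cast Int.natAbs_pos.2 hc
    have e : (w.1 : ℝ) ^ 2 = 64 * (w.2 : ℝ) + ((cc w : ℤ) : ℝ) := by
      rw [cc]; push_cast; ring
    have g1 : (w.2 : ℝ) ≤ (w.2.natAbs : ℝ) := by
      rw [Nat.cast_natAbs, Int.cast_abs]; exact le_abs_self _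
    have g2 : ((cc w : ℤ) : ℝ) ≤ ((cc w).natAbs : ℝ) := by
      rw [Nat.cast_natAbs, Int.cast_abs]; exact le_abs_self _
    rcases le_total (64 * (w.2.natAbs : ℝ)) ((cc w).natAbs : ℝ) with h | h
    · left
      refine ⟨hw, h2, ?_, ?_, d, hd, ha, hb⟩
      · have h3 : (w.2.natAbs : ℝ) ^ 2 ≤ (8 * √X) ^ 2 := by
          rw [mul_pow, hsX2]
          nlinarith
        exact le_of_sq_le_sq h3 (by positivity)
      · rw [e]
        nlinarith
    · right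
      refine ⟨hw, hc, ?_, ?_, d, hd, ha, ?_⟩
      · have h3 : ((cc w).natAbs : ℝ) ^ 2 ≤ (8 * √X) ^ 2 := by
          rw [mul_pow, hsX2]
          nlinarith
        exact le_of_sq_le_sq h3 (by positivity)
      · simp only
        rw [e]
        nlinarith
      · simp only [cc]
        exact dvd_sub (dvd_pow ha two_ne_zero) (Dvd.dvd.mul_left hb _)
  have k1 : {w ∈ S | w ∈ B2_P X z}.ncard ≤ (B2_P X z).ncard :=
    Set.ncard_le_ncard (fun w hw => hw.2) hfin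
  have k2 : {w ∈ S | (w.1, cc w) ∈ B2_P X z}.ncard ≤ (B2_P X z).ncard := by
    refine Set.ncard_le_ncard_of_injOn (fun w => (w.1, cc w)) (fun w hw => hw.2) ?_ hfin
    rintro ⟨a, b⟩ _ ⟨a', b'⟩ _ h
    simp only [cc, Prod.mk.injEq] at h
    obtain ⟨h1, h2⟩ := h
    subst h1
    have : b = b' := by linarith
    rw [this]
  have k3 : S.ncard ≤ (B2_P X z).ncard + (B2_P X z).ncard := by
    refine le_trans (Set.ncard_le_ncard hsub ?_) ((Set.ncard_union_le _ _).trans (by omega))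
    exact (hSfin.subset (Set.sep_subset _ _)).union (hSfin.subset (Set.sep_subset _ _))
  have k4 : (S.ncard : ℝ) ≤ (B2_P X z).ncard + (B2_P X z).ncard := by exact_mod_cast k3
  have k5 : 0 ≤ X ^ (2 / 3 : ℝ) := by positivity
  have k6 : 0 ≤ X ^ (3 / 4 : ℝ) / z := by positivity
  linarith

end As

end Pool.Agent.Lib.MP_d8bd92_nt
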