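import Pool.Agent.Lib.MP_d8bd92_nt.As.A1c

set_option autoImplicit false

/-!
ROW as-B3. Few good pairs with large excess `|bc| / rad |bc|`.

PROOF of sum_conv: dyadic blocks, `sum_inv_rd` (TwRad) with exponent 1/40: ∑_{2^i <= k < 2^(i+1)} k^(-1/20)/rd k <= C 2^(-i/20) 2^((i+1)/40).
PROOF of excess. w good, n = |b||c|, b and c coprime (a odd), rd n = rd|b| rd|c|; |b| = k1 rd|b|, |c| = k2 rd|c| (rd m | m),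
k = k1 k2 = n/rd n in (K, Y^(1/40)], n = k rd n <= k Y. s1 = k1 rd k1 divides b (rd k1 | rd b as k1 | b), s2 = k2 rd k2 | c, s2 odd
(c odd), s1, s2 coprime. By `upper_div` with X = k1 k2 Y the number is at most
∑_{k1,k2 <= Y^(1/40), k1 k2 > K} C ((k1 k2 Y)^(3/4)/(k1 rd k1 k2 rd k2) + (k1 k2 Y)^(1/2)); first part:
Y^(3/4) (k1k2)^(-1/4)/(rd k1 rd k2) <= Y^(3/4) K^(-1/5) (k1k2)^(-1/20)/(rd k1 rd k2), by sum_conv <= C Y^(3/4) K^(-1/5);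
second part: <= Y^(1/20) (Y^(1/40) Y)^(1/2) <= Y^(7/10).
-/

namespace Pool.Agent.Lib.MP_d8bd92_nt

namespace As

open Finset Filter Topology Pool.Agent.Lib.Szpiro

theorem sum_conv : ∃ C : ℝ, 0 < C ∧ ∀ Z : ℕ,
    ∑ k ∈ Icc 1 Z, (k : ℝ) ^ (-(1 / 20) : ℝ) * ((rd k : ℕ) : ℝ)⁻¹ ≤ C := by
  obtain ⟨C, hC1, hC⟩ := sum_inv_rd (1 / 40) (by norm_num)
  set ρ : ℝ := (2 : ℝ) ^ (-(1 / 40) : ℝ) with hρ
  have hρ0 : 0 < ρ := by positivity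
  have hρ1 : ρ < 1 := Real.rpow_lt_one_of_one_lt_of_neg (by norm_num) (by norm_num)
  set D : ℝ := C * (2 : ℝ) ^ (1 / 40 : ℝ) with hD
  have hD0 : 0 < D := by positivity
  have h1 : 0 < 1 - ρ := by linarith
  have hf0 : ∀ k : ℕ, 0 ≤ (k : ℝ) ^ (-(1 / 20) : ℝ) * ((rd k : ℕ) : ℝ)⁻¹ := fun k => by positivity
  have hblock : ∀ j : ℕ, ∑ k ∈ Ico ((2:ℕ) ^ j) ((2:ℕ) ^ (j + 1)),
      (k : ℝ) ^ (-(1 / 20) : ℝ) * ((rd k : ℕ) : ℝ)⁻¹ ≤ D * ρ ^ j := by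
    intro j
    have e1 : ∑ k ∈ Ico ((2:ℕ) ^ j) ((2:ℕ) ^ (j + 1)), (k : ℝ) ^ (-(1 / 20) : ℝ) * ((rd k : ℕ) : ℝ)⁻¹ ≤
        ∑ k ∈ Ico ((2:ℕ) ^ j) ((2:ℕ) ^ (j + 1)), ((2 : ℝ) ^ j) ^ (-(1 / 20) : ℝ) * ((rd k : ℕ) : ℝ)⁻¹ := by
      apply Finset.sum_le_sum
      intro k hk
      rw [Finset.mem_Ico] at hk
      have hk' : ((2 : ℝ) ^ j) ≤ (k : ℝ) := by exact_mod_cast hk.1
      apply mul_le_mul_of_nonneg_right _ (by positivity)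
      exact Real.rpow_le_rpow_of_nonpos (by positivity) hk' (by norm_num)
    have e2 : ∑ k ∈ Ico ((2:ℕ) ^ j) ((2:ℕ) ^ (j + 1)), ((rd k : ℕ) : ℝ)⁻¹ ≤
        ∑ k ∈ Icc (1:ℕ) ((2:ℕ) ^ (j + 1)), ((rd k : ℕ) : ℝ)⁻¹ := by
      apply Finset.sum_le_sum_of_subset_of_nonneg
      · intro k hk
        rw [Finset.mem_Ico] at hk
        rw [Finset.mem_Icc]
        exact ⟨le_trans Nat.one_le_two_pow hk.1, hk.2.le⟩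
      · intro k _ _
        positivity
    have e3 := hC (2 ^ (j + 1)) Nat.one_le_two_pow
    have e4 : ((2 : ℝ) ^ j) ^ (-(1 / 20) : ℝ) * (C * (((2 ^ (j + 1) : ℕ) : ℝ)) ^ (1 / 40 : ℝ)) = D * ρ ^ j := by
      have c1 : (((2 ^ (j + 1) : ℕ) : ℝ)) ^ (1 / 40 : ℝ) = ((2 : ℝ) ^ j) ^ (1 / 40 : ℝ) * (2 : ℝ) ^ (1 / 40 : ℝ) := by
        push_cast
        rw [pow_succ, Real.mul_rpow (by positivity) (by norm_num)]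
      have c2 : ρ ^ j = ((2 : ℝ) ^ j) ^ (-(1 / 20) : ℝ) * ((2 : ℝ) ^ j) ^ (1 / 40 : ℝ) := by
        rw [← Real.rpow_add (by positivity), hρ, ← Real.rpow_natCast, ← Real.rpow_natCast,
          ← Real.rpow_mul (by norm_num), ← Real.rpow_mul (by norm_num)]
        congr 1
        ring
      rw [c1, c2, hD]
      ring
    calc _ ≤ _ := e1
      _ = ((2 : ℝ) ^ j) ^ (-(1 / 20) : ℝ) * ∑ k ∈ Ico ((2:ℕ) ^ j) ((2:ℕ) ^ (j + 1)), ((rd k : ℕ) : ℝ)⁻¹ := by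
          rw [Finset.mul_sum]
      _ ≤ ((2 : ℝ) ^ j) ^ (-(1 / 20) : ℝ) * (C * (((2 ^ (j + 1) : ℕ) : ℝ)) ^ (1 / 40 : ℝ)) :=
          mul_le_mul_of_nonneg_left (e2.trans e3) (by positivity)
      _ = D * ρ ^ j := e4
  have hmain : ∀ i : ℕ, ∑ k ∈ Ico (1:ℕ) ((2:ℕ) ^ i), (k : ℝ) ^ (-(1 / 20) : ℝ) * ((rd k : ℕ) : ℝ)⁻¹ ≤
      D / (1 - ρ) * (1 - ρ ^ i) := by
    intro i
    induction i with
    | zero => simp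
    | succ i ih =>
      have hs : ∑ k ∈ Ico (1:ℕ) ((2:ℕ) ^ (i + 1)), (k : ℝ) ^ (-(1 / 20) : ℝ) * ((rd k : ℕ) : ℝ)⁻¹ =
          ∑ k ∈ Ico (1:ℕ) ((2:ℕ) ^ i), (k : ℝ) ^ (-(1 / 20) : ℝ) * ((rd k : ℕ) : ℝ)⁻¹ +
          ∑ k ∈ Ico ((2:ℕ) ^ i) ((2:ℕ) ^ (i + 1)), (k : ℝ) ^ (-(1 / 20) : ℝ) * ((rd k : ℕ) : ℝ)⁻¹ :=
        (Finset.sum_Ico_consecutive _ Nat.one_le_two_pow
          (Nat.pow_le_pow_right (by norm_num) (Nat.le_succ i))).symm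
      rw [hs]
      have h2 := hblock i
      have h3 : D / (1 - ρ) * (1 - ρ ^ (i + 1)) = D / (1 - ρ) * (1 - ρ ^ i) + D * ρ ^ i := by
        field_simp
        ring
      rw [h3]
      linarith
  refine ⟨D / (1 - ρ), by positivity, fun Z => ?_⟩
  have hsub : ∑ k ∈ Icc 1 Z, (k : ℝ) ^ (-(1 / 20) : ℝ) * ((rd k : ℕ) : ℝ)⁻¹ ≤
      ∑ k ∈ Ico (1:ℕ) ((2:ℕ) ^ (Z + 1)), (k : ℝ) ^ (-(1 / 20) : ℝ) * ((rd k : ℕ) : ℝ)⁻¹ := by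
    apply Finset.sum_le_sum_of_subset_of_nonneg
    · intro k hk
      rw [Finset.mem_Icc] at hk
      rw [Finset.mem_Ico]
      refine ⟨hk.1, lt_of_le_of_lt hk.2 (lt_of_lt_of_le (Nat.lt_succ_self Z) ?_)⟩
      exact (Nat.lt_two_pow_self).le
    · intro k _ _
      exact hf0 k
  have h4 := hmain (Z + 1)
  have h5 : D / (1 - ρ) * (1 - ρ ^ (Z + 1)) ≤ D / (1 - ρ) := by
    have : 0 < ρ ^ (Z + 1) := by positivity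
    have : 0 < D / (1 - ρ) := by positivity
    nlinarith
  linarith

theorem B3_rd_dvd (n : ℕ) : rd n ∣ n := by
  unfold rd
  exact Nat.prod_primeFactors_dvd n

theorem B3_rd_dvd_rd {m n : ℕ} (hn : n ≠ 0) (h : m ∣ n) : rd m ∣ rd n := by
  unfold rd
  exact Finset.prod_dvd_prod_of_subset _ _ _ (Nat.primeFactors_mono h hn)

/-- a number `m = k rd m` is divisible by `k rd k` -/
theorem B3_split (m : ℕ) (hm : m ≠ 0) : ∃ k : ℕ, 0 < k ∧ m = k * rd m ∧ k * rd k ∣ m := by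
  obtain ⟨k, hk⟩ := B3_rd_dvd m
  have hk0 : k ≠ 0 := by
    rintro rfl
    exact hm (by rw [hk, mul_zero])
  have hkm : k ∣ m := ⟨rd m, by rw [mul_comm]; exact hk⟩
  refine ⟨k, Nat.pos_of_ne_zero hk0, by rw [mul_comm]; exact hk, ?_⟩
  have h1 : k * rd k ∣ k * rd m := Nat.mul_dvd_mul_left k (B3_rd_dvd_rd hm hkm)
  have h2 : k * rd m = m := by rw [mul_comm]; exact hk.symm
  rwa [h2] at h1

/-- the arithmetic of a good pair -/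
theorem B3_good (w : ℤ × ℤ) (hw : Good w) : Nat.Coprime w.2.natAbs (cc w).natAbs ∧
    Odd (cc w).natAbs := by
  obtain ⟨h4, hb, hc, hab⟩ := hw
  have hodd : Odd w.1 := Int.odd_iff.mpr (by omega)
  constructor
  · have h1 : IsCoprime w.2 (w.1 ^ 2) := hab.symm.pow_right
    have h2 : cc w = w.1 ^ 2 + w.2 * (-64) := by rw [cc]; ring
    have h3 : IsCoprime w.2 (cc w) := by
      rw [h2]
      exact h1.add_mul_left_right _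
    exact Int.isCoprime_iff_gcd_eq_one.mp h3
  · rw [Int.natAbs_odd, cc]
    exact (hodd.pow).sub_even ⟨32 * w.2, by ring⟩

/-- the covering of the set -/
theorem B3_cover (Y K : ℝ) (w : ℤ × ℤ)
    (hw : Good w ∧ ((rd (nn w) : ℕ) : ℝ) ≤ Y ∧ K * ((rd (nn w) : ℕ) : ℝ) < ((nn w : ℕ) : ℝ) ∧
      ((nn w : ℕ) : ℝ) ≤ Y ^ (1 / 40 : ℝ) * ((rd (nn w) : ℕ) : ℝ)) :
    ∃ k1 k2 : ℕ, 0 < k1 ∧ 0 < k2 ∧ K < (k1 : ℝ) * k2 ∧ (k1 : ℝ) * k2 ≤ Y ^ (1 / 40 : ℝ) ∧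
      Nat.Coprime (k1 * rd k1) (k2 * rd k2) ∧ Odd (k2 * rd k2) ∧
      w ∈ {w ∈ Rg ((k1 : ℝ) * k2 * Y) | ((k1 * rd k1 : ℕ) : ℤ) ∣ w.2 ∧ ((k2 * rd k2 : ℕ) : ℤ) ∣ cc w} := by
  obtain ⟨hg, h1, h2, h3⟩ := hw
  obtain ⟨hcop, hodd⟩ := B3_good w hg
  obtain ⟨h4, hb, hc, hab⟩ := hg
  have hb' : w.2.natAbs ≠ 0 := Int.natAbs_ne_zero.mpr hb
  have hc' : (cc w).natAbs ≠ 0 := Int.natAbs_ne_zero.mpr hc
  obtain ⟨k1, hk1, e1, d1⟩ := B3_split _ hb'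
  obtain ⟨k2, hk2, e2, d2⟩ := B3_split _ hc'
  have hrd : rd (nn w) = rd w.2.natAbs * rd (cc w).natAbs := by
    rw [nn_eq]
    exact rd_mul_coprime _ _ hb' hc' hcop
  have hnn : nn w = k1 * k2 * rd (nn w) := by
    rw [hrd, nn_eq]
    conv_lhs => rw [e1, e2]
    ring
  have hr0 : (0 : ℝ) < ((rd (nn w) : ℕ) : ℝ) := by exact_mod_cast rd_pos _
  have hnnR : ((nn w : ℕ) : ℝ) = (k1 : ℝ) * k2 * ((rd (nn w) : ℕ) : ℝ) := by exact_mod_cast hnn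
  rw [hnnR] at h2 h3
  have hkk : (0 : ℝ) ≤ (k1 : ℝ) * k2 := by positivity
  refine ⟨k1, k2, hk1, hk2, lt_of_mul_lt_mul_right h2 hr0.le, le_of_mul_le_mul_right h3 hr0, ?_, ?_,
    ⟨⟨hb, hc, ?_⟩, ?_, ?_⟩⟩
  · exact (hcop.coprime_dvd_left d1).coprime_dvd_right d2
  · exact hodd.of_dvd_nat d2
  · rw [hnnR]
    exact mul_le_mul_of_nonneg_left h1 hkk
  · exact Int.natCast_dvd.mpr d1
  · exact Int.natCast_dvd.mpr d2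

/-- the exponents of the first part -/
theorem B3_first (Y K k1 k2 r1 r2 : ℝ) (hY : 1 ≤ Y) (hK : 1 ≤ K) (h1 : 0 < k1) (h2 : 0 < k2)
    (hr1 : 0 < r1) (hr2 : 0 < r2) (hk : K < k1 * k2) :
    (k1 * k2 * Y) ^ (3 / 4 : ℝ) / (k1 * r1 * (k2 * r2)) ≤
      Y ^ (3 / 4 : ℝ) * K ^ (-(1 / 5) : ℝ) * ((k1 ^ (-(1 / 20) : ℝ) * r1⁻¹) * (k2 ^ (-(1 / 20) : ℝ) * r2⁻¹)) := by
  have hY0 : 0 < Y := by linarith
  have hK0 : 0 < K := by linarith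
  have hkk : 0 < k1 * k2 := mul_pos h1 h2
  have e1 : (k1 * k2 * Y) ^ (3 / 4 : ℝ) = (k1 * k2) * ((k1 * k2) ^ (-(1 / 5) : ℝ) *
      (k1 ^ (-(1 / 20) : ℝ) * k2 ^ (-(1 / 20) : ℝ))) * Y ^ (3 / 4 : ℝ) := by
    rw [Real.mul_rpow hkk.le hY0.le, ← Real.mul_rpow h1.le h2.le, ← Real.rpow_add hkk]
    congr 1
    nth_rewrite 2 [← Real.rpow_one (k1 * k2)]
    rw [← Real.rpow_add hkk]
    norm_num
  have e2 : (k1 * k2 * Y) ^ (3 / 4 : ℝ) / (k1 * r1 * (k2 * r2)) =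
      Y ^ (3 / 4 : ℝ) * (k1 * k2) ^ (-(1 / 5) : ℝ) *
        ((k1 ^ (-(1 / 20) : ℝ) * r1⁻¹) * (k2 ^ (-(1 / 20) : ℝ) * r2⁻¹)) := by
    rw [e1]
    field_simp
  rw [e2]
  have e3 : (k1 * k2) ^ (-(1 / 5) : ℝ) ≤ K ^ (-(1 / 5) : ℝ) :=
    Real.rpow_le_rpow_of_nonpos hK0 hk.le (by norm_num)
  have h5 : 0 ≤ (k1 ^ (-(1 / 20) : ℝ) * r1⁻¹) * (k2 ^ (-(1 / 20) : ℝ) * r2⁻¹) := by positivity
  have h6 : 0 ≤ Y ^ (3 / 4 : ℝ) := by positivity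
  exact mul_le_mul_of_nonneg_right (mul_le_mul_of_nonneg_left e3 h6) h5

theorem excess : ∃ C : ℝ, 0 < C ∧ ∀ Y K : ℝ, 1 ≤ Y → 1 ≤ K →
    {w : ℤ × ℤ | Good w ∧ ((rd (nn w) : ℕ) : ℝ) ≤ Y ∧ K * ((rd (nn w) : ℕ) : ℝ) < ((nn w : ℕ) : ℝ) ∧
      ((nn w : ℕ) : ℝ) ≤ Y ^ (1 / 40 : ℝ) * ((rd (nn w) : ℕ) : ℝ)}.Finite ∧
    (({w : ℤ × ℤ | Good w ∧ ((rd (nn w) : ℕ) : ℝ) ≤ Y ∧ K * ((rd (nn w) : ℕ) : ℝ) < ((nn w : ℕ) : ℝ) ∧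
      ((nn w : ℕ) : ℝ) ≤ Y ^ (1 / 40 : ℝ) * ((rd (nn w) : ℕ) : ℝ)}.ncard : ℕ) : ℝ) ≤
      C * (Y ^ (3 / 4 : ℝ) * K ^ (-(1 / 5) : ℝ) + Y ^ (7 / 10 : ℝ)) := by
  classical
  obtain ⟨C0, hC0, h0⟩ := sum_conv
  obtain ⟨C1, hC1, h1⟩ := upper_div
  refine ⟨C1 * (C0 ^ 2 + 1), by positivity, fun Y K hY hK => ?_⟩
  have hY0 : 0 < Y := by linarith
  have hK0 : 0 < K := by linarith
  set E : Set (ℤ × ℤ) := {w : ℤ × ℤ | Good w ∧ ((rd (nn w) : ℕ) : ℝ) ≤ Y ∧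
      K * ((rd (nn w) : ℕ) : ℝ) < ((nn w : ℕ) : ℝ) ∧
      ((nn w : ℕ) : ℝ) ≤ Y ^ (1 / 40 : ℝ) * ((rd (nn w) : ℕ) : ℝ)} with hE
  set y : ℝ := Y ^ (1 / 40 : ℝ) with hy
  have hy0 : 0 < y := by positivity
  have hy1 : 1 ≤ y := Real.one_le_rpow hY (by norm_num)
  have hfin : E.Finite := by
    refine (Rg_finite (y * Y)).subset ?_
    rintro w ⟨hg, a1, a2, a3⟩
    exact ⟨hg.2.1, hg.2.2.1, a3.trans (mul_le_mul_of_nonneg_left a1 hy0.le)⟩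
  refine ⟨hfin, ?_⟩
  set Z : ℕ := ⌊y⌋₊ with hZ
  set I : Finset (ℕ × ℕ) := (Icc 1 Z ×ˢ Icc 1 Z).filter (fun k => K < (k.1 : ℝ) * k.2 ∧
    (k.1 : ℝ) * k.2 ≤ y ∧ Nat.Coprime (k.1 * rd k.1) (k.2 * rd k.2) ∧ Odd (k.2 * rd k.2)) with hI
  set S : ℕ × ℕ → Set (ℤ × ℤ) := fun k => {w ∈ Rg ((k.1 : ℝ) * k.2 * Y) |
    ((k.1 * rd k.1 : ℕ) : ℤ) ∣ w.2 ∧ ((k.2 * rd k.2 : ℕ) : ℤ) ∣ cc w} with hS
  have hSfin : ∀ k, (S k).Finite := fun k => (Rg_finite _).subset fun w hw => hw.1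
  have hsub : E ⊆ ⋃ k ∈ I, S k := by
    intro w hw
    obtain ⟨k1, k2, p1, p2, q1, q2, q3, q4, q5⟩ := B3_cover Y K w hw
    have r1 : (1 : ℝ) ≤ (k1 : ℝ) := by exact_mod_cast p1
    have r2 : (1 : ℝ) ≤ (k2 : ℝ) := by exact_mod_cast p2
    have m1 : k1 ≤ Z := Nat.le_floor (by nlinarith)
    have m2 : k2 ≤ Z := Nat.le_floor (by nlinarith)
    refine Set.mem_biUnion (x := (k1, k2)) ?_ q5
    rw [Finset.mem_coe, hI, Finset.mem_filter, Finset.mem_product, Finset.mem_Icc, Finset.mem_Icc]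
    exact ⟨⟨⟨p1, m1⟩, ⟨p2, m2⟩⟩, q1, q2, q3, q4⟩
  have hcard : ((E.ncard : ℕ) : ℝ) ≤ ∑ k ∈ I, (((S k).ncard : ℕ) : ℝ) := by
    have g1 : E.ncard ≤ (⋃ k ∈ I, S k).ncard :=
      Set.ncard_le_ncard hsub (I.finite_toSet.biUnion fun k _ => hSfin k)
    have g2 : (⋃ k ∈ I, S k).ncard ≤ ∑ k ∈ I, (S k).ncard := Finset.set_ncard_biUnion_le I S
    exact_mod_cast g1.trans g2
  -- each term
  have hterm : ∀ k ∈ I, (((S k).ncard : ℕ) : ℝ) ≤ C1 * (Y ^ (3 / 4 : ℝ) * K ^ (-(1 / 5) : ℝ) *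
      (((k.1 : ℝ) ^ (-(1 / 20) : ℝ) * ((rd k.1 : ℕ) : ℝ)⁻¹) *
        ((k.2 : ℝ) ^ (-(1 / 20) : ℝ) * ((rd k.2 : ℕ) : ℝ)⁻¹)) + (y * Y) ^ (1 / 2 : ℝ)) := by
    intro k hk
    rw [hI, Finset.mem_filter, Finset.mem_product, Finset.mem_Icc, Finset.mem_Icc] at hk
    obtain ⟨⟨⟨p1, _⟩, ⟨p2, _⟩⟩, q1, q2, q3, q4⟩ := hk
    have hk1 : (0 : ℝ) < (k.1 : ℝ) := by exact_mod_cast p1
    have hk2 : (0 : ℝ) < (k.2 : ℝ) := by exact_mod_cast p2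
    have hX : 1 ≤ (k.1 : ℝ) * k.2 * Y := by
      have : 1 ≤ (k.1 : ℝ) * k.2 := (hK.trans q1.le)
      nlinarith
    have g := h1 (k.1 * rd k.1) (k.2 * rd k.2) ((k.1 : ℝ) * k.2 * Y) hX
      (Nat.mul_pos p1 (rd_pos _)) (Nat.mul_pos p2 (rd_pos _)) q3 q4
    refine g.trans (mul_le_mul_of_nonneg_left ?_ hC1.le)
    have hr1 : (0 : ℝ) < ((rd k.1 : ℕ) : ℝ) := by exact_mod_cast rd_pos _
    have hr2 : (0 : ℝ) < ((rd k.2 : ℕ) : ℝ) := by exact_mod_cast rd_pos _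
    refine add_le_add ?_ ?_
    · have g1 := B3_first Y K k.1 k.2 (rd k.1) (rd k.2) hY hK hk1 hk2 hr1 hr2 q1
      push_cast
      exact g1
    · refine Real.rpow_le_rpow (by positivity) ?_ (by norm_num)
      exact mul_le_mul_of_nonneg_right q2 hY0.le
  have hsum1 : ∑ k ∈ I, (((k.1 : ℝ) ^ (-(1 / 20) : ℝ) * ((rd k.1 : ℕ) : ℝ)⁻¹) *
        ((k.2 : ℝ) ^ (-(1 / 20) : ℝ) * ((rd k.2 : ℕ) : ℝ)⁻¹)) ≤ C0 ^ 2 := by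
    have g1 : ∑ k ∈ I, (((k.1 : ℝ) ^ (-(1 / 20) : ℝ) * ((rd k.1 : ℕ) : ℝ)⁻¹) *
        ((k.2 : ℝ) ^ (-(1 / 20) : ℝ) * ((rd k.2 : ℕ) : ℝ)⁻¹)) ≤
        ∑ k ∈ Icc 1 Z ×ˢ Icc 1 Z, (((k.1 : ℝ) ^ (-(1 / 20) : ℝ) * ((rd k.1 : ℕ) : ℝ)⁻¹) *
        ((k.2 : ℝ) ^ (-(1 / 20) : ℝ) * ((rd k.2 : ℕ) : ℝ)⁻¹)) :=
      Finset.sum_le_sum_of_subset_of_nonneg (Finset.filter_subset _ _) fun k _ _ => by positivity
    have g2 : ∑ k ∈ Icc 1 Z ×ˢ Icc 1 Z, (((k.1 : ℝ) ^ (-(1 / 20) : ℝ) * ((rd k.1 : ℕ) : ℝ)⁻¹) *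
        ((k.2 : ℝ) ^ (-(1 / 20) : ℝ) * ((rd k.2 : ℕ) : ℝ)⁻¹)) =
        (∑ k ∈ Icc 1 Z, (k : ℝ) ^ (-(1 / 20) : ℝ) * ((rd k : ℕ) : ℝ)⁻¹) *
        (∑ k ∈ Icc 1 Z, (k : ℝ) ^ (-(1 / 20) : ℝ) * ((rd k : ℕ) : ℝ)⁻¹) := by
      rw [Finset.sum_product, Finset.sum_mul_sum]
    have g3 := h0 Z
    have g4 : 0 ≤ ∑ k ∈ Icc 1 Z, (k : ℝ) ^ (-(1 / 20) : ℝ) * ((rd k : ℕ) : ℝ)⁻¹ :=
      Finset.sum_nonneg fun k _ => by positivity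
    rw [g2] at g1
    nlinarith
  have hIcard : ((I.card : ℕ) : ℝ) ≤ y ^ 2 := by
    have g1 : I.card ≤ Z * Z := by
      refine (Finset.card_filter_le _ _).trans ?_
      rw [Finset.card_product, Nat.card_Icc]
      simp
    have g2 : (Z : ℝ) ≤ y := Nat.floor_le hy0.le
    have g3 : ((I.card : ℕ) : ℝ) ≤ (Z : ℝ) * Z := by exact_mod_cast g1
    nlinarith [Nat.cast_nonneg (α := ℝ) Z]
  have hsum2 : ((I.card : ℕ) : ℝ) * (y * Y) ^ (1 / 2 : ℝ) ≤ Y ^ (7 / 10 : ℝ) := by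
    have g1 : (y * Y) ^ (1 / 2 : ℝ) = Y ^ (41 / 80 : ℝ) := by
      rw [hy]
      nth_rewrite 2 [← Real.rpow_one Y]
      rw [← Real.rpow_add hY0, ← Real.rpow_mul hY0.le]
      norm_num
    have g2 : y ^ 2 = Y ^ (1 / 20 : ℝ) := by
      rw [hy, ← Real.rpow_natCast, ← Real.rpow_mul hY0.le]
      norm_num
    calc ((I.card : ℕ) : ℝ) * (y * Y) ^ (1 / 2 : ℝ) ≤ y ^ 2 * (y * Y) ^ (1 / 2 : ℝ) :=
          mul_le_mul_of_nonneg_right hIcard (by positivity)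
      _ = Y ^ (1 / 20 + 41 / 80 : ℝ) := by rw [g1, g2, ← Real.rpow_add hY0]
      _ ≤ Y ^ (7 / 10 : ℝ) := Real.rpow_le_rpow_of_exponent_le hY (by norm_num)
  have hA : 0 ≤ Y ^ (3 / 4 : ℝ) * K ^ (-(1 / 5) : ℝ) := by positivity
  have hB : 0 ≤ Y ^ (7 / 10 : ℝ) := by positivity
  calc ((E.ncard : ℕ) : ℝ) ≤ ∑ k ∈ I, (((S k).ncard : ℕ) : ℝ) := hcard
    _ ≤ ∑ k ∈ I, C1 * (Y ^ (3 / 4 : ℝ) * K ^ (-(1 / 5) : ℝ) *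
      (((k.1 : ℝ) ^ (-(1 / 20) : ℝ) * ((rd k.1 : ℕ) : ℝ)⁻¹) *
        ((k.2 : ℝ) ^ (-(1 / 20) : ℝ) * ((rd k.2 : ℕ) : ℝ)⁻¹)) + (y * Y) ^ (1 / 2 : ℝ)) :=
        Finset.sum_le_sum hterm
    _ = C1 * (Y ^ (3 / 4 : ℝ) * K ^ (-(1 / 5) : ℝ) *
      (∑ k ∈ I, (((k.1 : ℝ) ^ (-(1 / 20) : ℝ) * ((rd k.1 : ℕ) : ℝ)⁻¹) *
        ((k.2 : ℝ) ^ (-(1 / 20) : ℝ) * ((rd k.2 : ℕ) : ℝ)⁻¹))) +
        ((I.card : ℕ) : ℝ) * (y * Y) ^ (1 / 2 : ℝ)) := by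
        rw [← Finset.mul_sum, Finset.sum_add_distrib, ← Finset.mul_sum, Finset.sum_const,
          nsmul_eq_mul]
    _ ≤ C1 * (Y ^ (3 / 4 : ℝ) * K ^ (-(1 / 5) : ℝ) * C0 ^ 2 + Y ^ (7 / 10 : ℝ)) := by
        refine mul_le_mul_of_nonneg_left (add_le_add ?_ hsum2) hC1.le
        exact mul_le_mul_of_nonneg_left hsum1 hA
    _ ≤ C1 * (C0 ^ 2 + 1) * (Y ^ (3 / 4 : ℝ) * K ^ (-(1 / 5) : ℝ) + Y ^ (7 / 10 : ℝ)) := by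
        have g1 : 0 ≤ C1 * (Y ^ (3 / 4 : ℝ) * K ^ (-(1 / 5) : ℝ)) := mul_nonneg hC1.le hA
        have g2 : 0 ≤ C1 * C0 ^ 2 * Y ^ (7 / 10 : ℝ) := by positivity
        nlinarith

end As

end Pool.Agent.Lib.MP_d8bd92_nt
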