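import Pool.Agent.Lib.MP_d8bd92_nt.As.Defs

set_option autoImplicit false

/-!
ROW as-D1. Exact classification: the semistable curves with a point of order two are the two families.

PROOF of param. As in `TwCurve` (the theorem before `rd_mul_rd_le`): the point of order 2 has 4x = e integral,
e³ + b₂e² + 8b₄e + 16b₆ = 0. A = b₂ + 3e, B = 3e² + 2b₂e + 8b₄: c₄ = A² - 3B, 2c₆ = A³ - 3c₄A = -A(2A² - 9B), 256Δ = B²(A² - 4B),
and b₂ = a₁² + 4a₂ is 0 or 1 mod 4. gcd(c₄,Δ) = 1.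
A odd: A² - 4B odd, so 16 | B, B = 16b, Δ = b²(A²-64b), c₄ = A² - 48b, c₆ = -A(A²-72b). A = 1 mod 4: c₆ = -b₂³+36b₂b₄-216b₆
= -b₂³ mod 4 and b₂ odd (c₄ = b₂² - 24b₄ odd) so b₂ = 1 mod 4, c₆ = -1 mod 4, and c₆ = -A³ = -A mod 4 (A² = 1 mod 8). a := A.
A even, A = -2a: Δ = B²(a²-B)/64, c₄ = 4a² - 3B. B even is impossible: c₄ even, so Δ odd, so v(B²(a²-B)) = 6 (v = 2-adic
valuation): v(B) = 1: v(a²-B) = 0 or 1, total 2 or 3; v(B) = 2: v(a²-B) = 2, a even, 4 | B... then c₄ = 4a²-3B has v(c₄) = 2;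
v(B) = 3: a odd, v(c₄) = 2. But c₄ = b₂² - 24b₄ even gives b₂ even, b₂ = 0 mod 4 (b₂ is 0 or 1 mod 4), so 8 | c₄: contradiction
(in case v(B) = 2: c₄ = 4(a² - 3B/4), a even, B/4 odd: v = 2). B odd: 64 | a² - B, a odd, B = a² - 64b, Δ = b(a²-64b)²,
c₄ = a² + 192b, c₆ = -A(2A²-9B)/2 = a(8a² - 9a² + 576b) = -a(a²-576b), again c₆ = -1 mod 4 gives a = 1 mod 4.
Coprime: a prime p | a, p | b divides c₄ and Δ.
PROOF of curve_f: W: y² + xy = x³ + ((a-1)/4) x² + b x, point (0,0) of order 2 (see `LoW`, ToF: there a = 4t+1).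
curve_g: y² + xy = x³ + ((a-1)/4) x² - 4b x - ab, point of order 2 with 4x = -a: (-a/4, a/8). Coprimality: a prime dividing
c₄ = a² - 48b and b²(a²-64b) divides b (then a) or 16b (it is odd as a is odd), so both; the same for g.
(Check: c₄(f)³ - c₆(f)² = 1728 b²(a²-64b), c₄(g)³ - c₆(g)² = 1728 b(a²-64b)².)
-/

namespace Pool.Agent.Lib.MP_d8bd92_nt

namespace As

open Finset Filter Topology Pool.Agent.Lib.Szpiro

/-- the invariants of the first family -/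
def ff (w : ℤ × ℤ) : ℤ × ℤ := (w.1 ^ 2 - 48 * w.2, -(w.1 * (w.1 ^ 2 - 72 * w.2)))

/-- the invariants of the second family -/
def gg (w : ℤ × ℤ) : ℤ × ℤ := (w.1 ^ 2 + 192 * w.2, -(w.1 * (w.1 ^ 2 - 576 * w.2)))

theorem D1_b2 (W : WeierstrassCurve ℤ) : (∃ k : ℤ, W.b₂ = 4 * k) ∨ ∃ k : ℤ, W.b₂ = 4 * k + 1 := by
  rw [WeierstrassCurve.b₂]
  rcases Int.even_or_odd' W.a₁ with ⟨k, h | h⟩
  · left; exact ⟨k ^ 2 + W.a₂, by rw [h]; ring⟩
  · right; exact ⟨k ^ 2 + k + W.a₂, by rw [h]; ring⟩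

theorem D1_c6 (W : WeierstrassCurve ℤ) (h : W.c₄ % 2 = 1) : W.c₆ % 4 = 3 := by
  rw [WeierstrassCurve.c₄] at h
  rw [WeierstrassCurve.c₆]
  rcases D1_b2 W with ⟨k, hk⟩ | ⟨k, hk⟩
  · exfalso
    have e : W.b₂ ^ 2 - 24 * W.b₄ = 2 * (8 * k ^ 2 - 12 * W.b₄) := by rw [hk]; ring
    omega
  · have e : -W.b₂ ^ 3 + 36 * W.b₂ * W.b₄ - 216 * W.b₆ =
        4 * (-16 * k ^ 3 - 12 * k ^ 2 - 3 * k + 9 * (4 * k + 1) * W.b₄ - 54 * W.b₆ - 1) + 3 := by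
      rw [hk]; ring
    rw [e]
    generalize -16 * k ^ 3 - 12 * k ^ 2 - 3 * k + 9 * (4 * k + 1) * W.b₄ - 54 * W.b₆ - 1 = z
    omega

theorem D1_c4 (W : WeierstrassCurve ℤ) (h : W.c₄ % 2 = 0) : W.c₄ % 8 = 0 := by
  rw [WeierstrassCurve.c₄] at h ⊢
  rcases D1_b2 W with ⟨k, hk⟩ | ⟨k, hk⟩
  · have e : W.b₂ ^ 2 - 24 * W.b₄ = 8 * (2 * k ^ 2 - 3 * W.b₄) := by rw [hk]; ring
    omega
  · exfalso
    have e : W.b₂ ^ 2 - 24 * W.b₄ = 2 * (8 * k ^ 2 + 4 * k - 12 * W.b₄) + 1 := by rw [hk]; ring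
    omega

theorem D1_even (m D Δ : ℤ) (h : 64 * Δ = m ^ 2 * D) (hm : m % 2 = 0) (h8 : (m + 4 * D) % 8 = 0) :
    Δ % 2 = 0 := by
  obtain ⟨m1, rfl⟩ : ∃ m1, m = 2 * m1 := ⟨m / 2, by omega⟩
  have h1 : 16 * Δ = m1 ^ 2 * D := by
    have : 4 * (16 * Δ) = 4 * (m1 ^ 2 * D) := by linear_combination h
    linarith
  obtain ⟨m2, rfl⟩ : ∃ m2, m1 = 2 * m2 := ⟨m1 / 2, by omega⟩
  have h2 : 4 * Δ = m2 ^ 2 * D := by
    have : 4 * (4 * Δ) = 4 * (m2 ^ 2 * D) := by linear_combination h1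
    linarith
  rcases Int.even_or_odd' m2 with ⟨m3, h3 | h3⟩
  · obtain ⟨D2, hD2⟩ : ∃ D2, D = 2 * D2 := ⟨D / 2, by omega⟩
    have h4 : Δ = 2 * (m3 ^ 2 * D2) := by
      have : 4 * Δ = 4 * (2 * (m3 ^ 2 * D2)) := by rw [h2, h3, hD2]; ring
      linarith
    rw [h4]
    generalize m3 ^ 2 * D2 = z
    omega
  · exfalso
    obtain ⟨D2, hD2⟩ : ∃ D2, D = 2 * D2 + 1 := ⟨D / 2, by omega⟩
    have h4 : 4 * Δ = 2 * ((2 * m3 ^ 2 + 2 * m3) * (2 * D2 + 1) + D2) + 1 := by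
      rw [h2, h3, hD2]; ring
    generalize (2 * m3 ^ 2 + 2 * m3) * (2 * D2 + 1) + D2 = z at h4
    omega

theorem D1_cube (x y : ℤ) (h : (x ^ 3 + 4 * y) % 4 = 1) : x % 4 = 1 := by
  have hx : ∃ q : ℤ, x = 4 * q ∨ x = 4 * q + 1 ∨ x = 4 * q + 2 ∨ x = 4 * q + 3 :=
    ⟨x / 4, by omega⟩
  obtain ⟨q, hq | hq | hq | hq⟩ := hx
  · exfalso
    have e : x ^ 3 + 4 * y = 4 * (16 * q ^ 3 + y) := by rw [hq]; ring
    rw [e] at h
    generalize 16 * q ^ 3 + y = z at h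
    omega
  · omega
  · exfalso
    have e : x ^ 3 + 4 * y = 4 * (16 * q ^ 3 + 24 * q ^ 2 + 12 * q + 2 + y) := by rw [hq]; ring
    rw [e] at h
    generalize 16 * q ^ 3 + 24 * q ^ 2 + 12 * q + 2 + y = z at h
    omega
  · exfalso
    have e : x ^ 3 + 4 * y = 4 * (16 * q ^ 3 + 36 * q ^ 2 + 27 * q + 6 + y) + 3 := by rw [hq]; ring
    rw [e] at h
    generalize 16 * q ^ 3 + 36 * q ^ 2 + 27 * q + 6 + y = z at h
    omega

theorem D1_cop2 {x : ℤ} (h : x % 2 = 1) : IsCoprime (2 : ℤ) x :=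
  ⟨-(x / 2), 1, by omega⟩

/-- a rational point of order two -/
theorem D1_point (W : WeierstrassCurve ℤ) (hΔ : W.Δ ≠ 0) (x y : ℚ)
    (heq : y ^ 2 + W.a₁ * x * y + W.a₃ * y = x ^ 3 + W.a₂ * x ^ 2 + W.a₄ * x + W.a₆)
    (h2 : 2 * y + W.a₁ * x + W.a₃ = 0) :
    ∃ P : (W.baseChange ℚ).toAffine.Point, addOrderOf P = 2 := by
  have hΔQ : (W.baseChange ℚ).toAffine.Δ ≠ 0 := by
    have : (W.baseChange ℚ).Δ = (W.Δ : ℚ) := by
      rw [WeierstrassCurve.baseChange, WeierstrassCurve.map_Δ]; simp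
    change (W.baseChange ℚ).Δ ≠ 0
    rw [this]
    exact_mod_cast hΔ
  have e1 : (W.baseChange ℚ).toAffine.a₁ = (W.a₁ : ℚ) := by
    simp [WeierstrassCurve.baseChange]
  have e2 : (W.baseChange ℚ).toAffine.a₂ = (W.a₂ : ℚ) := by
    simp [WeierstrassCurve.baseChange]
  have e3 : (W.baseChange ℚ).toAffine.a₃ = (W.a₃ : ℚ) := by
    simp [WeierstrassCurve.baseChange]
  have e4 : (W.baseChange ℚ).toAffine.a₄ = (W.a₄ : ℚ) := by
    simp [WeierstrassCurve.baseChange]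
  have e6 : (W.baseChange ℚ).toAffine.a₆ = (W.a₆ : ℚ) := by
    simp [WeierstrassCurve.baseChange]
  have hS : (W.baseChange ℚ).toAffine.Nonsingular x y := by
    rw [← WeierstrassCurve.Affine.equation_iff_nonsingular_of_Δ_ne_zero hΔQ,
      WeierstrassCurve.Affine.equation_iff, e1, e2, e3, e4, e6]
    exact heq
  refine ⟨WeierstrassCurve.Affine.Point.some _ _ hS, ?_⟩
  rw [addOrderOf_eq_prime_iff (p := 2)]
  refine ⟨?_, WeierstrassCurve.Affine.Point.some_ne_zero _⟩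
  rw [two_nsmul]
  apply WeierstrassCurve.Affine.Point.add_self_of_Y_eq
  rw [WeierstrassCurve.Affine.negY, e1, e3]
  linear_combination h2

theorem param (W : WeierstrassCurve ℤ) (hΔ : W.Δ ≠ 0) (hss : IsCoprime W.c₄ W.Δ)
    (hP : ∃ P : (W.baseChange ℚ).toAffine.Point, addOrderOf P = 2) :
    ∃ w : ℤ × ℤ, Good w ∧ (((W.c₄, W.c₆) = ff w ∧ W.Δ = w.2 ^ 2 * cc w) ∨
      ((W.c₄, W.c₆) = gg w ∧ W.Δ = w.2 * cc w ^ 2)) := by
  obtain ⟨P, hP⟩ := hP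
  obtain ⟨m, d, g, e1, e2, e3, e4⟩ := two_torsion_param W P hP
  have hd : d = g ^ 2 - 4 * m := by linarith
  subst hd
  rcases Int.even_or_odd' g with ⟨k, hk | hk⟩
  · -- `g` even
    obtain ⟨D, hD⟩ : ∃ D : ℤ, D = k ^ 2 - m := ⟨_, rfl⟩
    have h64 : 64 * W.Δ = m ^ 2 * D := by
      have : 4 * (64 * W.Δ) = 4 * (m ^ 2 * D) := by
        rw [hk] at e2
        rw [hD]
        linear_combination e2
      linarith
    have hc4 : W.c₄ = m + 4 * D := by rw [e1, hk, hD]; ring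
    have hm2 : m % 2 = 1 := by
      by_contra hme
      have hm0 : m % 2 = 0 := by omega
      have hc4e : W.c₄ % 2 = 0 := by omega
      have h8 := D1_c4 W hc4e
      rw [hc4] at h8
      have hΔe := D1_even m D W.Δ h64 hm0 h8
      have h2c : (2 : ℤ) ∣ W.c₄ := Int.dvd_of_emod_eq_zero hc4e
      have h2Δ : (2 : ℤ) ∣ W.Δ := Int.dvd_of_emod_eq_zero hΔe
      have hu := hss.isUnit_of_dvd' h2c h2Δ
      rw [Int.isUnit_iff] at hu
      omega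
    have h64D : (64 : ℤ) ∣ D := by
      have h1 : IsCoprime ((2 : ℤ) ^ 6) (m ^ 2) := (D1_cop2 hm2).pow
      have h2 : (2 : ℤ) ^ 6 ∣ m ^ 2 * D := ⟨W.Δ, by rw [← h64]; norm_num⟩
      have h3 := h1.dvd_of_dvd_mul_left h2
      norm_num at h3
      exact h3
    obtain ⟨b, hb⟩ := h64D
    have hm : m = k ^ 2 - 64 * b := by rw [← hb, hD]; ring
    have hΔ' : W.Δ = b * (k ^ 2 - 64 * b) ^ 2 := by
      have : 64 * W.Δ = 64 * (b * (k ^ 2 - 64 * b) ^ 2) := by rw [h64, hb, hm]; ring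
      linarith
    have hc4' : W.c₄ = k ^ 2 + 192 * b := by rw [hc4, hb, hm]; ring
    have hc6' : W.c₆ = k * (k ^ 2 - 576 * b) := by
      have : 2 * W.c₆ = 2 * (k * (k ^ 2 - 576 * b)) := by rw [e4, hk, hm]; ring
      linarith
    have hcc : cc (-k, b) = k ^ 2 - 64 * b := by simp [cc]
    have hc4o : W.c₄ % 2 = 1 := by omega
    have hc6o := D1_c6 W hc4o
    have hk4 : (-k) % 4 = 1 := by
      apply D1_cube (-k) (144 * k * b)
      have e : (-k) ^ 3 + 4 * (144 * k * b) = -W.c₆ := by rw [hc6']; ring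
      rw [e]
      omega
    refine ⟨(-k, b), ⟨hk4, ?_, ?_, ?_⟩, Or.inr ⟨?_, ?_⟩⟩
    · rintro (h0 : b = 0)
      apply hΔ
      rw [hΔ', h0]; ring
    · rw [hcc]
      intro h0
      apply hΔ
      rw [hΔ', h0]; ring
    · obtain ⟨u, v, huv⟩ := hss
      refine ⟨u * (-k), 192 * u + v * (k ^ 2 - 64 * b) ^ 2, ?_⟩
      rw [hc4', hΔ'] at huv
      linear_combination huv
    · unfold gg
      rw [Prod.mk.injEq]
      constructor
      · rw [hc4']; ring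
      · rw [hc6']; ring
    · rw [hcc, hΔ']
  · -- `g` odd
    have hg : (g ^ 2 - 4 * m) % 2 = 1 := by
      have e : g ^ 2 - 4 * m = 2 * (2 * k ^ 2 + 2 * k - 2 * m) + 1 := by rw [hk]; ring
      omega
    have h16 : (16 : ℤ) ∣ m := by
      have h1 : IsCoprime ((2 : ℤ) ^ 8) (g ^ 2 - 4 * m) := (D1_cop2 hg).pow_left
      have h2 : (2 : ℤ) ^ 8 ∣ m ^ 2 * (g ^ 2 - 4 * m) := ⟨W.Δ, by rw [← e2]; norm_num⟩
      have h3 := h1.dvd_of_dvd_mul_right h2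
      have h4 : (16 : ℤ) ^ 2 ∣ m ^ 2 := by norm_num at h3 ⊢; exact h3
      exact (Int.pow_dvd_pow_iff two_ne_zero).1 h4
    obtain ⟨b, hb⟩ := h16
    have hΔ' : W.Δ = b ^ 2 * (g ^ 2 - 64 * b) := by
      have : 256 * W.Δ = 256 * (b ^ 2 * (g ^ 2 - 64 * b)) := by rw [e2, hb]; ring
      linarith
    have hc4' : W.c₄ = g ^ 2 - 48 * b := by rw [e1, hb]; ring
    have hc6' : W.c₆ = -(g * (g ^ 2 - 72 * b)) := by
      have : 2 * W.c₆ = 2 * (-(g * (g ^ 2 - 72 * b))) := by rw [e4, hb]; ring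
      linarith
    have hcc : cc (g, b) = g ^ 2 - 64 * b := rfl
    have hc4o : W.c₄ % 2 = 1 := by
      rw [hc4']
      omega
    have hc6o := D1_c6 W hc4o
    have hg4 : g % 4 = 1 := by
      apply D1_cube g (-(18 * g * b))
      have e : g ^ 3 + 4 * (-(18 * g * b)) = -W.c₆ := by rw [hc6']; ring
      rw [e]
      omega
    refine ⟨(g, b), ⟨hg4, ?_, ?_, ?_⟩, Or.inl ⟨?_, ?_⟩⟩
    · rintro (h0 : b = 0)
      apply hΔ
      rw [hΔ', h0]; ring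
    · rw [hcc]
      intro h0
      apply hΔ
      rw [hΔ', h0]; ring
    · obtain ⟨u, v, huv⟩ := hss
      refine ⟨u * g, -48 * u + v * b * (g ^ 2 - 64 * b), ?_⟩
      rw [hc4', hΔ'] at huv
      linear_combination huv
    · unfold ff
      rw [Prod.mk.injEq]
      exact ⟨hc4', hc6'⟩
    · rw [hcc, hΔ']

theorem curve_f (w : ℤ × ℤ) (hw : Good w) : ∃ W : WeierstrassCurve ℤ, (W.c₄, W.c₆) = ff w ∧
    W.Δ = w.2 ^ 2 * cc w ∧ IsCoprime W.c₄ W.Δ ∧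
    ∃ P : (W.baseChange ℚ).toAffine.Point, addOrderOf P = 2 := by
  obtain ⟨a, b⟩ := w
  obtain ⟨ha, hb, hc, hab⟩ := hw
  have ha' : a % 4 = 1 := ha
  have hb' : b ≠ 0 := hb
  have hab' : IsCoprime a b := hab
  obtain ⟨t, ht⟩ : ∃ t : ℤ, a = 4 * t + 1 := ⟨a / 4, by omega⟩
  have h4 : (⟨1, t, 0, b, 0⟩ : WeierstrassCurve ℤ).c₄ = a ^ 2 - 48 * b := by
    rw [WeierstrassCurve.c₄, WeierstrassCurve.b₂, WeierstrassCurve.b₄, ht]
    ring
  have h6 : (⟨1, t, 0, b, 0⟩ : WeierstrassCurve ℤ).c₆ = -(a * (a ^ 2 - 72 * b)) := by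
    rw [WeierstrassCurve.c₆, WeierstrassCurve.b₂, WeierstrassCurve.b₄, WeierstrassCurve.b₆, ht]
    ring
  have hD : (⟨1, t, 0, b, 0⟩ : WeierstrassCurve ℤ).Δ = b ^ 2 * cc (a, b) := by
    rw [WeierstrassCurve.Δ, WeierstrassCurve.b₂, WeierstrassCurve.b₄, WeierstrassCurve.b₆,
      WeierstrassCurve.b₈, cc, ht]
    ring
  refine ⟨⟨1, t, 0, b, 0⟩, ?_, hD, ?_, ?_⟩
  · rw [h4, h6]; rfl
  · rw [h4, hD]
    have h1 : IsCoprime (a ^ 2 - 48 * b) b := by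
      have h2 : IsCoprime (a ^ 2) b := hab'.pow_left
      have e : a ^ 2 - 48 * b = a ^ 2 + b * (-48) := by ring
      rw [e]
      exact h2.add_mul_left_left _
    have h16 : IsCoprime (a ^ 2 - 48 * b) ((2 : ℤ) ^ 4) := by
      apply (IsCoprime.pow_left _).symm
      apply D1_cop2
      have e : a ^ 2 - 48 * b = 2 * (8 * t ^ 2 + 4 * t - 24 * b) + 1 := by rw [ht]; ring
      omega
    apply IsCoprime.mul_right h1.pow_right
    have e : cc (a, b) = -(2 ^ 4 * b) + (a ^ 2 - 48 * b) * 1 := by rw [cc]; ring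
    rw [e]
    apply IsCoprime.add_mul_left_right
    exact (h16.mul_right h1).neg_right
  · apply D1_point _ _ 0 0
    · simp
    · simp
    · rw [hD]
      exact mul_ne_zero (pow_ne_zero _ hb') hc

theorem curve_g (w : ℤ × ℤ) (hw : Good w) : ∃ W : WeierstrassCurve ℤ, (W.c₄, W.c₆) = gg w ∧
    W.Δ = w.2 * cc w ^ 2 ∧ IsCoprime W.c₄ W.Δ ∧
    ∃ P : (W.baseChange ℚ).toAffine.Point, addOrderOf P = 2 := by
  obtain ⟨a, b⟩ := w
  obtain ⟨ha, hb, hc, hab⟩ := hw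
  have ha' : a % 4 = 1 := ha
  have hb' : b ≠ 0 := hb
  have hab' : IsCoprime a b := hab
  obtain ⟨t, ht⟩ : ∃ t : ℤ, a = 4 * t + 1 := ⟨a / 4, by omega⟩
  have h4 : (⟨1, t, 0, -4 * b, -a * b⟩ : WeierstrassCurve ℤ).c₄ = a ^ 2 + 192 * b := by
    rw [WeierstrassCurve.c₄, WeierstrassCurve.b₂, WeierstrassCurve.b₄, ht]
    ring
  have h6 : (⟨1, t, 0, -4 * b, -a * b⟩ : WeierstrassCurve ℤ).c₆ = -(a * (a ^ 2 - 576 * b)) := by
    rw [WeierstrassCurve.c₆, WeierstrassCurve.b₂, WeierstrassCurve.b₄, WeierstrassCurve.b₆, ht]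
    ring
  have hD : (⟨1, t, 0, -4 * b, -a * b⟩ : WeierstrassCurve ℤ).Δ = b * cc (a, b) ^ 2 := by
    rw [WeierstrassCurve.Δ, WeierstrassCurve.b₂, WeierstrassCurve.b₄, WeierstrassCurve.b₆,
      WeierstrassCurve.b₈, cc, ht]
    ring
  refine ⟨⟨1, t, 0, -4 * b, -a * b⟩, ?_, hD, ?_, ?_⟩
  · rw [h4, h6]; rfl
  · rw [h4, hD]
    have h1 : IsCoprime (a ^ 2 + 192 * b) b := by
      have h2 : IsCoprime (a ^ 2) b := hab'.pow_left
      have e : a ^ 2 + 192 * b = a ^ 2 + b * 192 := by ring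
      rw [e]
      exact h2.add_mul_left_left _
    have h16 : IsCoprime (a ^ 2 + 192 * b) ((2 : ℤ) ^ 8) := by
      apply (IsCoprime.pow_left _).symm
      apply D1_cop2
      have e : a ^ 2 + 192 * b = 2 * (8 * t ^ 2 + 4 * t + 96 * b) + 1 := by rw [ht]; ring
      omega
    apply IsCoprime.mul_right h1
    apply IsCoprime.pow_right
    have e : cc (a, b) = -(2 ^ 8 * b) + (a ^ 2 + 192 * b) * 1 := by rw [cc]; ring
    rw [e]
    apply IsCoprime.add_mul_left_right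
    exact (h16.mul_right h1).neg_right
  · apply D1_point _ _ (-(a : ℚ) / 4) ((a : ℚ) / 8)
    · rw [ht]
      push_cast
      ring
    · push_cast
      ring
    · rw [hD]
      exact mul_ne_zero hb' (pow_ne_zero _ hc)

end As

end Pool.Agent.Lib.MP_d8bd92_nt
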