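import Pool.Agent.Lib.MP_d8bd92_nt.As.B1
import Pool.Agent.Lib.MP_d8bd92_nt.As.D1

set_option autoImplicit false

/-!
ROW as-D3. Size, collisions, squares.

PROOF of size_ff, size_gg. x = 64b, y = c, x + y = a². ff: 4c₄ = x + 4y, 64c₆² = (x+y)(x-8y)²: if |x| > 64H^(1/3) then with
y = c₄ - x/4: |x+y| >= |x|/2, |y-x/8| >= |x|/4, c₆² >= |x|³/32 > H. So |x| <= 64H^(1/3), |y| <= 17H^(1/3), n = |xy|/64.
gg: c₄ = 4x + y, c₆² = (x+y)(y-8x)²: |x| > H^(1/3) gives |x+y| >= 2|x|, |y-8x| >= 11|x|, c₆² > H; |y| <= 5H^(1/3).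
collisions: A = a (ff) or A = -2a (gg) is a root of A³ - 3c₄A - 2c₆ = 0, b is determined by A and c₄ (3B = A² - c₄, B = 16b, resp.
B = a²-64b). Two different roots A1, A2 give 3c₄ = A1²+A1A2+A2², so (A1² - 4B1)·9 = (A1+2A2)²: A1² - 4B1 = c (ff), = 256b (gg)
is a square. ff w = gg v: A1 = a odd, A2 = -2a' even, different. (k² | 9m... if 9m = k² then 3 | k, m = (k/3)²; if 256b = k² then
16 | k.)
few_squares: z = X^(1/10). b = β² (or c = γ²), |β| > z: `tail_sq`. |β| <= z: b is one of <= 2z+1 values, and for given b, a² <= 65X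
(`Rg_bound`): <= 2√(65X)+1 values of a; for given c the same (b = (a²-c)/64). Total <= C X^(7/10).
-/

namespace Pool.Agent.Lib.MP_d8bd92_nt

namespace As

open Finset Filter Topology Pool.Agent.Lib.Szpiro

theorem D3a_keyf (a b h : ℝ) (hh : 0 ≤ h) (h4 : |a ^ 2 - 48 * b| ≤ h)
    (h6 : (a * (a ^ 2 - 72 * b)) ^ 2 ≤ h ^ 3) : |b * (a ^ 2 - 64 * b)| ≤ 100 * h ^ 2 := by
  obtain ⟨l4, u4⟩ := abs_le.1 h4
  rcases le_or_gt |b| h with hb | hb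
  · have h5 : |a ^ 2 - 64 * b| ≤ 17 * h := by
      obtain ⟨l, u⟩ := abs_le.1 hb
      rw [abs_le]
      constructor <;> linarith
    rw [abs_mul]
    have := mul_le_mul hb h5 (abs_nonneg _) hh
    nlinarith [sq_nonneg h]
  · exfalso
    have ha : 0 ≤ a ^ 2 := sq_nonneg a
    have hb0 : 0 < b := by
      by_contra hn
      rw [not_lt] at hn
      rw [abs_of_nonpos hn] at hb
      linarith
    rw [abs_of_pos hb0] at hb
    have h1 : 47 * b ≤ a ^ 2 := by linarith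
    have h2 : 23 * b ≤ 72 * b - a ^ 2 := by linarith
    have h3 : (23 * b) ^ 2 ≤ (72 * b - a ^ 2) ^ 2 := pow_le_pow_left₀ (by positivity) h2 2
    have h7 : 47 * b * (23 * b) ^ 2 ≤ a ^ 2 * (72 * b - a ^ 2) ^ 2 :=
      mul_le_mul h1 h3 (by positivity) ha
    have h8 : a ^ 2 * (72 * b - a ^ 2) ^ 2 = (a * (a ^ 2 - 72 * b)) ^ 2 := by ring
    have h9 : h ^ 3 < b ^ 3 := pow_lt_pow_left₀ hb hh (by norm_num)
    have h10 : 0 < b ^ 3 := by positivity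
    nlinarith

theorem D3a_keyg (a b h : ℝ) (hh : 0 ≤ h) (h4 : |a ^ 2 + 192 * b| ≤ h)
    (h6 : (a * (a ^ 2 - 576 * b)) ^ 2 ≤ h ^ 3) : |b * (a ^ 2 - 64 * b)| ≤ 100 * h ^ 2 := by
  obtain ⟨l4, u4⟩ := abs_le.1 h4
  rcases le_or_gt |b| h with hb | hb
  · have h5 : |a ^ 2 - 64 * b| ≤ 100 * h := by
      have ha : 0 ≤ a ^ 2 := sq_nonneg a
      obtain ⟨l, u⟩ := abs_le.1 hb
      rw [abs_le]
      constructor
      · linarith
      · rcases le_or_gt (64 * |b|) h with hc | hc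
        · have hc1 := neg_abs_le b
          have hc2 := le_abs_self b
          linarith
        · exfalso
          rcases le_or_gt 0 b with hp | hp
          · rw [abs_of_nonneg hp] at hc
            linarith
          · rw [abs_of_neg hp] at hc
            have h1 : 2 * (64 * -b) ≤ a ^ 2 := by linarith
            have h2 : 11 * (64 * -b) ≤ a ^ 2 - 576 * b := by linarith
            have hu : 0 < 64 * -b := by linarith
            have h3 : (11 * (64 * -b)) ^ 2 ≤ (a ^ 2 - 576 * b) ^ 2 :=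
              pow_le_pow_left₀ (by positivity) h2 2
            have h7 : 2 * (64 * -b) * (11 * (64 * -b)) ^ 2 ≤ a ^ 2 * (a ^ 2 - 576 * b) ^ 2 :=
              mul_le_mul h1 h3 (by positivity) ha
            have h8 : a ^ 2 * (a ^ 2 - 576 * b) ^ 2 = (a * (a ^ 2 - 576 * b)) ^ 2 := by ring
            have h9 : h ^ 3 < (64 * -b) ^ 3 := pow_lt_pow_left₀ hc hh (by norm_num)
            have h10 : 0 < (64 * -b) ^ 3 := by positivity
            nlinarith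
    rw [abs_mul]
    have := mul_le_mul hb h5 (abs_nonneg _) hh
    nlinarith [sq_nonneg h]
  · exfalso
    have ha : 0 ≤ a ^ 2 := sq_nonneg a
    rcases le_or_gt 0 b with hp | hp
    · rw [abs_of_nonneg hp] at hb
      linarith
    · rw [abs_of_neg hp] at hb
      have hc : h < 64 * -b := by linarith
      have h1 : 2 * (64 * -b) ≤ a ^ 2 := by linarith
      have h2 : 11 * (64 * -b) ≤ a ^ 2 - 576 * b := by linarith
      have hu : 0 < 64 * -b := by linarith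
      have h3 : (11 * (64 * -b)) ^ 2 ≤ (a ^ 2 - 576 * b) ^ 2 :=
        pow_le_pow_left₀ (by positivity) h2 2
      have h7 : 2 * (64 * -b) * (11 * (64 * -b)) ^ 2 ≤ a ^ 2 * (a ^ 2 - 576 * b) ^ 2 :=
        mul_le_mul h1 h3 (by positivity) ha
      have h8 : a ^ 2 * (a ^ 2 - 576 * b) ^ 2 = (a * (a ^ 2 - 576 * b)) ^ 2 := by ring
      have h9 : h ^ 3 < (64 * -b) ^ 3 := pow_lt_pow_left₀ hc hh (by norm_num)
      have h10 : 0 < (64 * -b) ^ 3 := by positivity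
      nlinarith

/-- from the height to the real bounds -/
theorem D3a_height (p q : ℤ) (H : ℝ)
    (hH : ((max (p.natAbs ^ 3) (q.natAbs ^ 2) : ℕ) : ℝ) ≤ H) :
    ∃ h : ℝ, 0 ≤ h ∧ |(p : ℝ)| ≤ h ∧ (q : ℝ) ^ 2 ≤ h ^ 3 ∧ h ^ 2 = H ^ (2 / 3 : ℝ) := by
  have hH0 : 0 ≤ H := le_trans (Nat.cast_nonneg _) hH
  have h3 : (H ^ (1 / 3 : ℝ)) ^ 3 = H := by
    rw [← Real.rpow_natCast, ← Real.rpow_mul hH0]
    norm_num
  have hp : ((p.natAbs ^ 3 : ℕ) : ℝ) ≤ H := le_trans (by exact_mod_cast le_max_left _ _) hH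
  have hq : ((q.natAbs ^ 2 : ℕ) : ℝ) ≤ H := le_trans (by exact_mod_cast le_max_right _ _) hH
  push_cast at hp hq
  rw [Nat.cast_natAbs, Int.cast_abs] at hp hq
  refine ⟨H ^ (1 / 3 : ℝ), Real.rpow_nonneg hH0 _, ?_, ?_, ?_⟩
  · by_contra hn
    rw [not_le] at hn
    have := pow_lt_pow_left₀ hn (Real.rpow_nonneg hH0 _) (n := 3) (by norm_num)
    linarith
  · rw [h3]
    rw [sq_abs] at hq
    exact hq
  · rw [← Real.rpow_natCast, ← Real.rpow_mul hH0]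
    norm_num

theorem size_ff (w : ℤ × ℤ) (H : ℝ)
    (hH : ((max ((ff w).1.natAbs ^ 3) ((ff w).2.natAbs ^ 2) : ℕ) : ℝ) ≤ H) :
    ((nn w : ℕ) : ℝ) ≤ 100 * H ^ (2 / 3 : ℝ) := by
  obtain ⟨h, hh, h1, h2, h3⟩ := D3a_height _ _ H hH
  rw [← h3, nn, Nat.cast_natAbs, Int.cast_abs]
  have e : ((w.2 * cc w : ℤ) : ℝ) = (w.2 : ℝ) * ((w.1 : ℝ) ^ 2 - 64 * (w.2 : ℝ)) := by
    rw [cc]; push_cast; ring
  rw [e]
  refine D3a_keyf (w.1 : ℝ) (w.2 : ℝ) h hh ?_ ?_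
  · have e1 : (((ff w).1 : ℤ) : ℝ) = (w.1 : ℝ) ^ 2 - 48 * (w.2 : ℝ) := by
      rw [ff]; push_cast; ring
    rw [e1] at h1
    exact h1
  · have e1 : (((ff w).2 : ℤ) : ℝ) ^ 2 = ((w.1 : ℝ) * ((w.1 : ℝ) ^ 2 - 72 * (w.2 : ℝ))) ^ 2 := by
      rw [ff]; push_cast; ring
    rw [e1] at h2
    exact h2

theorem size_gg (w : ℤ × ℤ) (H : ℝ)
    (hH : ((max ((gg w).1.natAbs ^ 3) ((gg w).2.natAbs ^ 2) : ℕ) : ℝ) ≤ H) :
    ((nn w : ℕ) : ℝ) ≤ 100 * H ^ (2 / 3 : ℝ) := by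
  obtain ⟨h, hh, h1, h2, h3⟩ := D3a_height _ _ H hH
  rw [← h3, nn, Nat.cast_natAbs, Int.cast_abs]
  have e : ((w.2 * cc w : ℤ) : ℝ) = (w.2 : ℝ) * ((w.1 : ℝ) ^ 2 - 64 * (w.2 : ℝ)) := by
    rw [cc]; push_cast; ring
  rw [e]
  refine D3a_keyg (w.1 : ℝ) (w.2 : ℝ) h hh ?_ ?_
  · have e1 : (((gg w).1 : ℤ) : ℝ) = (w.1 : ℝ) ^ 2 + 192 * (w.2 : ℝ) := by
      rw [gg]; push_cast; ring
    rw [e1] at h1
    exact h1
  · have e1 : (((gg w).2 : ℤ) : ℝ) ^ 2 = ((w.1 : ℝ) * ((w.1 : ℝ) ^ 2 - 576 * (w.2 : ℝ))) ^ 2 := by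
      rw [gg]; push_cast; ring
    rw [e1] at h2
    exact h2

theorem D3a_sq3 (m k : ℤ) (h : 9 * m = k ^ 2) : IsSquare m := by
  have h1 : (3 : ℤ) ^ 2 ∣ k ^ 2 := ⟨m, by rw [← h]; norm_num⟩
  obtain ⟨r, hr⟩ := (Int.pow_dvd_pow_iff (n := 2) (by norm_num)).1 h1
  refine ⟨r, ?_⟩
  rw [hr] at h
  nlinarith

theorem D3a_sq24 (m k : ℤ) (h : 576 * m = k ^ 2) : IsSquare m := by
  have h1 : (24 : ℤ) ^ 2 ∣ k ^ 2 := ⟨m, by rw [← h]; norm_num⟩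
  obtain ⟨r, hr⟩ := (Int.pow_dvd_pow_iff (n := 2) (by norm_num)).1 h1
  refine ⟨r, ?_⟩
  rw [hr] at h
  nlinarith

theorem ff_inj (w v : ℤ × ℤ) (h : ff w = ff v) : w = v ∨ IsSquare (cc w) := by
  obtain ⟨a, b⟩ := w
  obtain ⟨a', b'⟩ := v
  simp only [ff, Prod.mk.injEq] at h
  obtain ⟨h1, h2⟩ := h
  by_cases e : a = a'
  · left
    subst e
    have : b = b' := by linarith
    rw [this]
  · right
    have h3 : (a - a') * (a ^ 2 + a * a' + a' ^ 2 - 3 * (a ^ 2 - 48 * b)) = 0 := by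
      linear_combination 2 * h2 + 3 * a' * h1
    rcases mul_eq_zero.1 h3 with h4 | h4
    · exact absurd (by linarith) e
    · refine D3a_sq3 _ (a + 2 * a') ?_
      rw [cc]
      linear_combination (-4) * h4

theorem gg_inj (w v : ℤ × ℤ) (h : gg w = gg v) : w = v ∨ IsSquare w.2 := by
  obtain ⟨a, b⟩ := w
  obtain ⟨a', b'⟩ := v
  simp only [gg, Prod.mk.injEq] at h
  obtain ⟨h1, h2⟩ := h
  by_cases e : a = a'
  · left
    subst e
    have : b = b' := by linarith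
    rw [this]
  · right
    have h3 : (a - a') * (4 * (a ^ 2 + a * a' + a' ^ 2) - 3 * (a ^ 2 + 192 * b)) = 0 := by
      linear_combination (-1) * h2 + 3 * a' * h1
    rcases mul_eq_zero.1 h3 with h4 | h4
    · exact absurd (by linarith) e
    · refine D3a_sq24 _ (a + 2 * a') ?_
      linear_combination (-1) * h4

theorem ff_ne_gg (w v : ℤ × ℤ) (hw : w.1 % 4 = 1) (h : ff w = gg v) : IsSquare (cc w) := by
  obtain ⟨a, b⟩ := w
  obtain ⟨a', b'⟩ := v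
  simp only [ff, gg, Prod.mk.injEq] at h hw
  obtain ⟨h1, h2⟩ := h
  have h3 : (a + 2 * a') * (a ^ 2 - 2 * a * a' + 4 * a' ^ 2 - 3 * (a ^ 2 - 48 * b)) = 0 := by
    linear_combination 2 * h2 - 6 * a' * h1
  rcases mul_eq_zero.1 h3 with h4 | h4
  · omega
  · refine D3a_sq3 _ (a - 4 * a') ?_
    rw [cc]
    linear_combination (-4) * h4

/-- a set which is contained in an image of `[-M, M] × [0, Z]` -/
theorem D3b_small (M Z : ℕ) (S : Set (ℤ × ℤ)) (f : ℤ × ℕ → ℤ × ℤ)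
    (h : ∀ w ∈ S, ∃ a : ℤ, ∃ k : ℕ, a.natAbs ≤ M ∧ k ≤ Z ∧ f (a, k) = w) :
    S.ncard ≤ (2 * M + 1) * (Z + 1) := by
  classical
  have hsub : S ⊆ ((((Finset.Icc (-(M : ℤ)) M) ×ˢ (Finset.range (Z + 1))).image f :
      Finset (ℤ × ℤ)) : Set (ℤ × ℤ)) := by
    intro w hw
    obtain ⟨a, k, ha, hk, rfl⟩ := h w hw
    rw [Finset.mem_coe, Finset.mem_image]
    exact ⟨(a, k), Finset.mem_product.2 ⟨Finset.mem_Icc.2 (by omega), Finset.mem_range.2 (by omega)⟩,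
      rfl⟩
  calc S.ncard ≤ ((((Finset.Icc (-(M : ℤ)) M) ×ˢ (Finset.range (Z + 1))).image f :
      Finset (ℤ × ℤ)) : Set (ℤ × ℤ)).ncard := Set.ncard_le_ncard hsub (Finset.finite_toSet _)
    _ = (((Finset.Icc (-(M : ℤ)) M) ×ˢ (Finset.range (Z + 1))).image f).card :=
        Set.ncard_coe_finset _
    _ ≤ ((Finset.Icc (-(M : ℤ)) M) ×ˢ (Finset.range (Z + 1))).card := Finset.card_image_le
    _ = (2 * M + 1) * (Z + 1) := by
        rw [Finset.card_product, Int.card_Icc, Finset.card_range]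
        congr 1
        omega

theorem few_squares : ∃ C : ℝ, 0 < C ∧ ∀ X : ℝ, 1 ≤ X →
    (({w ∈ Rg X | IsSquare w.2 ∨ IsSquare (cc w)}.ncard : ℕ) : ℝ) ≤ C * X ^ (7 / 10 : ℝ) := by
  obtain ⟨C1, hC1, h1⟩ := tail_sq
  refine ⟨2 * C1 + 76, by positivity, ?_⟩
  intro X hX
  have hX0 : 0 < X := by linarith
  obtain ⟨z, hz⟩ : ∃ z : ℝ, z = X ^ (1 / 10 : ℝ) := ⟨_, rfl⟩
  have hz1 : 1 ≤ z := by
    rw [hz]
    exact Real.one_le_rpow hX (by norm_num)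
  have hz0 : 0 < z := by linarith
  have ht := h1 X z hX hz1
  obtain ⟨A, hA⟩ : ∃ A : Set (ℤ × ℤ), A = {w ∈ Rg X | ∃ d : ℕ, z < d ∧
    ((d : ℤ) ^ 2 ∣ w.2 ∨ (d : ℤ) ^ 2 ∣ cc w)} := ⟨_, rfl⟩
  rw [← hA] at ht
  obtain ⟨M, hM⟩ : ∃ M : ℕ, M = ⌊√(65 * X)⌋₊ := ⟨_, rfl⟩
  obtain ⟨Z, hZ⟩ : ∃ Z : ℕ, Z = ⌊z⌋₊ := ⟨_, rfl⟩
  obtain ⟨B1, hB1⟩ : ∃ B1 : Set (ℤ × ℤ), B1 = {w ∈ Rg X | ∃ k : ℕ, k ≤ Z ∧ w.2 = (k : ℤ) ^ 2} :=
    ⟨_, rfl⟩
  obtain ⟨B2, hB2⟩ : ∃ B2 : Set (ℤ × ℤ), B2 = {w ∈ Rg X | ∃ k : ℕ, k ≤ Z ∧ cc w = (k : ℤ) ^ 2} :=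
    ⟨_, rfl⟩
  have hfA : A.Finite := by
    rw [hA]
    exact (Rg_finite X).subset fun w hw => hw.1
  have hf1 : B1.Finite := by
    rw [hB1]
    exact (Rg_finite X).subset fun w hw => hw.1
  have hf2 : B2.Finite := by
    rw [hB2]
    exact (Rg_finite X).subset fun w hw => hw.1
  have hsub : {w ∈ Rg X | IsSquare w.2 ∨ IsSquare (cc w)} ⊆ A ∪ (B1 ∪ B2) := by
    rintro w ⟨hw, ⟨r, hr⟩ | ⟨r, hr⟩⟩
    · have e : w.2 = ((r.natAbs : ℕ) : ℤ) ^ 2 := by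
        rw [Int.natCast_natAbs, sq_abs, hr]
        ring
      by_cases hk : r.natAbs ≤ Z
      · refine Or.inr (Or.inl ?_)
        rw [hB1]
        exact ⟨hw, r.natAbs, hk, e⟩
      · refine Or.inl ?_
        rw [hA]
        refine ⟨hw, r.natAbs, ?_, Or.inl (by rw [e])⟩
        rw [hZ, not_le, Nat.floor_lt hz0.le] at hk
        exact hk
    · have e : cc w = ((r.natAbs : ℕ) : ℤ) ^ 2 := by
        rw [Int.natCast_natAbs, sq_abs, hr]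
        ring
      by_cases hk : r.natAbs ≤ Z
      · refine Or.inr (Or.inr ?_)
        rw [hB2]
        exact ⟨hw, r.natAbs, hk, e⟩
      · refine Or.inl ?_
        rw [hA]
        refine ⟨hw, r.natAbs, ?_, Or.inr (by rw [e])⟩
        rw [hZ, not_le, Nat.floor_lt hz0.le] at hk
        exact hk
  have ha : ∀ w ∈ Rg X, w.1.natAbs ≤ M := by
    intro w hw
    rw [hM]
    apply Nat.le_floor
    apply Real.le_sqrt_of_sq_le
    have h2 := (Rg_bound X w hw).2.2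
    rwa [Nat.cast_natAbs, Int.cast_abs, sq_abs]
  have n1 : B1.ncard ≤ (2 * M + 1) * (Z + 1) := by
    refine D3b_small M Z B1 (fun t => (t.1, (t.2 : ℤ) ^ 2)) fun w hw => ?_
    rw [hB1] at hw
    obtain ⟨hw1, k, hk, e⟩ := hw
    exact ⟨w.1, k, ha w hw1, hk, by rw [Prod.ext_iff]; exact ⟨rfl, e.symm⟩⟩
  have n2 : B2.ncard ≤ (2 * M + 1) * (Z + 1) := by
    refine D3b_small M Z B2 (fun t => (t.1, (t.1 ^ 2 - (t.2 : ℤ) ^ 2) / 64)) fun w hw => ?_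
    rw [hB2] at hw
    obtain ⟨hw1, k, hk, e⟩ := hw
    refine ⟨w.1, k, ha w hw1, hk, ?_⟩
    rw [Prod.ext_iff]
    refine ⟨rfl, ?_⟩
    show (w.1 ^ 2 - (k : ℤ) ^ 2) / 64 = w.2
    rw [cc] at e
    have e2 : w.1 ^ 2 - (k : ℤ) ^ 2 = 64 * w.2 := by linarith
    rw [e2]
    exact Int.mul_ediv_cancel_left _ (by norm_num)
  -- the numbers
  have hsX : 1 ≤ √X := Real.one_le_sqrt.2 hX
  have hMr : (M : ℝ) ≤ 9 * √X := by
    rw [hM]
    refine (Nat.floor_le (Real.sqrt_nonneg _)).trans ?_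
    rw [Real.sqrt_mul (by norm_num)]
    refine mul_le_mul_of_nonneg_right ?_ (Real.sqrt_nonneg _)
    rw [Real.sqrt_le_left (by norm_num)]
    norm_num
  have hZr : (Z : ℝ) ≤ z := by
    rw [hZ]
    exact Nat.floor_le hz0.le
  have hprod : ((((2 * M + 1) * (Z + 1) : ℕ)) : ℝ) ≤ 38 * X ^ (7 / 10 : ℝ) := by
    push_cast
    have g1 : (2 * (M : ℝ) + 1) ≤ 19 * √X := by linarith
    have g2 : ((Z : ℝ) + 1) ≤ 2 * z := by linarith
    have g3 : √X * z = X ^ (6 / 10 : ℝ) := by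
      rw [Real.sqrt_eq_rpow, hz, ← Real.rpow_add hX0]
      norm_num
    have g4 : X ^ (6 / 10 : ℝ) ≤ X ^ (7 / 10 : ℝ) := Real.rpow_le_rpow_of_exponent_le hX (by norm_num)
    calc (2 * (M : ℝ) + 1) * ((Z : ℝ) + 1) ≤ (19 * √X) * (2 * z) :=
          mul_le_mul g1 g2 (by positivity) (by positivity)
      _ = 38 * (√X * z) := by ring
      _ ≤ 38 * X ^ (7 / 10 : ℝ) := by rw [g3]; linarith
  have htail : C1 * (X ^ (3 / 4 : ℝ) / z + X ^ (2 / 3 : ℝ)) ≤ 2 * C1 * X ^ (7 / 10 : ℝ) := by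
    have g1 : X ^ (3 / 4 : ℝ) / z ≤ X ^ (7 / 10 : ℝ) := by
      rw [hz, ← Real.rpow_sub hX0]
      exact Real.rpow_le_rpow_of_exponent_le hX (by norm_num)
    have g2 : X ^ (2 / 3 : ℝ) ≤ X ^ (7 / 10 : ℝ) :=
      Real.rpow_le_rpow_of_exponent_le hX (by norm_num)
    calc C1 * (X ^ (3 / 4 : ℝ) / z + X ^ (2 / 3 : ℝ)) ≤ C1 * (X ^ (7 / 10 : ℝ) + X ^ (7 / 10 : ℝ)) :=
          mul_le_mul_of_nonneg_left (add_le_add g1 g2) hC1.le
      _ = 2 * C1 * X ^ (7 / 10 : ℝ) := by ring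
  have hcount : ({w ∈ Rg X | IsSquare w.2 ∨ IsSquare (cc w)}.ncard : ℕ) ≤
      A.ncard + (B1.ncard + B2.ncard) := by
    refine (Set.ncard_le_ncard hsub (hfA.union (hf1.union hf2))).trans ?_
    refine (Set.ncard_union_le _ _).trans ?_
    exact Nat.add_le_add_left (Set.ncard_union_le _ _) _
  have c0 : (({w ∈ Rg X | IsSquare w.2 ∨ IsSquare (cc w)}.ncard : ℕ) : ℝ) ≤
      (A.ncard : ℝ) + ((B1.ncard : ℝ) + (B2.ncard : ℝ)) := by exact_mod_cast hcount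
  have c1 : (B1.ncard : ℝ) ≤ 38 * X ^ (7 / 10 : ℝ) := le_trans (by exact_mod_cast n1) hprod
  have c2 : (B2.ncard : ℝ) ≤ 38 * X ^ (7 / 10 : ℝ) := le_trans (by exact_mod_cast n2) hprod
  calc (({w ∈ Rg X | IsSquare w.2 ∨ IsSquare (cc w)}.ncard : ℕ) : ℝ) ≤
        (A.ncard : ℝ) + ((B1.ncard : ℝ) + (B2.ncard : ℝ)) := c0
    _ ≤ 2 * C1 * X ^ (7 / 10 : ℝ) + (38 * X ^ (7 / 10 : ℝ) + 38 * X ^ (7 / 10 : ℝ)) :=
        add_le_add (ht.trans htail) (add_le_add c1 c2)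
    _ = (2 * C1 + 76) * X ^ (7 / 10 : ℝ) := by ring

end As

end Pool.Agent.Lib.MP_d8bd92_nt
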