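import Pool.Agent.Lib.MP_d8bd92_nt.TwCurve
import Pool.Agent.Lib.MP_d8bd92_nt.TwRad

set_option autoImplicit false

/-!
The number of the semistable curves with a point of order two, conductor `≤ Y` and `|Δ| ≤ Y ^ κ`, is
asymptotic to `c Y ^ (3/4)`, with one constant `c` for all `κ > 3/2`: definitions.
A pair `w = (a, b)`, `c = a ^ 2 - 64 b`.
-/

namespace Pool.Agent.Lib.MP_d8bd92_nt

namespace As

open Finset Filter Topology Pool.Agent.Lib.Szpiro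

/-- the second factor `c = a ^ 2 - 64 b` -/
def cc (w : ℤ × ℤ) : ℤ := w.1 ^ 2 - 64 * w.2

/-- `|b c|` -/
def nn (w : ℤ × ℤ) : ℕ := (w.2 * cc w).natAbs

/-- the pairs which give the curves -/
def Good (w : ℤ × ℤ) : Prop := w.1 % 4 = 1 ∧ w.2 ≠ 0 ∧ cc w ≠ 0 ∧ IsCoprime w.1 w.2

/-- the region `0 < |b c| ≤ X` -/
def Rg (X : ℝ) : Set (ℤ × ℤ) := {w | w.2 ≠ 0 ∧ cc w ≠ 0 ∧ ((nn w : ℕ) : ℝ) ≤ X}

/-- the length of the set of the real `b` with `|b (a ^ 2 - 64 b)| ≤ X` -/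
noncomputable def L (X a : ℝ) : ℝ := (√(a ^ 4 + 256 * X) - √(max (a ^ 4 - 256 * X) 0)) / 64

theorem nn_eq (w : ℤ × ℤ) : nn w = w.2.natAbs * (cc w).natAbs := Int.natAbs_mul _ _

theorem nn_pos (w : ℤ × ℤ) (h2 : w.2 ≠ 0) (hc : cc w ≠ 0) : 1 ≤ nn w := by
  rw [nn]; exact Int.natAbs_pos.mpr (mul_ne_zero h2 hc)

/-- in the region `|b| ≤ X`, `|c| ≤ X`, `a ^ 2 ≤ 65 X` -/
theorem Rg_bound (X : ℝ) (w : ℤ × ℤ) (hw : w ∈ Rg X) :
    (w.2.natAbs : ℝ) ≤ X ∧ ((cc w).natAbs : ℝ) ≤ X ∧ (w.1 : ℝ) ^ 2 ≤ 65 * X := by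
  obtain ⟨h2, hc, hX⟩ := hw
  rw [nn_eq] at hX
  push_cast at hX
  have b1 : (1 : ℝ) ≤ (w.2.natAbs : ℝ) := by
    have : 1 ≤ w.2.natAbs := Int.natAbs_pos.mpr h2
    exact_mod_cast this
  have c1 : (1 : ℝ) ≤ ((cc w).natAbs : ℝ) := by
    have : 1 ≤ (cc w).natAbs := Int.natAbs_pos.mpr hc
    exact_mod_cast this
  have hb : (w.2.natAbs : ℝ) ≤ X := by nlinarith
  have hcX : ((cc w).natAbs : ℝ) ≤ X := by nlinarith
  refine ⟨hb, hcX, ?_⟩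
  have e : (w.1 : ℝ) ^ 2 = 64 * (w.2 : ℝ) + ((cc w : ℤ) : ℝ) := by
    rw [cc]; push_cast; ring
  have g1 : (w.2 : ℝ) ≤ (w.2.natAbs : ℝ) := by
    rw [Nat.cast_natAbs, Int.cast_abs]; exact le_abs_self _
  have g2 : ((cc w : ℤ) : ℝ) ≤ ((cc w).natAbs : ℝ) := by
    rw [Nat.cast_natAbs, Int.cast_abs]; exact le_abs_self _
  rw [e]
  nlinarith [mul_nonneg (sub_nonneg.2 b1) (sub_nonneg.2 c1)]

theorem Rg_finite (X : ℝ) : (Rg X).Finite := by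
  have hsub : Rg X ⊆ (Set.Icc (-((⌊65 * X⌋₊ : ℕ) : ℤ)) ((⌊65 * X⌋₊ : ℕ) : ℤ)) ×ˢ
      (Set.Icc (-((⌊65 * X⌋₊ : ℕ) : ℤ)) ((⌊65 * X⌋₊ : ℕ) : ℤ)) := by
    intro w hw
    obtain ⟨h1, h2, h3⟩ := Rg_bound X w hw
    have k2 : w.2.natAbs ≤ ⌊65 * X⌋₊ := by
      apply Nat.le_floor
      have : (0 : ℝ) ≤ X := le_trans (Nat.cast_nonneg _) h1
      linarith
    have k1 : w.1.natAbs ≤ ⌊65 * X⌋₊ := by
      apply Nat.le_floor
      refine le_trans ?_ h3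
      have : w.1.natAbs ≤ w.1.natAbs ^ 2 := Nat.le_self_pow (by norm_num) _
      have e : (w.1 : ℝ) ^ 2 = ((w.1.natAbs ^ 2 : ℕ) : ℝ) := by
        push_cast
        rw [Nat.cast_natAbs, Int.cast_abs, sq_abs]
      rw [e]
      exact_mod_cast this
    rw [Set.mem_prod, Set.mem_Icc, Set.mem_Icc]
    omega
  exact ((Set.finite_Icc _ _).prod (Set.finite_Icc _ _)).subset hsub

theorem Rg_mono {X X' : ℝ} (h : X ≤ X') : Rg X ⊆ Rg X' := fun _ hw => ⟨hw.1, hw.2.1, hw.2.2.trans h⟩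

/-- a function which can be approximated by constants with arbitrary precision converges -/
theorem limit_of_approx (F : ℝ → ℝ) (h : ∀ ε : ℝ, 0 < ε → ∃ r : ℝ, ∀ᶠ X in atTop, |F X - r| ≤ ε) :
    ∃ r : ℝ, Tendsto F atTop (𝓝 r) := by
  have hc : Cauchy (map F atTop) := by
    rw [Metric.cauchy_iff]
    refine ⟨inferInstance, fun ε hε => ?_⟩
    obtain ⟨r, hr⟩ := h (ε / 3) (by positivity)
    refine ⟨F '' {X | |F X - r| ≤ ε / 3}, image_mem_map hr, ?_⟩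
    rintro x ⟨X, hX, rfl⟩ y ⟨Z, hZ, rfl⟩
    rw [Set.mem_ofPred_eq, abs_le] at hX hZ
    rw [Real.dist_eq, abs_lt]
    constructor <;> linarith [hX.1, hX.2, hZ.1, hZ.2]
  obtain ⟨r, hr⟩ := cauchy_iff_exists_le_nhds.mp hc
  exact ⟨r, hr⟩

end As

end Pool.Agent.Lib.MP_d8bd92_nt
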