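import Pool.Agent.Lib.MP_d8bd92_nt.As.C2
import Pool.Agent.Lib.MP_d8bd92_nt.As.D3
import Pool.Agent.Lib.MP_d8bd92_nt.ToE
import Pool.Agent.Lib.MP_d8bd92_nt.ToF
import Pool.Agent.Lib.MP_d8bd92_nt.Hp.CurvesM
import Pool.Agent.Lib.MP_d8bd92_nt.Hp.MainTrue

set_option autoImplicit false

/-!
The number of the semistable curves with a point of order two, conductor `≤ Y` and `|Δ| ≤ Y ^ κ` is
asymptotic to `c Y ^ (3/4)`, with one constant `c > 0` for all `κ > 3/2`.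
-/

namespace Pool.Agent.Lib.MP_d8bd92_nt

namespace As

open Finset Filter Topology Pool.Agent.Lib.Szpiro

/-- the radical does not see multiplicities -/
theorem rd_sq_mul (x y : ℤ) (hx : x ≠ 0) (hy : y ≠ 0) :
    rd (x ^ 2 * y).natAbs = rd (x * y).natAbs := by
  unfold rd
  congr 1
  rw [Int.natAbs_mul, Int.natAbs_mul, Int.natAbs_pow,
    Nat.primeFactors_mul (pow_ne_zero 2 (Int.natAbs_ne_zero.mpr hx)) (Int.natAbs_ne_zero.mpr hy),
    Nat.primeFactors_mul (Int.natAbs_ne_zero.mpr hx) (Int.natAbs_ne_zero.mpr hy),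
    Nat.primeFactors_pow _ (by norm_num)]

theorem rd_ff (w : ℤ × ℤ) (hw : Good w) : rd (w.2 ^ 2 * cc w).natAbs = rd (nn w) := by
  rw [nn]; exact rd_sq_mul _ _ hw.2.1 hw.2.2.1

theorem rd_gg (w : ℤ × ℤ) (hw : Good w) : rd (w.2 * cc w ^ 2).natAbs = rd (nn w) := by
  rw [mul_comm, rd_sq_mul _ _ hw.2.2.1 hw.2.1, nn, mul_comm]

theorem disc_le_ff (w : ℤ × ℤ) (hw : Good w) : (w.2 ^ 2 * cc w).natAbs ≤ nn w ^ 2 := by
  rw [nn_eq, Int.natAbs_mul, Int.natAbs_pow]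
  rw [mul_pow]
  exact Nat.mul_le_mul_left _ (Nat.le_self_pow (by decide) _)

theorem disc_le_gg (w : ℤ × ℤ) (hw : Good w) : (w.2 * cc w ^ 2).natAbs ≤ nn w ^ 2 := by
  rw [nn_eq, Int.natAbs_mul, Int.natAbs_pow]
  rw [mul_pow]
  exact Nat.mul_le_mul_right _ (Nat.le_self_pow (by decide) _)

/-- the discriminant is bounded by the height -/
theorem disc_le_height (W : WeierstrassCurve ℤ) :
    ((W.Δ.natAbs : ℕ) : ℝ) ≤ ((max (W.c₄.natAbs ^ 3) (W.c₆.natAbs ^ 2) : ℕ) : ℝ) := by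
  have g1 : (1728 : ℤ) * W.Δ = W.c₄ ^ 3 - W.c₆ ^ 2 := W.c_relation
  have g2 : 1728 * W.Δ.natAbs ≤ W.c₄.natAbs ^ 3 + W.c₆.natAbs ^ 2 := by
    have g3 := Int.natAbs_sub_le (W.c₄ ^ 3) (W.c₆ ^ 2)
    rw [← g1, Int.natAbs_mul, Int.natAbs_pow, Int.natAbs_pow] at g3
    exact g3
  have g4 := le_max_left (W.c₄.natAbs ^ 3) (W.c₆.natAbs ^ 2)
  have g5 := le_max_right (W.c₄.natAbs ^ 3) (W.c₆.natAbs ^ 2)
  have g6 : W.Δ.natAbs ≤ max (W.c₄.natAbs ^ 3) (W.c₆.natAbs ^ 2) := by omega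
  exact_mod_cast g6

/-- the image of the good pairs -/
def Im (Y η : ℝ) : Set (ℤ × ℤ) := ff '' Gs Y η ∪ gg '' Gs Y η

theorem Im_finite (Y η : ℝ) : (Im Y η).Finite :=
  ((Gs_finite Y η).image ff).union ((Gs_finite Y η).image gg)

theorem Im_le (Y η : ℝ) : (Im Y η).ncard ≤ 2 * (Gs Y η).ncard := by
  have h1 := Set.ncard_union_le (ff '' Gs Y η) (gg '' Gs Y η)
  have h2 := Set.ncard_image_le (f := ff) (Gs_finite Y η)
  have h3 := Set.ncard_image_le (f := gg) (Gs_finite Y η)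
  unfold Im
  omega

theorem Im_ge (Y η : ℝ) : 2 * (Gs Y η).ncard ≤ (Im Y η).ncard +
    2 * {w ∈ Gs Y η | IsSquare w.2 ∨ IsSquare (cc w)}.ncard := by
  classical
  set G := Gs Y η with hG
  set B : Set (ℤ × ℤ) := {w ∈ G | IsSquare w.2 ∨ IsSquare (cc w)} with hB
  have hGf : G.Finite := Gs_finite Y η
  have hBf : B.Finite := hGf.subset (fun w hw => hw.1)
  have h1 : G.ncard ≤ (G \ B).ncard + B.ncard := by
    rw [Set.ncard_sdiff_add_ncard_of_subset (fun w hw => hw.1) hGf]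
  have hf : Set.InjOn ff (G \ B) := by
    intro w hw v _ h
    rcases ff_inj w v h with h | h
    · exact h
    · exact absurd ⟨hw.1, Or.inr h⟩ hw.2
  have hg : Set.InjOn gg (G \ B) := by
    intro w hw v _ h
    rcases gg_inj w v h with h | h
    · exact h
    · exact absurd ⟨hw.1, Or.inl h⟩ hw.2
  have hd : Disjoint (ff '' (G \ B)) (gg '' (G \ B)) := by
    rw [Set.disjoint_left]
    rintro c ⟨w, hw, rfl⟩ ⟨v, hv, h⟩
    exact hw.2 ⟨hw.1, Or.inr (ff_ne_gg w v hw.1.1.1 h.symm)⟩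
  have h2 : (ff '' (G \ B) ∪ gg '' (G \ B)).ncard = (G \ B).ncard + (G \ B).ncard := by
    rw [Set.ncard_union_eq hd ((hGf.subset Set.sdiff_subset).image _)
      ((hGf.subset Set.sdiff_subset).image _), hf.ncard_image, hg.ncard_image]
  have h3 : (ff '' (G \ B) ∪ gg '' (G \ B)).ncard ≤ (Im Y η).ncard := by
    apply Set.ncard_le_ncard _ (Im_finite Y η)
    exact Set.union_subset_union (Set.image_mono Set.sdiff_subset)
      (Set.image_mono Set.sdiff_subset)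
  omega

theorem two_asymp : ∃ c : ℝ, 0 < c ∧ ∀ κ : ℝ, 3 / 2 < κ →
    Tendsto (fun Y : ℝ => (((twoSet Y κ).ncard : ℕ) : ℝ) / Y ^ (3 / 4 : ℝ)) atTop (𝓝 c) := by
  classical
  obtain ⟨c, hc⟩ := G_limit
  have hG := hc (1 / 40) (by norm_num) le_rfl
  obtain ⟨Cq, hCq, hq⟩ := few_squares
  -- the limit
  have main : ∀ κ : ℝ, 3 / 2 < κ →
      Tendsto (fun Y : ℝ => (((twoSet Y κ).ncard : ℕ) : ℝ) / Y ^ (3 / 4 : ℝ)) atTop (𝓝 (2 * c)) := by
    intro κ hκ
    obtain ⟨κ1, hκ1⟩ : ∃ κ1 : ℝ, κ1 = max κ 3 := ⟨_, rfl⟩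
    have hκκ1 : κ ≤ κ1 := by rw [hκ1]; exact le_max_left _ _
    have h3κ1 : 3 ≤ κ1 := by rw [hκ1]; exact le_max_right _ _
    obtain ⟨e, he⟩ : ∃ e : ℝ, e = min (κ - 3 / 2) (1 / 80) := ⟨_, rfl⟩
    have he0 : 0 < e := by rw [he]; exact lt_min (sub_pos.mpr hκ) (by norm_num)
    have heκ : e ≤ κ - 3 / 2 := by rw [he]; exact min_le_left _ _
    have he80 : e ≤ 1 / 80 := by rw [he]; exact min_le_right _ _
    obtain ⟨C, δ, hC, hδ, hE⟩ := Hp.modSet_few_gen κ1 (-3 / 2 + e / 6) (e - 9 / 2)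
      (by linarith only [h3κ1]) (by linarith only [he0]) (by linarith only [he0])
      (Hp.main_true (κ1 + 4) (e / 6) (by linarith only [h3κ1]) (by linarith only [he0]))
    obtain ⟨C2, hC2, h2⟩ := twoSet_upper κ 1 (by linarith only [hκ]) one_pos
    -- the main inclusion
    have hin : ∀ᶠ Y : ℝ in atTop, twoSet Y κ ⊆ Im Y (1 / 40) ∪ Hp.modSet Y κ1 (e - 9 / 2) := by
      have hev : ∀ᶠ Y : ℝ in atTop, (100 : ℝ) ≤ Y ^ (1 / 60 : ℝ) :=
        (tendsto_rpow_atTop (by norm_num)).eventually_ge_atTop 100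
      filter_upwards [hev, eventually_ge_atTop (1 : ℝ)] with Y hY100 hY1
      have hY0 : 0 < Y := zero_lt_one.trans_le hY1
      rintro x ⟨W, h4, h6, hΔ, hss, hP, hN, hD⟩
      by_cases hH : ((max (W.c₄.natAbs ^ 3) (W.c₆.natAbs ^ 2) : ℕ) : ℝ) ≤
          ((rd W.Δ.natAbs : ℕ) : ℝ) ^ (3 / 2 + e)
      · left
        obtain ⟨w, hw, hcase⟩ := param W hΔ hss hP
        have hrd : rd W.Δ.natAbs = rd (nn w) := by
          rcases hcase with ⟨_, h⟩ | ⟨_, h⟩
          · rw [h]; exact rd_ff w hw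
          · rw [h]; exact rd_gg w hw
        have hsize : ((nn w : ℕ) : ℝ) ≤
            100 * (((rd W.Δ.natAbs : ℕ) : ℝ) ^ (3 / 2 + e)) ^ (2 / 3 : ℝ) := by
          rcases hcase with ⟨h, _⟩ | ⟨h, _⟩
          · apply size_ff
            rw [← h]
            exact hH
          · apply size_gg
            rw [← h]
            exact hH
        have hN1 : (1 : ℝ) ≤ ((rd W.Δ.natAbs : ℕ) : ℝ) := by
          have := rd_pos W.Δ.natAbs
          exact_mod_cast this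
        have hN0 : (0 : ℝ) < ((rd W.Δ.natAbs : ℕ) : ℝ) := zero_lt_one.trans_le hN1
        have hmem : w ∈ Gs Y (1 / 40) := by
          refine ⟨hw, by rw [← hrd]; exact hN, ?_⟩
          rw [← hrd]
          refine hsize.trans ?_
          rw [← Real.rpow_mul hN0.le]
          have e1 : (3 / 2 + e) * (2 / 3) = 1 + 2 / 3 * e := by ring
          rw [e1, Real.rpow_add hN0, Real.rpow_one]
          have e2 : ((rd W.Δ.natAbs : ℕ) : ℝ) ^ (2 / 3 * e) ≤ Y ^ (1 / 120 : ℝ) := by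
            refine (Real.rpow_le_rpow hN0.le hN (by linarith only [he0])).trans ?_
            exact Real.rpow_le_rpow_of_exponent_le hY1 (by linarith only [he80])
          have e3 : Y ^ (1 / 40 : ℝ) = Y ^ (1 / 60 : ℝ) * Y ^ (1 / 120 : ℝ) := by
            rw [← Real.rpow_add hY0]; norm_num
          rw [e3]
          have p1 : 0 < Y ^ (1 / 120 : ℝ) := Real.rpow_pos_of_pos hY0 _
          calc 100 * (((rd W.Δ.natAbs : ℕ) : ℝ) * ((rd W.Δ.natAbs : ℕ) : ℝ) ^ (2 / 3 * e))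
              ≤ 100 * (((rd W.Δ.natAbs : ℕ) : ℝ) * Y ^ (1 / 120 : ℝ)) :=
                mul_le_mul_of_nonneg_left (mul_le_mul_of_nonneg_left e2 hN0.le) (by norm_num)
            _ = 100 * Y ^ (1 / 120 : ℝ) * ((rd W.Δ.natAbs : ℕ) : ℝ) := by
                rw [mul_assoc, mul_comm (Y ^ (1 / 120 : ℝ))]
            _ ≤ Y ^ (1 / 60 : ℝ) * Y ^ (1 / 120 : ℝ) * ((rd W.Δ.natAbs : ℕ) : ℝ) :=
                mul_le_mul_of_nonneg_right (mul_le_mul_of_nonneg_right hY100 p1.le) hN0.le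
        have hx : x = (W.c₄, W.c₆) := by rw [h4, h6]
        rcases hcase with ⟨h, _⟩ | ⟨h, _⟩
        · exact Or.inl ⟨w, hmem, by rw [hx, h]⟩
        · exact Or.inr ⟨w, hmem, by rw [hx, h]⟩
      · right
        refine ⟨W, h4, h6, hΔ, hss, hP, hN, ?_, hD.trans ?_⟩
        · have : (6 + (e - 9 / 2) : ℝ) = 3 / 2 + e := by ring
          rw [this]
          exact not_le.mp hH
        · exact Real.rpow_le_rpow_of_exponent_le hY1 hκκ1
    have hin2 : ∀ Y : ℝ, 1 ≤ Y → Im Y (1 / 40) ⊆ twoSet Y κ ∪ Hp.modSet Y κ1 (e - 9 / 2) := by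
      intro Y hY1
      have hY0 : 0 < Y := zero_lt_one.trans_le hY1
      have key : ∀ (w : ℤ × ℤ) (W : WeierstrassCurve ℤ), w ∈ Gs Y (1 / 40) → rd W.Δ.natAbs = rd (nn w) →
          W.Δ.natAbs ≤ nn w ^ 2 → W.Δ ≠ 0 → IsCoprime W.c₄ W.Δ →
          (∃ P : (W.baseChange ℚ).toAffine.Point, addOrderOf P = 2) →
          (W.c₄, W.c₆) ∈ twoSet Y κ ∪ Hp.modSet Y κ1 (e - 9 / 2) := by
        intro w W hw hrd hDn hΔ hss hP
        obtain ⟨hgood, hN, hn⟩ := hw
        have hN' : ((rd W.Δ.natAbs : ℕ) : ℝ) ≤ Y := by rw [hrd]; exact hN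
        have hN1 : (1 : ℝ) ≤ ((rd W.Δ.natAbs : ℕ) : ℝ) := by
          have := rd_pos W.Δ.natAbs
          exact_mod_cast this
        have hN0 : (0 : ℝ) < ((rd W.Δ.natAbs : ℕ) : ℝ) := zero_lt_one.trans_le hN1
        by_cases hH : ((max (W.c₄.natAbs ^ 3) (W.c₆.natAbs ^ 2) : ℕ) : ℝ) ≤
            ((rd W.Δ.natAbs : ℕ) : ℝ) ^ (3 / 2 + e)
        · left
          refine ⟨W, rfl, rfl, hΔ, hss, hP, hN', (disc_le_height W).trans (hH.trans ?_)⟩
          refine (Real.rpow_le_rpow hN0.le hN' (by linarith only [he0])).trans ?_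
          exact Real.rpow_le_rpow_of_exponent_le hY1 (by linarith only [heκ])
        · right
          refine ⟨W, rfl, rfl, hΔ, hss, hP, hN', ?_, ?_⟩
          · have : (6 + (e - 9 / 2) : ℝ) = 3 / 2 + e := by ring
            rw [this]
            exact not_le.mp hH
          · have h1 : ((W.Δ.natAbs : ℕ) : ℝ) ≤ ((nn w : ℕ) : ℝ) ^ 2 := by exact_mod_cast hDn
            have h2 : ((nn w : ℕ) : ℝ) ≤ Y ^ (1 / 40 : ℝ) * Y := by
              refine hn.trans ?_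
              exact mul_le_mul_of_nonneg_left hN (Real.rpow_nonneg hY0.le _)
            have h3 : ((nn w : ℕ) : ℝ) ^ 2 ≤ (Y ^ (1 / 40 : ℝ) * Y) ^ 2 :=
              pow_le_pow_left₀ (Nat.cast_nonneg _) h2 2
            have h4 : (Y ^ (1 / 40 : ℝ) * Y) ^ 2 = Y ^ (41 / 20 : ℝ) := by
              rw [← Real.rpow_natCast (Y ^ (1 / 40 : ℝ) * Y) 2]
              have : Y ^ (1 / 40 : ℝ) * Y = Y ^ (41 / 40 : ℝ) := by
                rw [← Real.rpow_add_one hY0.ne']; norm_num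
              rw [this, ← Real.rpow_mul hY0.le]
              norm_num
            rw [h4] at h3
            refine h1.trans (h3.trans ?_)
            exact Real.rpow_le_rpow_of_exponent_le hY1 (by linarith only [h3κ1])
      rintro x (⟨w, hw, rfl⟩ | ⟨w, hw, rfl⟩)
      · obtain ⟨W, h1, h2, h3, h4⟩ := curve_f w hw.1
        rw [← h1]
        apply key w W hw
        · rw [h2]; exact rd_ff w hw.1
        · rw [h2]; exact disc_le_ff w hw.1
        · rw [h2]; exact mul_ne_zero (pow_ne_zero 2 hw.1.2.1) hw.1.2.2.1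
        · exact h3
        · exact h4
      · obtain ⟨W, h1, h2, h3, h4⟩ := curve_g w hw.1
        rw [← h1]
        apply key w W hw
        · rw [h2]; exact rd_gg w hw.1
        · rw [h2]; exact disc_le_gg w hw.1
        · rw [h2]; exact mul_ne_zero hw.1.2.1 (pow_ne_zero 2 hw.1.2.2.1)
        · exact h3
        · exact h4
    -- the squares
    have hsq : ∀ Y : ℝ, 1 ≤ Y → (({w ∈ Gs Y (1 / 40) | IsSquare w.2 ∨ IsSquare (cc w)}.ncard : ℕ) : ℝ) ≤
        Cq * Y ^ (3 / 4 - 1 / 40 : ℝ) := by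
      intro Y hY1
      have hY0 : 0 < Y := zero_lt_one.trans_le hY1
      have h1Y : (1 : ℝ) ≤ Y ^ (41 / 40 : ℝ) := Real.one_le_rpow hY1 (by norm_num)
      refine le_trans ?_ ((hq (Y ^ (41 / 40 : ℝ)) h1Y).trans ?_)
      · have hle : {w ∈ Gs Y (1 / 40) | IsSquare w.2 ∨ IsSquare (cc w)}.ncard ≤
            {w ∈ Rg (Y ^ (41 / 40 : ℝ)) | IsSquare w.2 ∨ IsSquare (cc w)}.ncard := by
          apply Set.ncard_le_ncard _ ((Rg_finite _).subset (fun w hw => hw.1))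
          rintro w ⟨⟨hg, hN, hn⟩, hs⟩
          refine ⟨⟨hg.2.1, hg.2.2.1, ?_⟩, hs⟩
          refine hn.trans ?_
          have e1 : Y ^ (41 / 40 : ℝ) = Y ^ (1 / 40 : ℝ) * Y := by
            rw [← Real.rpow_add_one hY0.ne']; norm_num
          rw [e1]
          exact mul_le_mul_of_nonneg_left hN (Real.rpow_nonneg hY0.le _)
        exact_mod_cast hle
      · rw [← Real.rpow_mul hY0.le]
        apply mul_le_mul_of_nonneg_left _ hCq.le
        exact Real.rpow_le_rpow_of_exponent_le hY1 (by norm_num)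
    -- the difference tends to zero
    have hdiff : Tendsto (fun Y : ℝ => (((twoSet Y κ).ncard : ℕ) : ℝ) / Y ^ (3 / 4 : ℝ) -
        2 * ((((Gs Y (1 / 40)).ncard : ℕ) : ℝ) / Y ^ (3 / 4 : ℝ))) atTop (𝓝 0) := by
      have hb : Tendsto (fun Y : ℝ => 2 * Cq * Y ^ (-(1 / 40) : ℝ) + C * Y ^ (-δ)) atTop (𝓝 0) := by
        have t1 : Tendsto (fun Y : ℝ => Y ^ (-(1 / 40) : ℝ)) atTop (𝓝 0) :=
          tendsto_rpow_neg_atTop (by norm_num)
        have t2 : Tendsto (fun Y : ℝ => Y ^ (-δ)) atTop (𝓝 0) := tendsto_rpow_neg_atTop hδ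
        have := (t1.const_mul (2 * Cq)).add (t2.const_mul C)
        simpa using this
      apply squeeze_zero_norm' _ hb
      filter_upwards [hin, eventually_ge_atTop (1 : ℝ)] with Y hY hY1
      have hY0 : 0 < Y := zero_lt_one.trans_le hY1
      have hp : 0 < Y ^ (3 / 4 : ℝ) := Real.rpow_pos_of_pos hY0 _
      have hE1 := hE Y hY1
      have hT := (h2 Y hY1).1
      have hup : (((twoSet Y κ).ncard : ℕ) : ℝ) ≤ 2 * (((Gs Y (1 / 40)).ncard : ℕ) : ℝ) +
          C * Y ^ (3 / 4 - δ) := by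
        have k1 : (twoSet Y κ).ncard ≤ (Im Y (1 / 40)).ncard + (Hp.modSet Y κ1 (e - 9 / 2)).ncard :=
          (Set.ncard_le_ncard hY ((Im_finite _ _).union hE1.1)).trans (Set.ncard_union_le _ _)
        have k2 := Im_le Y (1 / 40)
        have k3 : (twoSet Y κ).ncard ≤ 2 * (Gs Y (1 / 40)).ncard + (Hp.modSet Y κ1 (e - 9 / 2)).ncard := by
          omega
        have k4 : (((twoSet Y κ).ncard : ℕ) : ℝ) ≤ 2 * (((Gs Y (1 / 40)).ncard : ℕ) : ℝ) +
            (((Hp.modSet Y κ1 (e - 9 / 2)).ncard : ℕ) : ℝ) := by exact_mod_cast k3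
        linarith only [hE1.2, k4]
      have hlo : 2 * (((Gs Y (1 / 40)).ncard : ℕ) : ℝ) ≤ (((twoSet Y κ).ncard : ℕ) : ℝ) +
          C * Y ^ (3 / 4 - δ) + 2 * (Cq * Y ^ (3 / 4 - 1 / 40 : ℝ)) := by
        have k1 : (Im Y (1 / 40)).ncard ≤ (twoSet Y κ).ncard + (Hp.modSet Y κ1 (e - 9 / 2)).ncard :=
          (Set.ncard_le_ncard (hin2 Y hY1) (hT.union hE1.1)).trans (Set.ncard_union_le _ _)
        have k2 := Im_ge Y (1 / 40)
        have k3 : 2 * (Gs Y (1 / 40)).ncard ≤ (twoSet Y κ).ncard + (Hp.modSet Y κ1 (e - 9 / 2)).ncard +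
            2 * {w ∈ Gs Y (1 / 40) | IsSquare w.2 ∨ IsSquare (cc w)}.ncard := by
          omega
        have k4 : 2 * (((Gs Y (1 / 40)).ncard : ℕ) : ℝ) ≤ (((twoSet Y κ).ncard : ℕ) : ℝ) +
            (((Hp.modSet Y κ1 (e - 9 / 2)).ncard : ℕ) : ℝ) +
            2 * (({w ∈ Gs Y (1 / 40) | IsSquare w.2 ∨ IsSquare (cc w)}.ncard : ℕ) : ℝ) := by
          exact_mod_cast k3
        linarith only [hE1.2, hsq Y hY1, k4]
      have e1 : Y ^ (3 / 4 - δ) = Y ^ (-δ) * Y ^ (3 / 4 : ℝ) := by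
        rw [← Real.rpow_add hY0, neg_add_eq_sub]
      have e2 : Y ^ (3 / 4 - 1 / 40 : ℝ) = Y ^ (-(1 / 40) : ℝ) * Y ^ (3 / 4 : ℝ) := by
        rw [← Real.rpow_add hY0]; norm_num
      rw [e1] at hup hlo
      rw [e2] at hlo
      have e3 : (((twoSet Y κ).ncard : ℕ) : ℝ) / Y ^ (3 / 4 : ℝ) -
          2 * ((((Gs Y (1 / 40)).ncard : ℕ) : ℝ) / Y ^ (3 / 4 : ℝ)) =
          ((((twoSet Y κ).ncard : ℕ) : ℝ) - 2 * (((Gs Y (1 / 40)).ncard : ℕ) : ℝ)) / Y ^ (3 / 4 : ℝ) := by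
        rw [sub_div, mul_div_assoc]
      rw [e3, Real.norm_eq_abs, abs_div, abs_of_pos hp, div_le_iff₀ hp, abs_le]
      have p1 : 0 ≤ Cq * Y ^ (-(1 / 40) : ℝ) * Y ^ (3 / 4 : ℝ) :=
        mul_nonneg (mul_nonneg hCq.le (Real.rpow_nonneg hY0.le _)) hp.le
      constructor
      · linarith only [hlo]
      · linarith only [hup, p1]
    have hfin := hdiff.add (hG.const_mul 2)
    simp only [zero_add] at hfin
    exact hfin.congr fun Y => sub_add_cancel _ _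
  -- positivity
  have hpos : 0 < 2 * c := by
    have hlim := main 2 (by norm_num)
    obtain ⟨C2, hC2, h2⟩ := twoSet_upper 2 1 (by norm_num) one_pos
    have hge : (3 / 1024 : ℝ) ≤ 2 * c := by
      apply ge_of_tendsto hlim
      filter_upwards [eventually_ge_atTop (256 : ℝ)] with Y hY
      have hY1 : 1 ≤ Y := le_trans (by norm_num) hY
      have hp : 0 < Y ^ (3 / 4 : ℝ) := Real.rpow_pos_of_pos (zero_lt_one.trans_le hY1) _
      rw [le_div_iff₀ hp]
      exact twoSet_lower 2 (by norm_num) Y hY (h2 Y hY1).1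
    exact lt_of_lt_of_le (by norm_num) hge
  exact ⟨2 * c, hpos, main⟩

end As

end Pool.Agent.Lib.MP_d8bd92_nt
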